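import Pool.Agent.H503.MU.Core

/-!
# Output in terms of `L`-functions
-/

set_option autoImplicit false
set_option linter.unusedSectionVars false

open Complex UpperHalfPlane MatrixGroups CongruenceSubgroup Filter Topology ModularForm

namespace Pool.Agent.H503.MU

open Pool.Agent.H503.TA

section
variable {N : ℕ} [NeZero N]
variable (f : CuspForm (Gamma0 N : Subgroup (GL (Fin 2) ℝ)) 2)

/-- the algebraic part -/
def AlgPart {M : ℕ} (c : ℕ → ℂ) (Ω : ℂ) (χ : DirichletCharacter ℂ M)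
    (l : integralClosure ℤ ℂ) : Prop :=
  (l : ℂ) ∈ Algebra.adjoin ℤ (Set.range χ) ∧ ∃ L : ℂ → ℂ, Differentiable ℂ L ∧
    (∀ s : ℂ, 2 < s.re → L s = LSeries (fun n => χ n * c n) s) ∧
    (∑ a ∈ Finset.range M, χ⁻¹ (a : ZMod M) * Complex.exp (2 * Real.pi * Complex.I * a / M)) * L 1 =
      Ω * (l : ℂ)

lemma algPart_of {M : ℕ} [NeZero M] (hM : 1 < M) {χ : DirichletCharacter ℂ M} (hχ : χ.IsPrimitive)
    {Ω : ℂ} {k : (ZMod M)ˣ → ℤ} (hk : χ ≠ 1 → SchiB f χ = Ω * Lh k χ) :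
    AlgPart (coef f) Ω χ ⟨Lh k χ, Lh_integral k χ⟩ := by
  have hne : χ ≠ 1 := by
    rintro rfl
    rw [DirichletCharacter.isPrimitive_def, DirichletCharacter.conductor_one] at hχ
    omega
  obtain ⟨L, hL1, hL2, hL3⟩ := exists_LB f hχ
  refine ⟨Lh_adjoin k χ, L, hL1, hL2, ?_⟩
  rw [← tau_eq_range, hL3, hk hne]

theorem final {p : ℕ} (hp : p.Prime) (hpN : ¬ p ∣ N)
    (hreal : ∀ n, (coef f n).im = 0) {s : ℂ} (hs : s = 1 ∨ s = -1) {Ω : ℂ} (hΩ0 : Ω ≠ 0)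
    (hΩ : ∀ w : ℂ, (∃ c, IsPer f c ∧ w = c + s * (starRingEnd ℂ) c) ↔ ∃ k : ℤ, w = k * Ω)
    {cp : ℤ} (hTp : HeckeAt f p cp) {q : ℕ} (hq : AuxPrime f p q)
    (hcase : (p : ℤ) ∣ cp ∨ ∃ q', q ≠ q' ∧ AuxPrime f p q') :
    ∃ n₀ : ℕ, ∀ n ≥ n₀,
      (∃ χ : DirichletCharacter ℂ (p ^ n), χ.IsPrimitive ∧ χ (-1) = s ∧
        ∃ l : integralClosure ℤ ℂ, AlgPart (coef f) Ω χ l ∧ ¬ (p : integralClosure ℤ ℂ) ∣ l) ∧
      (p = 2 ∨ p = 3 → ∀ χ : DirichletCharacter ℂ (p ^ n), χ.IsPrimitive → χ (-1) = s →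
        ∃ l : integralClosure ℤ ℂ, AlgPart (coef f) Ω χ l ∧ ¬ (p : integralClosure ℤ ℂ) ∣ l) := by
  have key : ∀ (e w : ℕ) (h : GoodW p e w) (hg : p = 2 ∨ p = 3 → Good p e), ∃ n₀ : ℕ, ∀ n ≥ n₀,
      (∃ χ : DirichletCharacter ℂ (p ^ n), χ.IsPrimitive ∧ χ (-1) = s ∧
        ∃ l : integralClosure ℤ ℂ, AlgPart (coef f) Ω χ l ∧ ¬ (p : integralClosure ℤ ℂ) ∣ l) ∧
      (p = 2 ∨ p = 3 → ∀ χ : DirichletCharacter ℂ (p ^ n), χ.IsPrimitive → χ (-1) = s →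
        ∃ l : integralClosure ℤ ℂ, AlgPart (coef f) Ω χ l ∧ ¬ (p : integralClosure ℤ ℂ) ∣ l) := by
    intro e w h hg
    obtain ⟨t₀, ht₀⟩ := core f h hpN hreal hs hΩ0 hΩ hTp hq hcase
    refine ⟨t₀ + 1 + e, fun n hn => ?_⟩
    obtain ⟨t, rfl⟩ : ∃ t, n = t + 1 + e := ⟨n - 1 - e, by omega⟩
    have hM0 : NeZero (p ^ (t + 1 + e)) := ⟨pow_ne_zero _ h.prime.ne_zero⟩
    have hM1 : 1 < p ^ (t + 1 + e) := Nat.one_lt_pow (by omega) h.prime.one_lt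
    obtain ⟨k, hk1, hk2⟩ := ht₀ t (by omega)
    have hout : ∀ χ : DirichletCharacter ℂ (p ^ (t + 1 + e)), χ.IsPrimitive → χ (-1) = s →
        (∀ y : ℂ, IsIntegral ℤ y → Lh k χ ≠ p * y) →
        ∃ l : integralClosure ℤ ℂ, AlgPart (coef f) Ω χ l ∧ ¬ (p : integralClosure ℤ ℂ) ∣ l := by
      intro χ hχ hχs hnd
      refine ⟨⟨Lh k χ, Lh_integral k χ⟩, algPart_of f hM1 hχ (fun hne => hk1 χ hne hχs), ?_⟩
      rintro ⟨y, hy⟩
      refine hnd y y.2 ?_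
      have := congrArg (fun z : integralClosure ℤ ℂ => (z : ℂ)) hy
      simpa using this
    constructor
    · have hpos : p ^ (t + 1) ≠ 0 := pow_ne_zero _ h.prime.ne_zero
      have hζ := Complex.isPrimitiveRoot_exp (p ^ (t + 1)) hpos
      obtain ⟨χ, hχ1, hχs, hnd⟩ := hk2 _ hζ
      have hpr := primitive_of_wild h t hζ hχ1
      exact ⟨χ, hpr, hχs, hout χ hpr hχs hnd⟩
    · intro hp23 χ hχ hχs
      have hgood := hg hp23
      have hprim := primitive_g hgood t χ hχ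
      have hζ : IsPrimitiveRoot (χ (1 + p ^ e : ZMod (p ^ (t + 1 + e))))⁻¹ (p ^ (t + 1)) := hprim.inv
      obtain ⟨χ', hχ1, hχs', hnd⟩ := hk2 _ hζ
      have hne : χ (1 + p ^ e : ZMod (p ^ (t + 1 + e))) ≠ 0 :=
        hprim.ne_zero (pow_ne_zero _ h.prime.ne_zero)
      have heq : χ' = χ := by
        refine char_ext hgood h (t + 1) ?_ (hχs'.trans hχs.symm)
        rw [gW_val] at hχ1 ⊢
        field_simp at hχ1
        exact hχ1
      rw [heq] at hnd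
      exact hout χ hχ hχs hnd
  rcases hp.eq_two_or_odd with rfl | hodd
  · exact key 2 1 goodW_two (fun _ => good_two)
  · refine key 1 _ (goodW_odd hp (by rintro rfl; simp at hodd)) ?_
    rintro (rfl | rfl)
    · simp at hodd
    · exact good_three

end

end Pool.Agent.H503.MU
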