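import Pool.Agent.H503.MU.IntA

/-!
# The values at the cusps `a / p^n` modulo `p`
-/

set_option autoImplicit false
set_option linter.unusedSectionVars false

open Matrix MatrixGroups CongruenceSubgroup

namespace Pool.Agent.H503.MU

/-- Hecke relation for the integral symbol -/
def KHecke (K : ℚ × ℚ → ℤ) (l : ℕ) (a : ℤ) : Prop :=
  ∀ x y : ℚ, K (l * x, y) + ∑ i ∈ Finset.range l, K (x + i * y, l * y) = a * K (x, y)

/-- modulo `p` the value at `a / p^(n+1)`, `p ∤ a`, depends on `a` modulo `p^n` only -/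
def Const (p : ℕ) (K : ℚ × ℚ → ℤ) (n : ℕ) : Prop :=
  ∀ a a' : ℤ, ¬ (p : ℤ) ∣ a → ¬ (p : ℤ) ∣ a' → (p : ℤ) ^ n ∣ a' - a →
    (p : ℤ) ∣ K ((a' : ℚ), (p : ℚ) ^ (n + 1)) - K ((a : ℚ), (p : ℚ) ^ (n + 1))

section
variable {N : ℕ} {D : ℤ} {K : ℚ × ℚ → ℤ} (hK : IsIntSym N D K)
variable {p : ℕ} (hp : p.Prime)

include hK in
lemma K_T (x y : ℚ) (n : ℤ) : K (x + n * y, y) = K (x, y) := by
  by_cases hz : ((x, y) : ℚ × ℚ) = 0
  · rw [Prod.mk_eq_zero] at hz
    rw [hz.1, hz.2, mul_zero, add_zero]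
  · obtain ⟨w, hw⟩ := hK.inv 1 n 0 1 (by ring) (dvd_zero _)
    have h1 := hw 1 0 (by simp)
    have h2 := hw x y hz
    push_cast at h1 h2
    rw [one_mul, mul_zero, add_zero, zero_mul, one_mul, add_zero, hK.inf, zero_add] at h1
    rw [one_mul, zero_mul, zero_add, one_mul, ← h1, add_zero] at h2
    exact h2

include hK in
lemma K_congr {a a' : ℤ} {n : ℕ} (h : (p : ℤ) ^ n ∣ a' - a) :
    K ((a' : ℚ), (p : ℚ) ^ n) = K ((a : ℚ), (p : ℚ) ^ n) := by
  obtain ⟨t, ht⟩ := h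
  have h1 := K_T hK (a : ℚ) ((p : ℚ) ^ n) t
  rw [← h1]
  congr 2
  have : (a' : ℚ) - a = (p : ℚ) ^ n * t := by exact_mod_cast congrArg (fun n : ℤ => (n : ℚ)) ht
  linear_combination this

include hK hp in
lemma step {cp : ℤ} (hT : KHecke K p cp) {n : ℕ} (hn : Const p K (n + 1)) {a : ℤ}
    (ha : ¬ (p : ℤ) ∣ a) :
    (p : ℤ) ∣ cp * K ((a : ℚ), (p : ℚ) ^ (n + 1)) - K ((a : ℚ), (p : ℚ) ^ n) := by
  have hp0 : (p : ℚ) ≠ 0 := by exact_mod_cast hp.ne_zero
  have h1 := hT (a : ℚ) ((p : ℚ) ^ (n + 1))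
  have h2 : (p : ℤ) ∣ ∑ i ∈ Finset.range p, K ((a : ℚ) + i * (p : ℚ) ^ (n + 1),
      p * (p : ℚ) ^ (n + 1)) := by
    have h3 : ∑ i ∈ Finset.range p, K ((a : ℚ) + i * (p : ℚ) ^ (n + 1), p * (p : ℚ) ^ (n + 1)) =
        ∑ i ∈ Finset.range p, (K ((a : ℚ) + i * (p : ℚ) ^ (n + 1), p * (p : ℚ) ^ (n + 1)) -
          K ((a : ℚ), (p : ℚ) ^ (n + 1 + 1))) + p * K ((a : ℚ), (p : ℚ) ^ (n + 1 + 1)) := by
      rw [Finset.sum_sub_distrib, Finset.sum_const, Finset.card_range, nsmul_eq_mul]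
      ring
    rw [h3]
    refine dvd_add (Finset.dvd_sum fun i _ => ?_) (dvd_mul_right _ _)
    have h5 : (p : ℤ) ∣ i * (p : ℤ) ^ (n + 1) := ⟨i * (p : ℤ) ^ n, by ring⟩
    have h4 := hn a (a + i * (p : ℤ) ^ (n + 1)) ha (fun h => ha ((dvd_add_left h5).1 h)) ⟨i, by ring⟩
    push_cast at h4
    rw [pow_succ' (p : ℚ) (n + 1)] at h4 ⊢
    exact h4
  have h6 : K ((p : ℚ) * a, (p : ℚ) ^ (n + 1)) = K ((a : ℚ), (p : ℚ) ^ n) := by
    rw [pow_succ' (p : ℚ) n, hK.hom (p : ℚ) _ _ hp0]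
  rw [h6] at h1
  rw [← h1, add_sub_cancel_left]
  exact h2

include hK hp in
lemma const_down {cp : ℤ} (hcp : ¬ (p : ℤ) ∣ cp) (hT : KHecke K p cp) {n : ℕ}
    (hn : Const p K (n + 1)) : Const p K n := by
  have hpp : Prime (p : ℤ) := Nat.prime_iff_prime_int.1 hp
  intro a a' ha ha' haa
  have h1 := step hK hp hT hn ha
  have h2 := step hK hp hT hn ha'
  rw [K_congr hK haa] at h2
  have h3 : (p : ℤ) ∣ cp * (K ((a' : ℚ), (p : ℚ) ^ (n + 1)) - K ((a : ℚ), (p : ℚ) ^ (n + 1))) := by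
    have h4 := dvd_sub h2 h1
    have h5 : cp * (K ((a' : ℚ), (p : ℚ) ^ (n + 1)) - K ((a : ℚ), (p : ℚ) ^ (n + 1))) =
        cp * K ((a' : ℚ), (p : ℚ) ^ (n + 1)) - K ((a : ℚ), (p : ℚ) ^ n) -
        (cp * K ((a : ℚ), (p : ℚ) ^ (n + 1)) - K ((a : ℚ), (p : ℚ) ^ n)) := by ring
    rw [h5]
    exact h4
  exact (hpp.dvd_or_dvd h3).resolve_left hcp

include hK hp in
lemma zero_val {cp : ℤ} (hcp : (p : ℤ) ∣ cp) (hT : KHecke K p cp) {n : ℕ}
    (hn : Const p K (n + 1)) {a : ℤ} (ha : ¬ (p : ℤ) ∣ a) :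
    (p : ℤ) ∣ K ((a : ℚ), (p : ℚ) ^ n) := by
  have h1 := step hK hp hT hn ha
  have h2 : (p : ℤ) ∣ cp * K ((a : ℚ), (p : ℚ) ^ (n + 1)) := hcp.mul_right _
  have h3 := dvd_sub h2 h1
  rwa [sub_sub_cancel] at h3

include hK hp in
lemma const_down2 {cp : ℤ} (hcp : (p : ℤ) ∣ cp) (hT : KHecke K p cp) {n : ℕ}
    (hn : Const p K (n + 2)) : Const p K n := fun _ _ ha ha' _ =>
  dvd_sub (zero_val hK hp hcp hT hn ha') (zero_val hK hp hcp hT hn ha)

/-- the reduction modulo `p` -/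
def red (p : ℕ) (K : ℚ × ℚ → ℤ) (z : ℚ × ℚ) : ZMod p := ((K z : ℤ) : ZMod p)

include hK in
lemma red_sym [Fact p.Prime] : IsSym N (red p K) where
  hom t x y ht := by
    unfold red
    rw [hK.hom t x y ht]
  inf := by
    unfold red
    rw [hK.inf, Int.cast_zero]
  inv a b c d hdet hc := by
    obtain ⟨w, hw⟩ := hK.inv a b c d hdet hc
    refine ⟨((D * w : ℤ) : ZMod p), fun x y hxy => ?_⟩
    unfold red
    rw [hw x y hxy]
    push_cast
    rfl

lemma red_hecke [Fact p.Prime] {l : ℕ} {a : ℤ} (hT : KHecke K l a) :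
    IsHecke (red p K) l (a : ZMod p) := by
  intro x y _
  have h1 := congrArg (fun n : ℤ => (n : ZMod p)) (hT x y)
  unfold red
  push_cast at h1
  exact h1

lemma red_zero [Fact p.Prime] (z : ℚ × ℚ) : red p K z = 0 ↔ (p : ℤ) ∣ K z := by
  unfold red
  exact ZMod.intCast_zmod_eq_zero_iff_dvd _ _

/-- the auxiliary primes -/
def IsAux (N p : ℕ) (K : ℚ × ℚ → ℤ) (q : ℕ) : Prop :=
  q.Prime ∧ q ≠ p ∧ (N : ℤ) ∣ q - 1 ∧ ¬ q ∣ N ∧
    ∃ cq : ℤ, KHecke K q cq ∧ ¬ (p : ℤ) ∣ cq - (q + 1)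

include hK in
/-- **the main theorem on symbols**: the values at `a / p^n` are not constant modulo `p` -/
theorem not_const [hpf : Fact p.Prime] (hpN : ¬ p ∣ N) (hD : ¬ (p : ℤ) ∣ D) {cp : ℤ}
    (hT : KHecke K p cp) (hcase : (p : ℤ) ∣ cp ∨ ∃ q q', q ≠ q' ∧ IsAux N p K q ∧ IsAux N p K q') :
    ∃ n₀, ∀ n ≥ n₀, ¬ Const p K n := by
  have hp := hpf.out
  have hsym := red_sym (p := p) hK
  have hTp := red_hecke (p := p) hT
  -- the periods do not vanish
  have hne : ¬ ∀ a b c d : ℤ, a * d - b * c = 1 → (N : ℤ) ∣ c → red p K ((a : ℚ), (c : ℚ)) = 0 := by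
    intro h
    obtain ⟨a, b, c, d, hdet, hc, hval⟩ := hK.att
    have h1 := h a b c d hdet hc
    rw [red_zero, hval] at h1
    exact hD h1
  by_contra hcon
  push Not at hcon
  apply hne
  by_cases hcp : (p : ℤ) ∣ cp
  · -- supersingular
    have hα : ((cp : ℤ) : ZMod p) = 0 := (ZMod.intCast_zmod_eq_zero_iff_dvd _ _).2 hcp
    rw [hα] at hTp
    have hdown : ∀ n k, Const p K (n + 2 * k) → Const p K n := by
      intro n k
      induction k with
      | zero => exact fun h => h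
      | succ k ih =>
        intro h
        exact ih (const_down2 hK hp hcp hT h)
    by_cases hodd : ∀ n₀, ∃ n ≥ n₀, Odd n ∧ Const p K n
    · refine zero_of_even hsym hp hpN hTp fun a n ha hn => ?_
      rw [red_zero]
      obtain ⟨m, hm, hmo, hmc⟩ := hodd (n + 1)
      obtain ⟨j, hj⟩ := Nat.exists_eq_add_of_le hm
      have hjev : Even j := by
        have h1 : Odd (n + 1 + j) := by rw [← hj]; exact hmo
        have h2 : Odd (n + 1) := hn.add_one
        rw [Nat.odd_add] at h1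
        exact h1.1 h2
      obtain ⟨k, hk⟩ := hjev
      have h1 : Const p K (n + 1) := by
        refine hdown (n + 1) k ?_
        have : n + 1 + 2 * k = m := by omega
        rw [this]
        exact hmc
      exact zero_val hK hp hcp hT h1 ha
    · push Not at hodd
      obtain ⟨n₁, hn₁⟩ := hodd
      refine zero_of_odd hsym hp hpN hTp fun a n ha hn => ?_
      rw [red_zero]
      obtain ⟨m, hm, hmc⟩ := hcon (max n₁ (n + 1))
      have hme : ¬ Odd m := fun h => hn₁ m (le_of_max_le_left hm) h hmc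
      rw [Nat.not_odd_iff_even] at hme
      obtain ⟨j, hj⟩ := Nat.exists_eq_add_of_le (le_of_max_le_right hm)
      have hjev : Even j := by
        have h1 : Even (n + 1 + j) := by rw [← hj]; exact hme
        have h2 : Even (n + 1) := hn.add_one
        rw [Nat.even_add] at h1
        exact h1.1 h2
      obtain ⟨k, hk⟩ := hjev
      have h1 : Const p K (n + 1) := by
        refine hdown (n + 1) k ?_
        have : n + 1 + 2 * k = m := by omega
        rw [this]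
        exact hmc
      exact zero_val hK hp hcp hT h1 ha
  · -- ordinary
    obtain ⟨q, q', hqq, ⟨hq, hqp, hq1, hqN, cq, hTq, hcq⟩, ⟨hq', hqp', hq1', hqN', cq', hTq', hcq'⟩⟩ :=
      hcase.resolve_left hcp
    have hα : ((cp : ℤ) : ZMod p) ≠ 0 := fun h =>
      hcp ((ZMod.intCast_zmod_eq_zero_iff_dvd _ _).1 h)
    have hall : ∀ n, Const p K n := by
      intro n
      obtain ⟨m, hm, hmc⟩ := hcon n
      obtain ⟨j, rfl⟩ := Nat.exists_eq_add_of_le hm
      clear hm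
      induction j with
      | zero => exact hmc
      | succ j ih => exact ih (const_down hK hp hcp hT hmc)
    have hne' : ∀ (cq : ℤ) (q : ℕ), ¬ (p : ℤ) ∣ cq - (q + 1) → ((cq : ℤ) : ZMod p) ≠ q + 1 := by
      intro cq q h h1
      apply h
      rw [← ZMod.intCast_zmod_eq_zero_iff_dvd]
      push_cast
      rw [h1, sub_self]
    refine zero_of_ordinary hsym hp hpN hα hTp (fun a n ha => ?_) hq hq' hqq hqN hqN' hq1 hq1'
      hqp hqp' (red_hecke hTq) (red_hecke hTq') (hne' _ _ hcq) (hne' _ _ hcq')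
    have h1 := step hK hp hT (hall (n + 1)) ha
    rw [← ZMod.intCast_zmod_eq_zero_iff_dvd] at h1
    push_cast at h1
    unfold red
    exact sub_eq_zero.1 h1

end

end Pool.Agent.H503.MU
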