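import Pool.Agent.H503.MU.CL

/-!
# Hecke operators kill the periods
-/

set_option autoImplicit false
set_option linter.unusedSectionVars false

open Matrix MatrixGroups CongruenceSubgroup

namespace Pool.Agent.H503.MU

variable {F : Type*} [Field F]

/-- words in integral letters -/
def evZ (B : ℤ) (w : List (Bool × ℤ)) : SL(2, ℤ) := (w.map fun l => letterZ l.1 (B * l.2)).prod

lemma evZ_cons (B : ℤ) (l : Bool × ℤ) (w : List (Bool × ℤ)) :
    evZ B (l :: w) = letterZ l.1 (B * l.2) * evZ B w := by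
  simp [evZ]

lemma toQ_evZ (B : ℤ) (w : List (Bool × ℤ)) :
    toQ (evZ B w) = ev (fun b n => letter b ((B * n : ℤ) : ℚ)) w := by
  induction w with
  | nil => simp [evZ, ev]
  | cons l w ih => rw [evZ_cons, ev_cons, map_mul, ih, toQ_letterZ]

lemma toQ_injective : Function.Injective toQ := by
  intro a b h
  ext i j
  have h1 : toQ a i j = toQ b i j := by rw [h]
  exact Int.cast_injective (α := ℚ) h1

lemma evZ_congr {N : ℕ} {A B : ℤ} (h : (N : ℤ) ∣ A - B) (w : List (Bool × ℤ)) :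
    SpecialLinearGroup.map (Int.castRingHom (ZMod N)) (evZ A w) =
      SpecialLinearGroup.map (Int.castRingHom (ZMod N)) (evZ B w) := by
  have hAB : (A : ZMod N) = (B : ZMod N) := by
    have := (ZMod.intCast_zmod_eq_zero_iff_dvd (A - B) N).2 h
    push_cast at this
    exact sub_eq_zero.1 this
  induction w with
  | nil => rfl
  | cons l w ih =>
    rw [evZ_cons, evZ_cons, map_mul, map_mul, ih]
    congr 1
    ext i j
    change ((letterZ l.1 (A * l.2) i j : ℤ) : ZMod N) = ((letterZ l.1 (B * l.2) i j : ℤ) : ZMod N)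
    cases l.1 <;> fin_cases i <;> fin_cases j <;> simp [letterZ, hAB]

lemma evZ_entry {N : ℕ} {A B : ℤ} (h : (N : ℤ) ∣ A - B) (w : List (Bool × ℤ))
    (hc : (N : ℤ) ∣ evZ B w 1 0) : (N : ℤ) ∣ evZ A w 1 0 := by
  have h1 : SpecialLinearGroup.map (Int.castRingHom (ZMod N)) (evZ A w) 1 0 =
      SpecialLinearGroup.map (Int.castRingHom (ZMod N)) (evZ B w) 1 0 := by
    rw [evZ_congr h w]
  change ((evZ A w 1 0 : ℤ) : ZMod N) = ((evZ B w 1 0 : ℤ) : ZMod N) at h1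
  rw [(ZMod.intCast_zmod_eq_zero_iff_dvd _ N).2 hc] at h1
  exact (ZMod.intCast_zmod_eq_zero_iff_dvd _ N).1 h1

lemma evZ_zero_entry {N : ℕ} {A : ℤ} (h : (N : ℤ) ∣ A) (w : List (Bool × ℤ)) :
    (N : ℤ) ∣ evZ A w 1 0 := by
  refine evZ_entry (B := 0) (by simpa using h) w ?_
  have h1 : evZ 0 w = 1 := by
    induction w with
    | nil => rfl
    | cons l w ih =>
      rw [evZ_cons, ih, mul_one, zero_mul]
      cases l.1 <;> (ext i j; fin_cases i <;> fin_cases j <;> rfl)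
  rw [h1]
  simp

/-- the letters conjugated by a diagonal matrix -/
def phi (q : ℚ) (B : ℤ) (b : Bool) (n : ℤ) : SL(2, ℚ) :=
  if b then up (q⁻¹ * (B * n : ℤ)) else lo (q * (B * n : ℤ))

lemma semi {q : ℚ} (hq : q ≠ 0) (B : ℤ) (w : List (Bool × ℤ)) (z : ℚ × ℚ) :
    ((act (toQ (evZ B w)) z).1, q * (act (toQ (evZ B w)) z).2) =
      act (ev (phi q B) w) (z.1, q * z.2) := by
  induction w with
  | nil => simp [evZ, ev, act_one]
  | cons l w ih =>
    rw [evZ_cons, ev_cons, map_mul, act_mul, act_mul, ← ih, toQ_letterZ]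
    unfold phi letter
    cases l.1
    · simp only [Bool.false_eq_true, if_false, act_lo]
      ext
      · simp
      · simp
        ring
    · simp only [if_true, act_up]
      ext
      · simp
        field_simp
      · simp

section
variable {N : ℕ} {Ψ : ℚ × ℚ → F} (hΨ : IsSym N Ψ)
variable {p : ℕ} (hp : p.Prime) (hpN : ¬ p ∣ N) [CharP F p]
variable {α : F} (hα2 : α ^ 2 = 1) (hS : IsScaled Ψ p α)

include hΨ hp hpN hα2 hS in
/-- the conjugated word is equivalent to the word -/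
lemma phi_rel {q : ℕ} (hq : q.Prime) (hqN : ¬ q ∣ N) (hq1 : (N : ℤ) ∣ q - 1) (hqp : q ≠ p) {B : ℤ}
    (hB : (q : ℤ) ^ 2 ∣ B) {r0 : ℤ} {x : ℚ} (hx : (q : ℚ) * x = N * r0) (w : List (Bool × ℤ)) :
    Rel Ψ (up x * ev (phi q B) w * (up x)⁻¹) (toQ (evZ B w)) := by
  have hq0 : (q : ℚ) ≠ 0 := by exact_mod_cast hq.ne_zero
  obtain ⟨m, hm⟩ := hq1
  obtain ⟨B', rfl⟩ := hB
  have hmq : (q : ℚ) - 1 = N * m := by exact_mod_cast congrArg (fun n : ℤ => (n : ℚ)) hm
  rw [ev_conj, toQ_evZ]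
  refine ev_rel (fun b n => ⟨_, toQ_letterZ b _⟩) (fun b n => ?_) w
  cases b
  · -- lower triangular
    have h1 := comm_rel hΨ hp hpN hα2 hS hq hqN hqp (r0 := r0) (s0 := q * B' * n) (r := x) hx
    have h2 : lo ((q ^ 2 * (q * B' * n) : ℤ) : ℚ) = phi q (q ^ 2 * B') false n := by
      unfold phi
      simp only [Bool.false_eq_true, if_false]
      congr 1
      push_cast
      ring
    rw [h2] at h1
    refine h1.trans ?_
    unfold Rel phi letter
    simp only [Bool.false_eq_true, if_false]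
    rw [← lo_neg, ← lo_add]
    refine lo_mem hΨ hp hpN hα2 hS (m := 0) (n := m * (q ^ 2 * B' * n)) ?_
    push_cast
    linear_combination ((q : ℚ) ^ 2 * B' * n) * hmq
  · -- upper triangular
    unfold Rel phi letter
    simp only [if_true]
    rw [← up_neg, ← up_neg, ← up_add, ← up_add, ← up_add]
    refine up_mem hΨ hp hpN hα2 hS (m := 0) (n := -(m * (q * B' * n))) ?_
    push_cast
    field_simp
    linear_combination (-((q : ℚ) * B' * n)) * hmq

include hΨ hp hpN hα2 hS in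
/-- the conjugated word is equivalent to the word, inverse diagonal matrix -/
lemma phi_rel' {q : ℕ} (hq : q.Prime) (hq1 : (N : ℤ) ∣ q - 1) {B : ℤ}
    (hB : (q : ℤ) ^ 2 ∣ B) (w : List (Bool × ℤ)) :
    Rel Ψ (ev (phi (q : ℚ)⁻¹ B) w) (toQ (evZ B w)) := by
  have hq0 : (q : ℚ) ≠ 0 := by exact_mod_cast hq.ne_zero
  obtain ⟨m, hm⟩ := hq1
  obtain ⟨B', rfl⟩ := hB
  have hmq : (q : ℚ) - 1 = N * m := by exact_mod_cast congrArg (fun n : ℤ => (n : ℚ)) hm
  rw [toQ_evZ]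
  refine ev_rel (fun b n => ⟨_, toQ_letterZ b _⟩) (fun b n => ?_) w
  cases b
  · unfold Rel phi letter
    simp only [Bool.false_eq_true, if_false]
    rw [← lo_neg, ← lo_add]
    refine lo_mem hΨ hp hpN hα2 hS (m := 0) (n := -(m * (q * B' * n))) ?_
    push_cast
    field_simp
    linear_combination (-((B' : ℚ) * n)) * hmq
  · unfold Rel phi letter
    simp only [if_true, inv_inv]
    rw [← up_neg, ← up_add]
    refine up_mem hΨ hp hpN hα2 hS (m := 0) (n := m * (q ^ 2 * B' * n)) ?_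
    push_cast
    linear_combination ((q : ℚ) ^ 2 * B' * n) * hmq

include hΨ hp hpN hα2 hS in
/-- **the Hecke lemma** -/
theorem hecke_word {q : ℕ} (hq : q.Prime) (hqN : ¬ q ∣ N) (hq1 : (N : ℤ) ∣ q - 1) (hqp : q ≠ p)
    {aq : F} (hT : IsHecke Ψ q aq) (haq : aq ≠ q + 1) {B : ℤ}
    (hB : (q : ℤ) ^ 2 ∣ B) (w : List (Bool × ℤ)) (hc : (N : ℤ) ∣ evZ B w 1 0) :
    toQ (evZ B w) ∈ Z Ψ := by
  have hq0 : (q : ℚ) ≠ 0 := by exact_mod_cast hq.ne_zero
  set γ := evZ B w with hγ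
  set v : F := Ψ (((γ 0 0 : ℤ) : ℚ), ((γ 1 0 : ℤ) : ℚ)) with hv
  have hval : ∀ z : ℚ × ℚ, z ≠ 0 → Ψ (act (toQ γ) z) = Ψ z + v := by
    intro z hz
    have := sym_inv hΨ (detZ γ) hc (x := z.1) (y := z.2) hz
    rw [act_toQ, this]
  have hz : ((1, 0) : ℚ × ℚ) ≠ 0 := by simp
  set z : ℚ × ℚ := (1, 0) with hzdef
  set u : ℚ × ℚ := act (toQ γ) z with hu
  have hu0 : u ≠ 0 := act_ne _ hz
  have hT1 := hT u.1 u.2 hu0
  have hT2 := hT z.1 z.2 hz
  -- the first term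
  have h1 : Ψ (q * u.1, u.2) = Ψ (q * z.1, z.2) + v := by
    have h2 : Ψ (q * u.1, u.2) = Ψ (u.1, (q : ℚ)⁻¹ * u.2) := by
      rw [← hΨ.hom q u.1 _ hq0]
      congr 2
      field_simp
    have h3 : Ψ (q * z.1, z.2) = Ψ (z.1, (q : ℚ)⁻¹ * z.2) := by
      rw [← hΨ.hom q z.1 _ hq0]
      congr 2
      field_simp
    have hz' : ((z.1, (q : ℚ)⁻¹ * z.2) : ℚ × ℚ) ≠ 0 := by
      rw [hzdef]
      simp
    rw [h2, h3, hu, hγ, semi (inv_ne_zero hq0) B w z,
      (phi_rel' hΨ hp hpN hα2 hS hq hq1 hB w).val hz', ← hγ, hval _ hz']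
  -- the other terms
  have h2 : ∀ i : ℕ, Ψ (u.1 + i * u.2, q * u.2) = Ψ (z.1 + i * z.2, q * z.2) + v := by
    intro i
    obtain ⟨m, hm⟩ := hq1
    have hmq : (q : ℚ) - 1 = N * m := by exact_mod_cast congrArg (fun n : ℤ => (n : ℚ)) hm
    set x : ℚ := -(i * (q - 1)) / q with hx
    have hqx : (q : ℚ) * x = N * ((-(i * m) : ℤ) : ℚ) := by
      rw [hx]
      push_cast
      field_simp
      linear_combination (-(i : ℚ)) * hmq
    have h3 : ∀ t : ℚ × ℚ, Ψ (t.1 + i * t.2, q * t.2) = Ψ (act (up x) (t.1, q * t.2)) := by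
      intro t
      have h4 := sym_T hΨ (-i) (t.1 + i * t.2) (q * t.2)
      rw [← h4, act_up, hx]
      congr 2
      push_cast
      field_simp
      ring
    have hz' : ((z.1, (q : ℚ) * z.2) : ℚ × ℚ) ≠ 0 := by
      rw [hzdef]
      simp
    have hz'' : act (up x) (z.1, (q : ℚ) * z.2) ≠ 0 := act_ne _ hz'
    rw [h3 u, h3 z, hu, hγ, semi hq0 B w z]
    have h5 : act (up x) (act (ev (phi q B) w) (z.1, (q : ℚ) * z.2)) =
        act (up x * ev (phi q B) w * (up x)⁻¹) (act (up x) (z.1, (q : ℚ) * z.2)) := by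
      rw [act_mul, act_mul, act_inv_act]
    rw [h5, (phi_rel hΨ hp hpN hα2 hS hq hqN ⟨m, hm⟩ hqp hB hqx w).val hz'', ← hγ, hval _ hz'']
  rw [h1, Finset.sum_congr rfl (fun i _ => h2 i), Finset.sum_add_distrib, Finset.sum_const,
    Finset.card_range, nsmul_eq_mul, hval z hz] at hT1
  have hv0 : v = 0 := by
    have h3 : (aq - (q + 1)) * v = 0 := by
      linear_combination hT2 - hT1
    exact (mul_eq_zero.1 h3).resolve_left (sub_ne_zero.2 haq)
  intro z hz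
  rw [hval z hz, hv0, add_zero]

/-- the Chinese remainder theorem -/
lemma exists_A {N q q' : ℕ} (hq : q.Prime) (hq' : q'.Prime) (hne : q ≠ q') (hqN : ¬ q ∣ N) :
    ∃ A : ℤ, (q : ℤ) ^ 2 ∣ 1 - A ∧ (N : ℤ) ∣ A ∧ (q' : ℤ) ^ 2 ∣ A := by
  have h1 : Nat.Coprime (q ^ 2) (N * q' ^ 2) := by
    refine Nat.Coprime.mul_right ?_ ?_
    · exact Nat.Coprime.pow_left 2 ((Nat.Prime.coprime_iff_not_dvd hq).2 hqN)
    · exact Nat.Coprime.pow _ _ ((Nat.coprime_primes hq hq').2 hne)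
  have h2 : IsCoprime ((q : ℤ) ^ 2) (N * (q' : ℤ) ^ 2) := by
    have := Nat.isCoprime_iff_coprime.2 h1
    push_cast at this
    exact this
  obtain ⟨a, b, hab⟩ := h2
  refine ⟨b * (N * (q' : ℤ) ^ 2), ⟨a, by linear_combination -hab⟩, ⟨b * q' ^ 2, by ring⟩,
    ⟨b * N, by ring⟩⟩

include hΨ hp hpN hα2 hS in
/-- **all periods vanish** -/
theorem sym_zero {q q' : ℕ} (hq : q.Prime) (hq' : q'.Prime) (hne : q ≠ q')
    (hqN : ¬ q ∣ N) (hqN' : ¬ q' ∣ N) (hq1 : (N : ℤ) ∣ q - 1) (hq1' : (N : ℤ) ∣ q' - 1)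
    (hqp : q ≠ p) (hqp' : q' ≠ p) {aq aq' : F} (hT : IsHecke Ψ q aq) (hT' : IsHecke Ψ q' aq')
    (haq : aq ≠ q + 1) (haq' : aq' ≠ q' + 1) :
    ∀ a b c d : ℤ, a * d - b * c = 1 → (N : ℤ) ∣ c → Ψ (a, c) = 0 := by
  intro a b c d hdet hc
  let γ : SL(2, ℤ) := ⟨!![a, b; c, d], by rw [Matrix.det_fin_two_of]; exact hdet⟩
  obtain ⟨w, hw⟩ := exists_word γ
  have hγ : γ = evZ 1 w := by
    apply toQ_injective
    rw [hw, toQ_evZ]
    simp only [one_mul]
  obtain ⟨A, hA1, hA2, hA3⟩ := exists_A hq hq' hne hqN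
  have hcw : (N : ℤ) ∣ evZ 1 w 1 0 := by
    rw [← hγ]
    exact hc
  -- the two words
  have hWA : toQ (evZ A w) ∈ Z Ψ := hecke_word hΨ hp hpN hα2 hS hq' hqN' hq1' hqp' hT' haq' hA3 w
    (evZ_zero_entry hA2 w)
  have hWB : toQ (evZ (1 - A) w) ∈ Z Ψ := hecke_word hΨ hp hpN hα2 hS hq hqN hq1 hqp hT haq hA1 w
    (evZ_entry (B := 1) (by
      have : (1 - A) - 1 = -A := by ring
      rw [this]
      exact (dvd_neg).2 hA2) w hcw)
  -- the splitting
  have hsplit : Rel Ψ (toQ γ) (toQ (evZ A w) * toQ (evZ (1 - A) w)) := by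
    rw [toQ_evZ, toQ_evZ]
    have h1 : toQ γ = ev (fun b n => letter b ((A * n : ℤ) : ℚ) * letter b (((1 - A) * n : ℤ) : ℚ)) w := by
      rw [hw]
      congr 1
      ext b n : 2
      rw [← letter_add]
      congr 1
      push_cast
      ring
    rw [h1]
    refine ev_split (fun b n => ⟨_, toQ_letterZ b _⟩) (fun b n => ⟨_, toQ_letterZ b _⟩) ?_ w
    intro b n b' n'
    obtain ⟨B', hB'⟩ := hA1
    obtain ⟨A', hA'⟩ := hA2
    have hq0 : (q : ℚ) ≠ 0 := by exact_mod_cast hq.ne_zero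
    have hBn : (1 - A) * n = q ^ 2 * (B' * n) := by rw [hB']; ring
    have hr : (q : ℚ) * ((A * n' : ℤ) : ℚ) = N * ((A' * n' * q : ℤ) : ℚ) := by
      rw [hA']
      push_cast
      ring
    have hAp : Rel Ψ (letter b' ((A * n' : ℤ) : ℚ)) (letter b' ((A * n' : ℤ) : ℚ)) := Rel.refl _ _
    by_cases hbb : b = b'
    · subst hbb
      have : letter b (((1 - A) * n : ℤ) : ℚ) * letter b ((A * n' : ℤ) : ℚ) *
          (letter b (((1 - A) * n : ℤ) : ℚ))⁻¹ = letter b ((A * n' : ℤ) : ℚ) := by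
        rw [← letter_neg, ← letter_add, ← letter_add]
        congr 1
        ring
      rw [this]
      exact Rel.refl _ _
    · cases b <;> cases b'
      · exact absurd rfl hbb
      · -- `lo (B n)`, `up (A n')`
        have h2 := comm_rel hΨ hp hpN hα2 hS hq hqN hqp (s0 := B' * n) hr
        rw [← hBn] at h2
        have h3 := inv_mem (show _ ∈ Z0 Ψ from h2)
        unfold Rel letter
        simp only [Bool.false_eq_true, if_false, if_true]
        convert h3 using 1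
        group
      · have h2 := comm_rel' hΨ hp hpN hα2 hS hq hqN hqp (s0 := B' * n) hr
        rw [← hBn] at h2
        have h3 := inv_mem (show _ ∈ Z0 Ψ from h2)
        unfold Rel letter
        simp only [Bool.false_eq_true, if_false, if_true]
        convert h3 using 1
        group
      · exact absurd rfl hbb
  have hZ := mul_mem (Z0_le Ψ hsplit) (mul_mem hWA hWB)
  rw [inv_mul_cancel_right] at hZ
  have h1 := hZ (1, 0) (by simp)
  rw [act_toQ] at h1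
  have e00 : γ 0 0 = a := rfl
  have e10 : γ 1 0 = c := rfl
  rw [e00, e10, hΨ.inf] at h1
  simpa using h1

end

section
variable {N : ℕ} {Ψ : ℚ × ℚ → F} (hΨ : IsSym N Ψ)
variable {p : ℕ} (hp : p.Prime) (hpN : ¬ p ∣ N) [CharP F p]
variable {α : F}

include hΨ hp hpN in
/-- **the ordinary case** -/
theorem zero_of_ordinary (hα : α ≠ 0) (hTp : IsHecke Ψ p α)
    (hm : ∀ (a : ℤ) (n : ℕ), ¬ (p : ℤ) ∣ a → α * Ψ ((a : ℚ), (p : ℚ) ^ (n + 1)) =
    Ψ ((a : ℚ), (p : ℚ) ^ n)) {q q' : ℕ} (hq : q.Prime) (hq' : q'.Prime) (hne : q ≠ q')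
    (hqN : ¬ q ∣ N) (hqN' : ¬ q' ∣ N) (hq1 : (N : ℤ) ∣ q - 1) (hq1' : (N : ℤ) ∣ q' - 1)
    (hqp : q ≠ p) (hqp' : q' ≠ p) {aq aq' : F} (hT : IsHecke Ψ q aq) (hT' : IsHecke Ψ q' aq')
    (haq : aq ≠ q + 1) (haq' : aq' ≠ q' + 1) :
    ∀ a b c d : ℤ, a * d - b * c = 1 → (N : ℤ) ∣ c → Ψ (a, c) = 0 := by
  by_cases hα2 : α ^ 2 = 1
  · exact sym_zero hΨ hp hpN hα2 (scaled_of_ord hΨ hp hpN hα hTp hm hα2) hq hq' hne hqN hqN' hq1
      hq1' hqp hqp' hT hT' haq haq'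
  · exact zero_of_ord hΨ hp hpN hα hTp hm hα2

end

end Pool.Agent.H503.MU
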