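import Pool.Agent.H503.MU.Inv

/-!
# The commutator lemma
-/

set_option autoImplicit false
set_option linter.unusedSectionVars false

open Matrix MatrixGroups CongruenceSubgroup

namespace Pool.Agent.H503.MU

variable {F : Type*} [Field F]

lemma lo_eq_toQ (a : ℤ) : lo a = toQ (letterZ false a) := by
  rw [toQ_letterZ]
  rfl

lemma up_eq_toQ (a : ℤ) : up a = toQ (letterZ true a) := by
  rw [toQ_letterZ]
  rfl

section
variable {N : ℕ} {Ψ : ℚ × ℚ → F} (hΨ : IsSym N Ψ)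
variable {p : ℕ} (hp : p.Prime) (hpN : ¬ p ∣ N) [CharP F p]
variable {α : F} (hα2 : α ^ 2 = 1) (hS : IsScaled Ψ p α)

/-- changing the upper parameter -/
lemma comm_shift_up {r a : ℚ} {s : ℤ} (ha : up a ∈ Z0 Ψ) (h : up r * lo s * (up r)⁻¹ * (lo s)⁻¹ ∈ Z0 Ψ) :
    up (r + a) * lo s * (up (r + a))⁻¹ * (lo s)⁻¹ ∈ Z0 Ψ := by
  have h1 := Z0_conj (inv_mem ha) (letterZ false s)
  rw [← lo_eq_toQ] at h1
  have h2 := mul_mem (mul_mem ha h) h1
  rw [add_comm r a, up_add]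
  convert h2 using 1
  group

/-- changing the lower parameter -/
lemma comm_shift_lo {r : ℚ} {s b : ℤ} (hb : lo b ∈ Z0 Ψ) (hP : up r * lo b * (up r)⁻¹ ∈ Z0 Ψ)
    (h : up r * lo s * (up r)⁻¹ * (lo s)⁻¹ ∈ Z0 Ψ) :
    up r * lo ((s + b : ℤ) : ℚ) * (up r)⁻¹ * (lo ((s + b : ℤ) : ℚ))⁻¹ ∈ Z0 Ψ := by
  have h2 := mul_mem (mul_mem hP h) (inv_mem hb)
  have h3 : lo ((s + b : ℤ) : ℚ) = lo b * lo s := by
    push_cast
    rw [add_comm (s : ℚ), lo_add]
  rw [h3]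
  convert h2 using 1
  group

include hΨ in
/-- conjugates of lower triangular matrices -/
lemma conj_lo_mem {q : ℕ} (hq0 : q ≠ 0) (m n t : ℤ) {r : ℚ} (hr : (q : ℚ) * r = N * m)
    (hn : n = N * q ^ 2 * t) : up r * lo n * (up r)⁻¹ ∈ Z0 Ψ := by
  have hq : (q : ℚ) ≠ 0 := by exact_mod_cast hq0
  have hr' : r = N * m / q := by
    rw [← hr]
    field_simp
  let x : SL(2, ℤ) := ⟨!![1 + N ^ 2 * m * q * t, -(N ^ 3 * m ^ 2 * t); N * q ^ 2 * t,
    1 - N ^ 2 * m * q * t], by rw [Matrix.det_fin_two_of]; ring⟩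
  have hx : toQ x = up r * lo n * (up r)⁻¹ := by
    rw [eq_mul_inv_iff_mul_eq]
    have e00 : x 0 0 = 1 + N ^ 2 * m * q * t := rfl
    have e01 : x 0 1 = -(N ^ 3 * m ^ 2 * t) := rfl
    have e10 : x 1 0 = N * q ^ 2 * t := rfl
    have e11 : x 1 1 = 1 - N ^ 2 * m * q * t := rfl
    apply ext_act
    · rw [act_mul, act_mul, act_up, act_toQ, act_lo, act_up, e00, e01, e10, e11, hr', hn]
      push_cast
      ext
      · simp only
        field_simp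
        ring
      · simp only
        field_simp
        ring
    · rw [act_mul, act_mul, act_up, act_toQ, act_lo, act_up, e00, e01, e10, e11, hr', hn]
      push_cast
      ext
      · simp only
        field_simp
        ring
      · simp only
        field_simp
        ring
  rw [← hx]
  have hz : act (up r) (0, 1) ≠ 0 := act_ne _ (by simp)
  refine int_mem hΨ (x := x) ⟨N * m * q * t, by change 1 + N ^ 2 * m * q * t - 1 = _; ring⟩
    ⟨-(N ^ 2 * m ^ 2 * t), by change -(N ^ 3 * m ^ 2 * t) = _; ring⟩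
    ⟨q ^ 2 * t, by change N * q ^ 2 * t = _; ring⟩
    ⟨-(N * m * q * t), by change 1 - N ^ 2 * m * q * t - 1 = _; ring⟩ hz ?_
  rw [hx, act_mul, act_mul, act_inv_act]
  congr 1
  rw [act_lo]
  simp

/-- the factorization -/
lemma comm_factor {r s u : ℚ} (hu : u ≠ 0) (h : 1 + r * s = u) :
    up r * lo s * (up r)⁻¹ * (lo s)⁻¹ =
      lo s * (lo (-(s * (u - 1) / u)) * dg u hu * up (-(r * (u - 1) / u))) * (lo s)⁻¹ := by
  rw [mul_left_inj, mul_inv_eq_iff_eq_mul]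
  apply ext_act
  · simp only [act_mul, act_up, act_lo, act_dg]
    ext
    · simp only
      field_simp
      linear_combination h
    · simp only
      field_simp
      ring
  · simp only [act_mul, act_up, act_lo, act_dg]
    ext
    · simp only
      field_simp
      ring
    · simp only
      field_simp
      linear_combination (-1 : ℚ) * h

include hΨ hp hpN hα2 hS in
/-- the commutator lemma, first form -/
theorem comm_mem' {q : ℕ} (hq : q.Prime) (hqN : ¬ q ∣ N) (hqp : q ≠ p) {r0 s0 : ℤ}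
    (hr0 : ¬ (p : ℤ) ∣ r0) {r : ℚ} (hr : (q : ℚ) * r = N * r0) :
    up r * lo ((q ^ 2 * s0 : ℤ) : ℚ) * (up r)⁻¹ * (lo ((q ^ 2 * s0 : ℤ) : ℚ))⁻¹ ∈ Z0 Ψ := by
  have hpp : Prime (p : ℤ) := Nat.prime_iff_prime_int.1 hp
  have hp0 : (p : ℚ) ≠ 0 := by exact_mod_cast hp.ne_zero
  have hq0 : (q : ℚ) ≠ 0 := by exact_mod_cast hq.ne_zero
  have hN0 : N ≠ 0 := by
    rintro rfl
    exact hpN (dvd_zero _)
  have hr0' : r0 ≠ 0 := by
    rintro rfl
    exact hr0 (dvd_zero _)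
  have hr' : r = N * r0 / q := by
    rw [← hr]
    field_simp
  -- the sign
  obtain ⟨ε, hε, hεr⟩ : ∃ ε : ℤ, ε * ε = 1 ∧ (r0.natAbs : ℤ) = ε * r0 := by
    rcases le_or_gt 0 r0 with h | h
    · exact ⟨1, by ring, by rw [Int.natAbs_of_nonneg h, one_mul]⟩
    · exact ⟨-1, by ring, by rw [Int.ofNat_natAbs_of_nonpos h.le]; ring⟩
  have hcop : p.Coprime (N * r0.natAbs * q) := by
    rw [hp.coprime_iff_not_dvd]
    intro h
    rcases (hp.dvd_mul).1 h with h | h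
    · rcases (hp.dvd_mul).1 h with h | h
      · exact hpN h
      · exact hr0 (Int.natCast_dvd.2 h)
    · exact hqp ((Nat.prime_dvd_prime_iff_eq hp hq).1 h).symm
  have hRpos : 0 < N * r0.natAbs * q :=
    Nat.mul_pos (Nat.mul_pos (Nat.pos_of_ne_zero hN0) (Int.natAbs_pos.2 hr0')) hq.pos
  obtain ⟨Ω, hΩ, hall⟩ := exists_pow hp hq hqN (R := N * r0.natAbs * q)
    ⟨r0.natAbs * q, by ring⟩ hRpos hcop
  obtain ⟨k, t', hkt, hts⟩ := hall (ε * s0)
  set t : ℤ := ε * t' with ht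
  have hk1 : (p : ℤ) ^ k - 1 = N * r0 * q * Ω * t := by
    rw [hkt, ht, Nat.cast_mul, Nat.cast_mul, hεr]
    ring
  have ht0 : (N : ℤ) ∣ t - s0 := by
    have : t - s0 = ε * (t' - ε * s0) := by
      rw [ht]
      linear_combination s0 * hε
    rw [this]
    exact hts.mul_left _
  have hk1q : (p : ℚ) ^ k - 1 = N * r0 * q * Ω * t := by
    exact_mod_cast congrArg (fun n : ℤ => (n : ℚ)) hk1
  obtain ⟨ω, hω⟩ := hΩ
  obtain ⟨τ, hτ⟩ := ht0
  have hωq : (Ω : ℚ) - 1 = q * ω := by exact_mod_cast congrArg (fun n : ℤ => (n : ℚ)) hω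
  have hτq : (t : ℚ) - s0 = N * τ := by exact_mod_cast congrArg (fun n : ℤ => (n : ℚ)) hτ
  have hu : (p : ℚ) ^ k ≠ 0 := pow_ne_zero _ hp0
  -- the basic case
  have hfac := comm_factor (r := r * Ω) (s := ((q ^ 2 * t : ℤ) : ℚ)) hu (by
    push_cast
    rw [hr']
    field_simp
    linear_combination (-1 : ℚ) * hk1q)
  have hbase : up (r * Ω) * lo ((q ^ 2 * t : ℤ) : ℚ) * (up (r * Ω))⁻¹ *
      (lo ((q ^ 2 * t : ℤ) : ℚ))⁻¹ ∈ Z0 Ψ := by
    rw [hfac, lo_eq_toQ (q ^ 2 * t)]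
    refine Z0_conj (mul_mem (mul_mem ?_ ?_) ?_) _
    · refine lo_mem hΨ hp hpN hα2 hS (m := k) (n := -(q ^ 2 * t * (r0 * q * Ω * t))) ?_
      push_cast
      field_simp
      linear_combination (-(t : ℚ)) * hk1q
    · refine dg_mem hΨ hp hpN hα2 hS ⟨r0 * q * Ω * t, ?_⟩ hu
      rw [hk1]
      ring
    · refine up_mem hΨ hp hpN hα2 hS (m := k) (n := -(N * r0 ^ 2 * Ω ^ 2 * t)) ?_
      push_cast
      rw [hr']
      field_simp
      linear_combination (-(Ω : ℚ)) * hk1q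
  -- changing the lower parameter
  have h2 : up (r * Ω) * lo (((q ^ 2 * t + -(N * q ^ 2 * τ) : ℤ)) : ℚ) * (up (r * Ω))⁻¹ *
      (lo (((q ^ 2 * t + -(N * q ^ 2 * τ) : ℤ)) : ℚ))⁻¹ ∈ Z0 Ψ := by
    refine comm_shift_lo ?_ ?_ hbase
    · refine lo_mem hΨ hp hpN hα2 hS (m := 0) (n := -(q ^ 2 * τ)) ?_
      push_cast
      ring
    · refine conj_lo_mem hΨ hq.ne_zero (r0 * Ω) _ (-τ) ?_ (by ring)
      push_cast
      linear_combination (Ω : ℚ) * hr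
  have h3 : (q : ℤ) ^ 2 * t + -(N * q ^ 2 * τ) = q ^ 2 * s0 := by
    linear_combination ((q : ℤ) ^ 2) * hτ
  rw [h3] at h2
  -- changing the upper parameter
  have h4 := comm_shift_up (a := -(N * (r0 * ω))) (up_mem hΨ hp hpN hα2 hS (m := 0)
    (n := -(r0 * ω)) (by push_cast; ring)) h2
  have h5 : r * Ω + -(N * (r0 * ω)) = r := by
    rw [hr']
    field_simp
    linear_combination hωq
  rwa [h5] at h4

include hΨ hp hpN hα2 hS in
/-- **the commutator lemma** -/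
theorem comm_mem {q : ℕ} (hq : q.Prime) (hqN : ¬ q ∣ N) (hqp : q ≠ p) {r0 s0 : ℤ}
    {r : ℚ} (hr : (q : ℚ) * r = N * r0) :
    up r * lo ((q ^ 2 * s0 : ℤ) : ℚ) * (up r)⁻¹ * (lo ((q ^ 2 * s0 : ℤ) : ℚ))⁻¹ ∈ Z0 Ψ := by
  have hpp : Prime (p : ℤ) := Nat.prime_iff_prime_int.1 hp
  by_cases hr0 : (p : ℤ) ∣ r0
  · have h1 : ¬ (p : ℤ) ∣ r0 + q := by
      intro h
      have h2 : (p : ℤ) ∣ q := (dvd_add_right hr0).1 h
      exact hqp ((Nat.prime_dvd_prime_iff_eq hp hq).1 (by exact_mod_cast h2)).symm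
    have h2 := comm_mem' hΨ hp hpN hα2 hS hq hqN hqp (r0 := r0 + q) (s0 := s0) h1
      (r := r + N) (by push_cast; linear_combination hr)
    have h3 := comm_shift_up (a := -(N : ℚ)) (up_mem hΨ hp hpN hα2 hS (m := 0)
      (n := -1) (by push_cast; ring)) h2
    rwa [add_neg_cancel_right] at h3
  · exact comm_mem' hΨ hp hpN hα2 hS hq hqN hqp hr0 hr

include hΨ hp hpN hα2 hS in
/-- the commutator lemma for letters -/
theorem comm_rel {q : ℕ} (hq : q.Prime) (hqN : ¬ q ∣ N) (hqp : q ≠ p) {r0 s0 : ℤ}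
    {r : ℚ} (hr : (q : ℚ) * r = N * r0) :
    Rel Ψ (up r * lo ((q ^ 2 * s0 : ℤ) : ℚ) * (up r)⁻¹) (lo ((q ^ 2 * s0 : ℤ) : ℚ)) :=
  comm_mem hΨ hp hpN hα2 hS hq hqN hqp hr

include hΨ hp hpN hα2 hS in
/-- the commutator lemma, with the roles exchanged -/
theorem comm_rel' {q : ℕ} (hq : q.Prime) (hqN : ¬ q ∣ N) (hqp : q ≠ p) {r0 s0 : ℤ}
    {r : ℚ} (hr : (q : ℚ) * r = N * r0) :
    Rel Ψ (lo r * up ((q ^ 2 * s0 : ℤ) : ℚ) * (lo r)⁻¹) (up ((q ^ 2 * s0 : ℤ) : ℚ)) := by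
  have h1 := comm_mem hΨ hp hpN hα2 hS hq hqN hqp (r0 := -r0) (s0 := -s0) (r := -r) (by
    push_cast
    linear_combination -hr)
  have h2 := Z0_conj h1 Smat
  have h3 : toQ Smat * (up (-r) * lo ((q ^ 2 * -s0 : ℤ) : ℚ) * (up (-r))⁻¹ *
      (lo ((q ^ 2 * -s0 : ℤ) : ℚ))⁻¹) * (toQ Smat)⁻¹ =
      (toQ Smat * up (-r) * (toQ Smat)⁻¹) * (toQ Smat * lo ((q ^ 2 * -s0 : ℤ) : ℚ) * (toQ Smat)⁻¹) *
      (toQ Smat * up (-r) * (toQ Smat)⁻¹)⁻¹ *
      (toQ Smat * lo ((q ^ 2 * -s0 : ℤ) : ℚ) * (toQ Smat)⁻¹)⁻¹ := by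
    group
  rw [h3, S_conj_up, S_conj_lo, neg_neg] at h2
  have h4 : -((q ^ 2 * -s0 : ℤ) : ℚ) = ((q ^ 2 * s0 : ℤ) : ℚ) := by
    push_cast
    ring
  rw [h4] at h2
  exact h2

end

end Pool.Agent.H503.MU
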