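import Pool.Agent.H503.MU.FinB

/-!
# The main theorem: the twisted values are not divisible by `p`
-/

set_option autoImplicit false
set_option linter.unusedSectionVars false

open Complex UpperHalfPlane MatrixGroups CongruenceSubgroup Filter Topology ModularForm

namespace Pool.Agent.H503.MU

open Pool.Agent.H503.TA

/-- an auxiliary prime -/
def AuxPrime {N : ℕ} (f : CuspForm (Gamma0 N : Subgroup (GL (Fin 2) ℝ)) 2) (p q : ℕ) : Prop :=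
  q.Prime ∧ q ≠ p ∧ (N : ℤ) ∣ q - 1 ∧ ¬ q ∣ N ∧
    ∃ cq : ℤ, HeckeAt f q cq ∧ ¬ (p : ℤ) ∣ cq - (q + 1)

section
variable {N : ℕ} [NeZero N]
variable (f : CuspForm (Gamma0 N : Subgroup (GL (Fin 2) ℝ)) 2)

theorem core {p e w : ℕ} (h : GoodW p e w) (hpN : ¬ p ∣ N)
    (hreal : ∀ n, (coef f n).im = 0) {s : ℂ} (hs : s = 1 ∨ s = -1) {Ω : ℂ} (hΩ0 : Ω ≠ 0)
    (hΩ : ∀ w : ℂ, (∃ c, IsPer f c ∧ w = c + s * (starRingEnd ℂ) c) ↔ ∃ k : ℤ, w = k * Ω)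
    {cp : ℤ} (hTp : HeckeAt f p cp) {q : ℕ} (hq : AuxPrime f p q)
    (hcase : (p : ℤ) ∣ cp ∨ ∃ q', q ≠ q' ∧ AuxPrime f p q') :
    ∃ t₀ : ℕ, ∀ t ≥ t₀, ∃ k : (ZMod (p ^ (t + 1 + e)))ˣ → ℤ,
      (∀ [NeZero (p ^ (t + 1 + e))] (χ : DirichletCharacter ℂ (p ^ (t + 1 + e))), χ ≠ 1 →
        χ (-1) = s → SchiB f χ = Ω * Lh k χ) ∧
      ∀ [NeZero (p ^ (t + 1 + e))] (ζ : ℂ), IsPrimitiveRoot ζ (p ^ (t + 1)) →
        ∃ χ : DirichletCharacter ℂ (p ^ (t + 1 + e)),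
          χ (gW h (t + 1) : ZMod (p ^ (t + 1 + e))) * ζ = 1 ∧ χ (-1) = s ∧
          ∀ y : ℂ, IsIntegral ℤ y → Lh k χ ≠ p * y := by
  have hpf : Fact p.Prime := ⟨h.prime⟩
  obtain ⟨hqp, hqne, hq1, hqN, cq, hTq, hcq⟩ := hq
  obtain ⟨K, hK, hKs⟩ := exists_K (s := s) f hΩ0 hΩ hqp hq1 hTq
  have hKp : KHecke K p cp := fun x y => K_hecke f hΩ0 hK h.prime.pos hTp x y
  have haux : ∀ q', AuxPrime f p q' → IsAux N p K q' := by
    rintro q' ⟨h1, h2, h3, h4, cq', h5, h6⟩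
    exact ⟨h1, h2, h3, h4, cq', fun x y => K_hecke f hΩ0 hK h1.pos h5 x y, h6⟩
  obtain ⟨n₀, hn₀⟩ := not_const (p := p) hKs hpN hcq hKp (hcase.imp id fun ⟨q', hqq', hq'⟩ =>
    ⟨q, q', hqq', haux q ⟨hqp, hqne, hq1, hqN, cq, hTq, hcq⟩, haux q' hq'⟩)
  refine ⟨n₀, fun t ht => ?_⟩
  have hM0 : NeZero (p ^ (t + 1 + e)) := ⟨pow_ne_zero _ h.prime.ne_zero⟩
  have hM2 : 2 < p ^ (t + 1 + e) :=
    lt_of_lt_of_le h.two (Nat.pow_le_pow_right h.prime.pos (Nat.le_add_left e _))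
  have hcopN : IsCoprime ((p ^ (t + 1 + e) : ℕ) : ℤ) (N : ℤ) := by
    rw [Nat.isCoprime_iff_coprime]
    exact Nat.Coprime.pow_left _ ((Nat.Prime.coprime_iff_not_dvd h.prime).2 hpN)
  obtain ⟨k, hk1, hk2, hk3⟩ := exists_kB f hcopN hM2 hreal hs hΩ0 hΩ
  refine ⟨k, fun χ hχ1 hχ => hk3 χ hχ1 hχ, fun ζ hζ => ?_⟩
  by_contra hcon
  push Not at hcon
  apply hn₀ (t + e) (by omega)
  refine const_of_k f h t hΩ0 hKs hK hk1 fun b => ?_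
  exact wild_dvd h t hs hk2 hζ (fun χ h1 h2 => hcon χ h1 h2) b

end

/-- characters are determined by their wild part and parity for `p = 2, 3` -/
lemma char_ext {p e w : ℕ} (hg : Good p e) (h : GoodW p e w) (n : ℕ)
    {χ χ' : DirichletCharacter ℂ (p ^ (n + e))}
    (h1 : χ (gW h n : ZMod (p ^ (n + e))) = χ' (gW h n : ZMod (p ^ (n + e))))
    (h2 : χ (-1) = χ' (-1)) : χ = χ' := by
  refine MulChar.ext fun u => ?_
  rw [gW_val] at h1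
  obtain ⟨i, hi | hi⟩ := units_eq hg n u
  · rw [hi, map_pow, map_pow, h1]
  · rw [hi, ← neg_one_mul, map_mul, map_mul, map_pow, map_pow, h1, h2]

end Pool.Agent.H503.MU
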