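import Pool.Agent.H503.TA.UFin
import Pool.Agent.H503.MU.Main

/-!
# The values of the primitive at the cusps
-/

set_option autoImplicit false
set_option linter.unusedSectionVars false

open Complex UpperHalfPlane MatrixGroups CongruenceSubgroup Filter Topology ModularForm

namespace Pool.Agent.H503.MU

open Pool.Agent.H503.TA

variable {N : ℕ} [NeZero N]
variable (f : CuspForm (Gamma0 N : Subgroup (GL (Fin 2) ℝ)) 2)

/-- the value of the primitive at the cusp `δ ∞` -/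
noncomputable def cval {N : ℕ} (f : CuspForm (Gamma0 N : Subgroup (GL (Fin 2) ℝ)) 2)
    (δ : SL(2, ℤ)) : ℂ := limUnder atImInfty (fun τ : ℍ => prim f ((δ • τ : ℍ) : ℂ))

lemma cval_spec (δ : SL(2, ℤ)) :
    Tendsto (fun τ : ℍ => prim f ((δ • τ : ℍ) : ℂ)) atImInfty (𝓝 (cval f δ)) := by
  obtain ⟨A, hA, h⟩ := prim_cusp f δ
  have hN : (0 : ℝ) < N := by exact_mod_cast Nat.pos_of_ne_zero (NeZero.ne N)
  have h0 : ContinuousAt A 0 :=
    (hA.differentiableAt (Metric.ball_mem_nhds 0 one_pos)).continuousAt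
  have h1 : Tendsto (fun τ : ℍ => A (Function.Periodic.qParam N τ)) atImInfty (𝓝 (A 0)) :=
    h0.tendsto.comp (qParam_tendsto_atImInfty hN)
  have h2 : (fun τ : ℍ => prim f ((δ • τ : ℍ) : ℂ)) =
      fun τ : ℍ => A (Function.Periodic.qParam N τ) := funext h
  rw [cval, h2]
  exact tendsto_nhds_limUnder ⟨_, h1⟩

lemma cval_mul {γ : SL(2, ℤ)} {c : ℂ}
    (hc : ∀ τ : ℍ, prim f ((γ • τ : ℍ) : ℂ) = prim f (τ : ℂ) + c) (δ : SL(2, ℤ)) :
    cval f (γ * δ) = cval f δ + c := by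
  refine tendsto_nhds_unique (cval_spec f (γ * δ)) ?_
  have h1 := (cval_spec f δ).add_const c
  refine h1.congr fun τ => ?_
  rw [mul_smul, hc]

lemma cval_T (δ : SL(2, ℤ)) (j : ℤ) : cval f (δ * ModularGroup.T ^ j) = cval f δ := by
  refine tendsto_nhds_unique (cval_spec f (δ * ModularGroup.T ^ j)) ?_
  have h1 : Tendsto (fun τ : ℍ => ModularGroup.T ^ j • τ) atImInfty atImInfty := by
    unfold atImInfty
    rw [tendsto_comap_iff]
    have : (UpperHalfPlane.im ∘ fun τ : ℍ => ModularGroup.T ^ j • τ) = UpperHalfPlane.im := by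
      funext τ
      simp only [Function.comp_apply]
      rw [← UpperHalfPlane.coe_im, ModularGroup.coe_T_zpow_smul_eq]
      simp
    rw [this]
    exact tendsto_comap
  refine ((cval_spec f δ).comp h1).congr fun τ => ?_
  simp only [Function.comp_apply]
  rw [mul_smul]

lemma cval_neg (δ : SL(2, ℤ)) : cval f (-δ) = cval f δ := by
  unfold cval
  simp only [ModularGroup.SL_neg_smul]

lemma cval_one : cval f 1 = 0 := by
  refine tendsto_nhds_unique (cval_spec f 1) ?_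
  obtain ⟨C, hC0, hC⟩ := prim_le f
  rw [tendsto_zero_iff_norm_tendsto_zero]
  have h0 : Tendsto (fun τ : ℍ => C * Real.exp (-(2 * Real.pi * τ.im))) atImInfty (𝓝 0) := by
    have h3 : Tendsto (fun τ : ℍ => -(2 * Real.pi * τ.im)) atImInfty atBot :=
      tendsto_neg_atTop_atBot.comp ((tendsto_comap (f := UpperHalfPlane.im)).const_mul_atTop (by positivity))
    have h4 := (Real.tendsto_exp_atBot.comp h3).const_mul C
    simpa using h4
  refine squeeze_zero' (Eventually.of_forall fun y => norm_nonneg _) ?_ h0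
  have h1 : {τ : ℍ | 1 ≤ τ.im} ∈ atImInfty := (atImInfty_mem _).2 ⟨1, fun z hz => hz⟩
  filter_upwards [h1] with τ hτ
  rw [one_smul]
  exact hC _ hτ

lemma cval_inf {δ : SL(2, ℤ)} (h : δ 1 0 = 0) : cval f δ = 0 := by
  obtain ⟨j, rfl | rfl⟩ := eq_T_zpow h
  · rw [← one_mul (ModularGroup.T ^ j), cval_T, cval_one]
  · rw [cval_neg, ← one_mul (ModularGroup.T ^ j), cval_T, cval_one]

lemma cval_col {δ δ' : SL(2, ℤ)} {t t' : ℚ} (ht : t ≠ 0) (ht' : t' ≠ 0)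
    (h0 : t * (δ 0 0 : ℤ) = t' * (δ' 0 0 : ℤ)) (h1 : t * (δ 1 0 : ℤ) = t' * (δ' 1 0 : ℤ)) :
    cval f δ = cval f δ' := by
  have hmul : ∀ (a b : SL(2, ℤ)) (i j : Fin 2), (a * b) i j = a i 0 * b 0 j + a i 1 * b 1 j := by
    intro a b i j
    rw [Matrix.SpecialLinearGroup.coe_mul, Matrix.mul_apply, Fin.sum_univ_two]
  have hinv : δ⁻¹ 1 0 = -δ 1 0 ∧ δ⁻¹ 1 1 = δ 0 0 := by
    rw [Matrix.SpecialLinearGroup.SL2_inv_expl]
    simp
  have h3 : (δ⁻¹ * δ') 1 0 = 0 := by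
    rw [hmul, hinv.1, hinv.2]
    have h4 : ((-δ 1 0 * δ' 0 0 + δ 0 0 * δ' 1 0 : ℤ) : ℚ) = 0 := by
      push_cast
      have h5 : t * t' * (-(δ 1 0 : ℤ) * (δ' 0 0 : ℤ) + (δ 0 0 : ℤ) * (δ' 1 0 : ℤ) : ℚ) = 0 := by
        linear_combination (t' * (δ' 1 0 : ℤ)) * h0 - (t' * (δ' 0 0 : ℤ)) * h1
      exact (mul_eq_zero.1 h5).resolve_left (mul_ne_zero ht ht')
    exact_mod_cast h4
  obtain ⟨j, hj | hj⟩ := eq_T_zpow h3
  · have : δ' = δ * ModularGroup.T ^ j := by rw [← hj, mul_inv_cancel_left]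
    rw [this, cval_T]
  · have : δ' = -(δ * ModularGroup.T ^ j) := by
      rw [← mul_neg, ← hj, mul_inv_cancel_left]
    rw [this, cval_neg, cval_T]

/-- the symbol -/
noncomputable def PsiC {N : ℕ} (f : CuspForm (Gamma0 N : Subgroup (GL (Fin 2) ℝ)) 2)
    (z : ℚ × ℚ) : ℂ := by
  classical
  exact if h : ∃ (δ : SL(2, ℤ)) (t : ℚ), t ≠ 0 ∧ z = (t * (δ 0 0 : ℤ), t * (δ 1 0 : ℤ)) then
    cval f h.choose else 0

lemma PsiC_col (δ : SL(2, ℤ)) {t : ℚ} (ht : t ≠ 0) :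
    PsiC f (t * (δ 0 0 : ℤ), t * (δ 1 0 : ℤ)) = cval f δ := by
  have h : ∃ (δ' : SL(2, ℤ)) (t' : ℚ), t' ≠ 0 ∧ ((t * (δ 0 0 : ℤ), t * (δ 1 0 : ℤ)) : ℚ × ℚ) =
      (t' * (δ' 0 0 : ℤ), t' * (δ' 1 0 : ℤ)) := ⟨δ, t, ht, rfl⟩
  unfold PsiC
  rw [dif_pos h]
  obtain ⟨t', ht', hz⟩ := h.choose_spec
  rw [Prod.mk.injEq] at hz
  exact cval_col f ht' ht hz.1.symm hz.2.symm

lemma exists_col {z : ℚ × ℚ} (hz : z ≠ 0) : ∃ (δ : SL(2, ℤ)) (t : ℚ), t ≠ 0 ∧
    z = (t * (δ 0 0 : ℤ), t * (δ 1 0 : ℤ)) := by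
  obtain ⟨x, y⟩ := z
  set a : ℤ := x.num * y.den with ha
  set b : ℤ := y.num * x.den with hb
  have hxd : (x.den : ℚ) ≠ 0 := by exact_mod_cast x.den_ne_zero
  have hyd : (y.den : ℚ) ≠ 0 := by exact_mod_cast y.den_ne_zero
  have hx : x = a / (x.den * y.den) := by
    rw [ha]
    push_cast
    rw [mul_div_mul_right _ _ hyd, Rat.num_div_den]
  have hy : y = b / (x.den * y.den) := by
    rw [hb]
    push_cast
    rw [mul_comm (x.den : ℚ), mul_div_mul_right _ _ hxd, Rat.num_div_den]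
  have hab : a ≠ 0 ∨ b ≠ 0 := by
    by_contra hcon
    push Not at hcon
    apply hz
    rw [Prod.mk_eq_zero, hx, hy, hcon.1, hcon.2]
    simp
  have hg : 0 < Int.gcd a b := by
    rw [Int.gcd_pos_iff]
    exact hab
  obtain ⟨a', b', hab', ha', hb'⟩ := Int.exists_gcd_one hg
  obtain ⟨δ, h0, h1⟩ := (Int.isCoprime_iff_gcd_eq_one.2 hab').exists_SL2_col 0
  refine ⟨δ, (Int.gcd a b : ℕ) / (x.den * y.den), ?_, ?_⟩
  · refine div_ne_zero ?_ (mul_ne_zero hxd hyd)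
    exact_mod_cast hg.ne'
  · rw [h0, h1]
    ext
    · refine hx.trans ?_
      have h3 : (a : ℚ) = a' * (Int.gcd a b : ℕ) := by exact_mod_cast congrArg (fun n : ℤ => (n : ℚ)) ha'
      rw [h3]
      ring
    · refine hy.trans ?_
      have h3 : (b : ℚ) = b' * (Int.gcd a b : ℕ) := by exact_mod_cast congrArg (fun n : ℤ => (n : ℚ)) hb'
      rw [h3]
      ring

lemma PsiC_hom (t x y : ℚ) (ht : t ≠ 0) : PsiC f (t * x, t * y) = PsiC f (x, y) := by
  by_cases hz : ((x, y) : ℚ × ℚ) = 0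
  · rw [Prod.mk_eq_zero] at hz
    rw [hz.1, hz.2, mul_zero]
  · obtain ⟨δ, r, hr, h⟩ := exists_col hz
    rw [Prod.mk.injEq] at h
    rw [h.1, h.2, PsiC_col f δ hr, ← mul_assoc, ← mul_assoc, PsiC_col f δ (mul_ne_zero ht hr)]

lemma PsiC_inf (x : ℚ) : PsiC f (x, 0) = 0 := by
  by_cases hx : x = 0
  · have h : ¬ ∃ (δ : SL(2, ℤ)) (t : ℚ), t ≠ 0 ∧ ((x, 0) : ℚ × ℚ) =
        (t * (δ 0 0 : ℤ), t * (δ 1 0 : ℤ)) := by
      rintro ⟨δ, t, ht, h⟩
      rw [Prod.mk.injEq, hx] at h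
      have h0 : δ 0 0 = 0 := by exact_mod_cast (mul_eq_zero.1 h.1.symm).resolve_left ht
      have h1 : δ 1 0 = 0 := by exact_mod_cast (mul_eq_zero.1 h.2.symm).resolve_left ht
      have := det_eq δ
      rw [h0, h1] at this
      simp at this
    unfold PsiC
    rw [dif_neg h]
  · have h := PsiC_col f 1 hx
    simp only [Matrix.SpecialLinearGroup.coe_one, Matrix.one_apply_eq, Int.cast_one, mul_one,
      ne_eq, one_ne_zero, not_false_eq_true, Matrix.one_apply_ne, Int.cast_zero, mul_zero] at h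
    rw [h, cval_one]

lemma PsiC_inv {γ : SL(2, ℤ)} {c : ℂ}
    (hc : ∀ τ : ℍ, prim f ((γ • τ : ℍ) : ℂ) = prim f (τ : ℂ) + c) {x y : ℚ}
    (hz : ((x, y) : ℚ × ℚ) ≠ 0) :
    PsiC f ((γ 0 0 : ℤ) * x + (γ 0 1 : ℤ) * y, (γ 1 0 : ℤ) * x + (γ 1 1 : ℤ) * y) =
      PsiC f (x, y) + c := by
  obtain ⟨δ, r, hr, h⟩ := exists_col hz
  rw [Prod.mk.injEq] at h
  have hmul : ∀ (i j : Fin 2), (γ * δ) i j = γ i 0 * δ 0 j + γ i 1 * δ 1 j := by
    intro i j
    rw [Matrix.SpecialLinearGroup.coe_mul, Matrix.mul_apply, Fin.sum_univ_two]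
  have h1 := PsiC_col f (γ * δ) hr
  rw [hmul, hmul, cval_mul f hc] at h1
  rw [h.1, h.2, PsiC_col f δ hr, ← h1]
  congr 2
  · push_cast
    ring
  · push_cast
    ring

/-- the vertical limit -/
lemma PsiC_vert (x : ℚ) {y : ℚ} (hy : y ≠ 0) :
    Tendsto (fun ε : ℝ => prim f (((x / y : ℚ) : ℂ) + ε * Complex.I)) (𝓝[>] 0)
      (𝓝 (PsiC f (x, y))) := by
  have hz : ((x, y) : ℚ × ℚ) ≠ 0 := by
    intro h
    rw [Prod.mk_eq_zero] at h
    exact hy h.2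
  obtain ⟨δ, t, ht, hδ, hpos⟩ : ∃ (δ : SL(2, ℤ)) (t : ℚ), t ≠ 0 ∧
      ((x, y) : ℚ × ℚ) = (t * (δ 0 0 : ℤ), t * (δ 1 0 : ℤ)) ∧ 0 < δ 1 0 := by
    obtain ⟨δ, t, ht, hδ⟩ := exists_col hz
    rcases lt_trichotomy (δ 1 0) 0 with h | h | h
    · refine ⟨-δ, -t, neg_ne_zero.2 ht, ?_, ?_⟩
      · rw [hδ, Matrix.SpecialLinearGroup.coe_neg, Matrix.neg_apply, Matrix.neg_apply]
        push_cast
        ext <;> simp
      · rw [Matrix.SpecialLinearGroup.coe_neg, Matrix.neg_apply]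
        linarith
    · rw [Prod.mk.injEq, h] at hδ
      exact absurd (by simpa using hδ.2) hy
    · exact ⟨δ, t, ht, hδ, h⟩
  obtain ⟨M, hM⟩ := Int.eq_ofNat_of_zero_le hpos.le
  have hM0 : 0 < M := by
    rw [hM] at hpos
    exact_mod_cast hpos
  have hMr : (0 : ℝ) < M := by exact_mod_cast hM0
  have hval : PsiC f (x, y) = cval f δ := by rw [hδ, PsiC_col f δ ht]
  have hxy : (x / y : ℚ) = (δ 0 0 : ℤ) / M := by
    rw [Prod.mk.injEq] at hδ
    rw [hδ.1, hδ.2, hM, mul_div_mul_left _ _ ht]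
    push_cast
    rfl
  rw [hval, hxy]
  intro U hU
  have h1 := cval_spec f δ hU
  rw [mem_map, atImInfty_mem] at h1
  obtain ⟨B, hB⟩ := h1
  rw [mem_map]
  have hsmall : ∀ᶠ ε : ℝ in 𝓝[>] 0, ε ≤ 1 / ((M : ℝ) ^ 2 * (|B| + 1)) := by
    have : Set.Iic (1 / ((M : ℝ) ^ 2 * (|B| + 1))) ∈ 𝓝 (0 : ℝ) := Iic_mem_nhds (by positivity)
    exact mem_nhdsWithin_of_mem_nhds this
  filter_upwards [hsmall, self_mem_nhdsWithin] with ε hε1 hε
  have hε0 : 0 < ε := hε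
  have hε' : 0 < 1 / ((M : ℝ) ^ 2 * ε) := by positivity
  have h5 := hB (pt (-(δ 1 1 : ℤ) / M) hε') (by
    rw [pt_im, le_div_iff₀ (by positivity)]
    rw [le_div_iff₀ (by positivity)] at hε1
    have h6 : B ≤ |B| + 1 := by
      have := le_abs_self B
      linarith
    have h7 : B * ((M : ℝ) ^ 2 * ε) ≤ (|B| + 1) * ((M : ℝ) ^ 2 * ε) := by gcongr
    nlinarith)
  have h5' : prim f ((δ • (pt (-(δ 1 1 : ℤ) / M) hε') : ℍ) : ℂ) ∈ U := h5
  rw [smul_pt hM0 hM hε0 hε', pt_coe] at h5'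
  simpa using h5'

/-- complex conjugation -/
lemma prim_conj (hreal : ∀ n, (coef f n).im = 0) (r ε : ℝ) :
    prim f (((-r : ℝ) : ℂ) + ε * Complex.I) = (starRingEnd ℂ) (prim f ((r : ℂ) + ε * Complex.I)) := by
  unfold prim
  rw [Complex.conj_tsum]
  refine tsum_congr fun n => ?_
  rw [map_mul, ← Complex.exp_conj, map_div₀, Complex.conj_natCast,
    Complex.conj_eq_iff_im.2 (hreal n)]
  congr 2
  simp only [map_mul, map_add, Complex.conj_I, Complex.conj_ofReal, map_ofNat, Complex.conj_natCast]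
  push_cast
  ring

lemma PsiC_conj (hreal : ∀ n, (coef f n).im = 0) (x y : ℚ) :
    PsiC f (-x, y) = (starRingEnd ℂ) (PsiC f (x, y)) := by
  by_cases hy : y = 0
  · rw [hy, PsiC_inf, PsiC_inf, map_zero]
  · refine tendsto_nhds_unique (PsiC_vert f (-x) hy) ?_
    have h1 := (Complex.continuous_conj.tendsto _).comp (PsiC_vert f x hy)
    refine h1.congr fun ε => ?_
    simp only [Function.comp_apply]
    have := prim_conj f hreal ((x / y : ℚ) : ℝ) ε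
    push_cast at this ⊢
    rw [neg_div]
    exact this.symm

end Pool.Agent.H503.MU
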