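import Mathlib

/-!
# Divisibility by `p` of values at roots of unity of order a power of `p`
-/

set_option autoImplicit false
set_option linter.unusedSectionVars false

open Polynomial

namespace Pool.Agent.H503.MU

theorem cyc_dvd_aux {p : ℕ} [hp : Fact p.Prime] (m : ℕ) (L : Type*) [Field L] [CharZero L]
    [IsCyclotomicExtension {p ^ (m + 1)} ℚ L] [NeZero (p ^ (m + 1))]
    {ζ : ℂ} (hζ : IsPrimitiveRoot ζ (p ^ (m + 1)))
    (F : ℤ[X]) {y : ℂ} (hy : IsIntegral ℤ y) (hF : aeval ζ F = p * y) :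
    ∃ W Y : ℤ[X], (X ^ p ^ m - 1) * F = (p : ℤ[X]) * Y + (X ^ p ^ (m + 1) - 1) * W := by
  have hpos : 0 < p ^ (m + 1) := pow_pos hp.out.pos _
  have hz := IsCyclotomicExtension.zeta_spec (p ^ (m + 1)) ℚ L
  set z : L := IsCyclotomicExtension.zeta (p ^ (m + 1)) ℚ L with hzdef
  -- the embedding
  obtain ⟨σ, hσ⟩ : ∃ σ : L →ₐ[ℚ] ℂ, σ z = ζ := by
    have hirr : Irreducible (cyclotomic (p ^ (m + 1)) ℚ) := cyclotomic.irreducible_rat hpos
    let e := hz.embeddingsEquivPrimitiveRoots ℂ hirr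
    have hmem : ζ ∈ primitiveRoots (p ^ (m + 1)) ℂ := (mem_primitiveRoots hpos).2 hζ
    refine ⟨e.symm ⟨ζ, hmem⟩, ?_⟩
    have h1 := hz.embeddingsEquivPrimitiveRoots_apply_coe ℂ hirr (e.symm ⟨ζ, hmem⟩)
    rw [← h1]
    change ((e (e.symm ⟨ζ, hmem⟩) : primitiveRoots (p ^ (m + 1)) ℂ) : ℂ) = ζ
    rw [Equiv.apply_symm_apply]
  have hp0 : (p : L) ≠ 0 := by exact_mod_cast hp.out.ne_zero
  have hp0c : (p : ℂ) ≠ 0 := by exact_mod_cast hp.out.ne_zero
  -- the quotient is integral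
  have hval : σ (aeval z F) = aeval ζ F := by
    rw [← hσ]
    have h1 := Polynomial.aeval_algHom_apply (σ.restrictScalars ℤ) z F
    exact h1.symm
  have hint : IsIntegral ℤ (aeval z F / (p : L)) := by
    have h1 : σ (aeval z F / (p : L)) = y := by
      rw [map_div₀, hval, hF, map_natCast]
      field_simp
    have h2 : IsIntegral ℤ ((σ.restrictScalars ℤ) (aeval z F / (p : L))) := by
      change IsIntegral ℤ (σ (aeval z F / (p : L)))
      rw [h1]
      exact hy
    exact (isIntegral_algHom_iff (σ.restrictScalars ℤ) σ.injective).1 h2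
  have hcl := IsCyclotomicExtension.Rat.isIntegralClosure_adjoin_singleton_of_prime_pow hz
  obtain ⟨⟨w, hw⟩, hw'⟩ := hcl.isIntegral_iff.1 hint
  have hw'' : w = aeval z F / (p : L) := hw'
  rw [Algebra.adjoin_singleton_eq_range_aeval] at hw
  obtain ⟨Y, hY⟩ := hw
  have hY' : aeval z Y = aeval z F / (p : L) := by
    rw [← hw'']
    exact hY
  have hzero : aeval z (F - (p : ℤ[X]) * Y) = 0 := by
    rw [map_sub, map_mul, map_natCast, hY', mul_div_cancel₀ _ hp0, sub_self]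
  have hdvd := minpoly.isIntegrallyClosed_dvd (hz.isIntegral hpos) hzero
  rw [← cyclotomic_eq_minpoly hz hpos] at hdvd
  obtain ⟨W, hW⟩ := hdvd
  refine ⟨W, (X ^ p ^ m - 1) * Y, ?_⟩
  have h3 := cyclotomic_prime_pow_mul_X_pow_sub_one ℤ p m
  linear_combination (X ^ p ^ m - 1) * hW + W * h3

set_option backward.isDefEq.respectTransparency false in
theorem cyc_dvd {p : ℕ} [hp : Fact p.Prime] (m : ℕ) {ζ : ℂ} (hζ : IsPrimitiveRoot ζ (p ^ (m + 1)))
    (F : ℤ[X]) {y : ℂ} (hy : IsIntegral ℤ y) (hF : aeval ζ F = p * y) :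
    ∃ W Y : ℤ[X], (X ^ p ^ m - 1) * F = (p : ℤ[X]) * Y + (X ^ p ^ (m + 1) - 1) * W := by
  have hne : NeZero (p ^ (m + 1)) := ⟨(pow_pos hp.out.pos _).ne'⟩
  have hneq : NeZero (((p ^ (m + 1) : ℕ)) : ℚ) := ⟨by exact_mod_cast (pow_pos hp.out.pos _).ne'⟩
  have hinst := CyclotomicField.isCyclotomicExtension (p ^ (m + 1)) ℚ
  exact cyc_dvd_aux m (CyclotomicField (p ^ (m + 1)) ℚ) hζ F hy hF

/-- the coefficients -/
theorem coeff_dvd {p : ℕ} [hp : Fact p.Prime] (m : ℕ) {ζ : ℂ}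
    (hζ : IsPrimitiveRoot ζ (p ^ (m + 1))) (k : ℕ → ℤ) (hk : ∀ i, k (i + p ^ (m + 1)) = k i)
    {y : ℂ} (hy : IsIntegral ℤ y)
    (hF : ∑ i ∈ Finset.range (p ^ (m + 1)), ζ ^ i * k i = p * y) (i : ℕ) :
    (p : ℤ) ∣ k (i + p ^ m) - k i := by
  set Q := p ^ (m + 1) with hQ
  have hpos : 0 < Q := pow_pos hp.out.pos _
  have hneQ : NeZero Q := ⟨hpos.ne'⟩
  obtain ⟨W, Y, hWY⟩ := cyc_dvd m hζ (∑ i ∈ Finset.range Q, C (k i) * X ^ i) hy (by
    rw [map_sum, ← hF]
    refine Finset.sum_congr rfl fun i _ => ?_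
    rw [map_mul, map_pow, aeval_X, aeval_C, mul_comm, algebraMap_int_eq, eq_intCast])
  -- the group ring
  let A := AddMonoidAlgebra (ZMod p) (ZMod Q)
  let x : A := AddMonoidAlgebra.single (1 : ZMod Q) (1 : ZMod p)
  let T : ℤ[X] →+* A := eval₂RingHom (Int.castRingHom A) x
  have hx : ∀ n : ℕ, x ^ n = AddMonoidAlgebra.single (n : ZMod Q) (1 : ZMod p) := by
    intro n
    rw [AddMonoidAlgebra.single_pow, one_pow, nsmul_one]
  have hTX : T X = x := by simp [T]
  have hxQ : x ^ Q = 1 := by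
    rw [hx, ZMod.natCast_self]
    rfl
  have hcast : ∀ n : ℤ, ((n : ℤ) : A) = AddMonoidAlgebra.single (0 : ZMod Q) ((n : ℤ) : ZMod p) := by
    intro n
    have h1 : (algebraMap (ZMod p) A) ((n : ℤ) : ZMod p) = ((n : ℤ) : A) := map_intCast _ _
    rw [← h1]
    rfl
  have hpA : (p : A) = 0 := by
    have h1 := hcast (p : ℤ)
    rw [Int.cast_natCast, Int.cast_natCast, ZMod.natCast_self, AddMonoidAlgebra.single_zero] at h1
    exact h1
  have hT := congrArg T hWY
  rw [map_mul, map_add, map_mul, map_mul, map_natCast, hpA, zero_mul, map_sub, map_sub, map_pow,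
    map_pow, hTX, map_one, ← hQ, hxQ, sub_self, zero_mul, zero_add] at hT
  set G : A := T (∑ i ∈ Finset.range Q, C (k i) * X ^ i) with hG
  have hG' : G = ∑ i ∈ Finset.range Q, AddMonoidAlgebra.single (i : ZMod Q) ((k i : ℤ) : ZMod p) := by
    rw [hG, map_sum]
    refine Finset.sum_congr rfl fun i _ => ?_
    rw [map_mul, map_pow, hTX, hx]
    have h1 : T (C (k i)) = ((k i : ℤ) : A) := by simp [T]
    rw [h1, hcast, AddMonoidAlgebra.single_mul_single, zero_add, mul_one]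
  have hmod : ∀ i j : ℕ, k (i + Q * j) = k i := by
    intro i j
    induction j with
    | zero => simp
    | succ j ih => rw [mul_add, mul_one, ← add_assoc, hk, ih]
  have hkmod : ∀ i, k i = k (i % Q) := by
    intro i
    conv_lhs => rw [← Nat.mod_add_div i Q]
    rw [hmod]
  have hcoef : ∀ i : ℕ, G.coeff (i : ZMod Q) = ((k i : ℤ) : ZMod p) := by
    intro i
    rw [hG', AddMonoidAlgebra.coeff_sum, Finsupp.finsetSum_apply,
      Finset.sum_eq_single (i % Q)]
    · rw [AddMonoidAlgebra.coeff_single, ZMod.natCast_mod, Finsupp.single_eq_same, ← hkmod]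
    · intro b hb hne
      rw [AddMonoidAlgebra.coeff_single, Finsupp.single_eq_of_ne]
      intro h
      apply hne
      rw [Finset.mem_range] at hb
      have h2 := (ZMod.natCast_eq_natCast_iff' _ _ _).1 h
      rw [Nat.mod_eq_of_lt hb] at h2
      omega
    · intro h
      exact absurd (Finset.mem_range.2 (Nat.mod_lt _ hpos)) h
  have h1 : x ^ p ^ m * G = G := by linear_combination hT
  have h2 : ((k (i + p ^ m) : ℤ) : ZMod p) = ((k i : ℤ) : ZMod p) := by
    rw [← hcoef, ← hcoef]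
    conv_lhs => rw [← h1, hx, AddMonoidAlgebra.coeff_single_mul_apply]
    rw [one_mul]
    congr 1
    push_cast
    ring
  rw [← ZMod.intCast_zmod_eq_zero_iff_dvd]
  push_cast
  rw [h2, sub_self]

end Pool.Agent.H503.MU
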