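import Mathlib

/-!
# Powers of `p` in prescribed residue classes
-/

set_option autoImplicit false

namespace Pool.Agent.H503.MU

/-- expansion to the second order -/
lemma pow_expand (X : ℤ) (l : ℕ) : ∃ y : ℤ, (1 + X) ^ l = 1 + l * X + X ^ 2 * y := by
  induction l with
  | zero => exact ⟨0, by simp⟩
  | succ l ih =>
    obtain ⟨y, hy⟩ := ih
    refine ⟨l + y + X * y, ?_⟩
    rw [pow_succ, hy]
    push_cast
    ring

/-- expansion to the third order -/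
lemma pow_expand3 (X : ℤ) (l : ℕ) :
    ∃ y : ℤ, 2 * (1 + X) ^ l = 2 + 2 * l * X + l * (l - 1) * X ^ 2 + 2 * X ^ 3 * y := by
  induction l with
  | zero => exact ⟨0, by simp⟩
  | succ l ih =>
    obtain ⟨y, hy⟩ := ih
    obtain ⟨z, hz⟩ : ∃ z : ℤ, (l : ℤ) * (l - 1) = 2 * z := by
      have h := Int.even_mul_pred_self (l : ℤ)
      obtain ⟨r, hr⟩ := h
      exact ⟨r, by rw [hr]; ring⟩
    refine ⟨z + y + X * y, ?_⟩
    rw [pow_succ, ← mul_assoc, hy]
    push_cast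
    linear_combination (X ^ 3) * hz

/-- lifting the exponent -/
lemma lte {N X : ℤ} {l : ℕ} (h1 : (l : ℤ) ∣ X) (h2 : 2 * N ∣ (l - 1) * X) (h3 : N ∣ X) :
    ∃ w : ℤ, (1 + X) ^ l = 1 + l * X * (1 + N * w) := by
  obtain ⟨y, hy⟩ := pow_expand3 X l
  obtain ⟨a, ha⟩ := h1
  obtain ⟨b, hb⟩ := h2
  obtain ⟨c, hc⟩ := h3
  refine ⟨b + a * c * y, ?_⟩
  have h4 : 2 * (1 + X) ^ l = 2 * (1 + l * X * (1 + N * (b + a * c * y))) := by
    rw [hy]
    have h5 : X ^ 3 = l * X * N * (a * c) := by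
      calc X ^ 3 = X * X * X := by ring
        _ = (l * a) * X * (N * c) := by rw [← ha, ← hc]
        _ = _ := by ring
    rw [h5]
    linear_combination (l * X) * hb
  linarith

lemma lte_pow {N E : ℤ} {l : ℕ} (h1 : (l : ℤ) ∣ E) (h2 : 2 * N ∣ (l - 1) * E) (h3 : N ∣ E) (j : ℕ) :
    ∃ w : ℤ, (1 + E) ^ (l ^ j) = 1 + l ^ j * E * (1 + N * w) := by
  induction j with
  | zero => exact ⟨0, by simp⟩
  | succ j ih =>
    obtain ⟨w, hw⟩ := ih
    set X : ℤ := l ^ j * E * (1 + N * w) with hX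
    have hEX : E ∣ X := ⟨l ^ j * (1 + N * w), by rw [hX]; ring⟩
    obtain ⟨w', hw'⟩ := lte (N := N) (X := X) (l := l) (h1.trans hEX)
      (h2.trans (mul_dvd_mul_left _ hEX)) (h3.trans hEX)
    refine ⟨w + w' + N * w * w', ?_⟩
    rw [pow_succ, pow_mul, hw, hw', hX]
    ring

/-- the part of `n` composed of the primes dividing `N` -/
lemma split_part (N : ℕ) : ∀ n : ℕ, 0 < n → ∃ a b : ℕ, n = a * b ∧
    (∀ l : ℕ, l.Prime → l ∣ a → l ∣ N) ∧ b.Coprime N := by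
  intro n
  induction n using Nat.strong_induction_on with
  | _ n ih =>
    intro hn
    by_cases hc : n.Coprime N
    · refine ⟨1, n, by ring, fun l hl h => ?_, hc⟩
      exact absurd (Nat.dvd_one.1 h) hl.one_lt.ne'
    · obtain ⟨l, hl, h1, h2⟩ := Nat.Prime.not_coprime_iff_dvd.1 hc
      obtain ⟨m, rfl⟩ := h1
      have hm : 0 < m := by
        rcases Nat.eq_zero_or_pos m with rfl | h'
        · simp at hn
        · exact h'
      have hlt : m < l * m := by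
        have := hl.one_lt
        nlinarith
      obtain ⟨a, b, hab, ha, hb⟩ := ih m hlt hm
      refine ⟨l * a, b, by rw [hab]; ring, fun l' hl' h => ?_, hb⟩
      rcases (Nat.Prime.dvd_mul hl').1 h with h3 | h3
      · rw [(Nat.prime_dvd_prime_iff_eq hl' hl).1 h3]
        exact h2
      · exact ha l' hl' h3

/-- Euler's theorem -/
lemma euler {p : ℕ} {m : ℕ} (hm : p.Coprime m) (hm0 : 0 < m) :
    ∃ K : ℕ, 0 < K ∧ (m : ℤ) ∣ (p : ℤ) ^ K - 1 := by
  refine ⟨m.totient, Nat.totient_pos.2 hm0, ?_⟩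
  have h4 := (Nat.modEq_iff_dvd.1 (Nat.ModEq.pow_totient hm).symm)
  push_cast at h4
  exact h4

/-- the existence lemma -/
theorem exists_pow {p q N R : ℕ} (hp : p.Prime) (hq : q.Prime) (hqN : ¬ q ∣ N) (hNR : N ∣ R)
    (hR : 0 < R) (hpR : p.Coprime R) : ∃ Ω : ℤ, (q : ℤ) ∣ Ω - 1 ∧
      ∀ s : ℤ, ∃ (k : ℕ) (t : ℤ), (p : ℤ) ^ k - 1 = Ω * R * t ∧ (N : ℤ) ∣ t - s := by
  have hN0 : 0 < N := Nat.pos_of_dvd_of_pos hNR hR
  -- the exponent
  obtain ⟨K, hK0, hK1, hK2⟩ : ∃ K : ℕ, 0 < K ∧ (R : ℤ) ∣ (p : ℤ) ^ K - 1 ∧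
      ∀ l : ℕ, (l : ℤ) ∣ (p : ℤ) ^ K - 1 → 2 * (N : ℤ) ∣ ((l : ℤ) - 1) * ((p : ℤ) ^ K - 1) := by
    rcases hp.eq_two_or_odd' with rfl | hodd
    · obtain ⟨K, hK0, hK⟩ := euler hpR hR
      refine ⟨K, hK0, hK, fun l hl => ?_⟩
      have hNE : (N : ℤ) ∣ ((2 : ℕ) : ℤ) ^ K - 1 := (by exact_mod_cast hNR : (N : ℤ) ∣ R).trans hK
      refine mul_dvd_mul ?_ hNE
      have hE : Odd (((2 : ℕ) : ℤ) ^ K - 1) := by
        have h1 : Even (((2 : ℕ) : ℤ) ^ K) := (by norm_num : Even ((2 : ℕ) : ℤ)).pow_of_ne_zero hK0.ne'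
        exact h1.sub_odd odd_one
      have hlo : Odd (l : ℤ) := by
        obtain ⟨m, hm⟩ := hl
        rw [hm] at hE
        exact (Int.odd_mul.1 hE).1
      obtain ⟨m, hm⟩ := hlo
      exact ⟨m, by rw [hm]; ring⟩
    · have h2 : p.Coprime (2 * R) := Nat.Coprime.mul_right (Nat.coprime_two_right.2 hodd) hpR
      obtain ⟨K, hK0, hK⟩ := euler h2 (by positivity)
      refine ⟨K, hK0, ?_, fun l _ => ?_⟩
      · refine Dvd.dvd.trans ?_ hK
        push_cast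
        exact dvd_mul_left _ _
      · refine Dvd.dvd.mul_left (Dvd.dvd.trans ?_ hK) _
        push_cast
        exact mul_dvd_mul_left _ (by exact_mod_cast hNR)
  have hpos : 0 < (p : ℤ) ^ K - 1 := by
    have : (1 : ℤ) < (p : ℤ) ^ K := one_lt_pow₀ (by exact_mod_cast hp.one_lt) hK0.ne'
    linarith
  obtain ⟨E2', hE2'⟩ := hK1
  have hE2pos : 0 < E2' := by
    have hR' : (0 : ℤ) < R := by exact_mod_cast hR
    rw [hE2'] at hpos
    exact (mul_pos_iff_of_pos_left hR').1 hpos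
  obtain ⟨E2, rfl⟩ : ∃ n : ℕ, E2' = n := ⟨E2'.toNat, (Int.toNat_of_nonneg hE2pos.le).symm⟩
  have hE2 : 0 < E2 := by exact_mod_cast hE2pos
  obtain ⟨l, b, hlb, hl, hb⟩ := split_part N E2 hE2
  set E : ℤ := (p : ℤ) ^ K - 1 with hE
  have hEl : E = R * (l * b) := by rw [hE2', hlb]; push_cast; ring
  have hlE : (l : ℤ) ∣ E := ⟨R * b, by rw [hEl]; ring⟩
  have hNE : (N : ℤ) ∣ E := by
    rw [hEl]
    exact (by exact_mod_cast hNR : (N : ℤ) ∣ R).mul_right _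
  obtain ⟨w, hw⟩ := lte_pow hlE (hK2 l hlE) hNE (q - 2)
  have hq2 : q - 1 = q - 2 + 1 := by
    have := hq.two_le
    omega
  refine ⟨(l : ℤ) ^ (q - 1), ?_, fun s => ?_⟩
  · -- Fermat
    have hql : ¬ q ∣ l := fun h => hqN (hl q hq h)
    have hcop : IsCoprime (l : ℤ) (q : ℤ) := by
      rw [Nat.isCoprime_iff_coprime, Nat.coprime_comm]
      exact hq.coprime_iff_not_dvd.2 hql
    have h1 := Int.ModEq.pow_card_sub_one_eq_one hq hcop
    exact (Int.modEq_iff_dvd.1 h1.symm)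
  · obtain ⟨u, v, huv⟩ : IsCoprime (b : ℤ) (N : ℤ) := Nat.isCoprime_iff_coprime.2 hb
    have hN0' : (0 : ℤ) < N := by exact_mod_cast hN0
    set i : ℕ := ((s * u) % N).toNat with hi
    have hi' : (i : ℤ) = (s * u) % N := Int.toNat_of_nonneg (Int.emod_nonneg _ hN0'.ne')
    obtain ⟨c, hc⟩ : (N : ℤ) ∣ (i : ℤ) - s * u := by
      rw [hi']
      have := Int.emod_add_mul_ediv (s * u) N
      exact ⟨-(s * u / N), by linarith⟩
    set Y : ℤ := (l : ℤ) ^ (q - 2) * E * (1 + N * w) with hY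
    obtain ⟨y, hy⟩ := pow_expand Y i
    have hYe : Y = (l : ℤ) ^ (q - 1) * R * (b * (1 + N * w)) := by
      rw [hY, hEl, hq2, pow_succ]
      ring
    obtain ⟨d, hd⟩ : (N : ℤ) ∣ Y := by
      rw [hYe]
      exact ((by exact_mod_cast hNR : (N : ℤ) ∣ R).mul_left _).mul_right _
    refine ⟨K * l ^ (q - 2) * i, (b * (1 + N * w)) * (i + Y * y), ?_, ?_⟩
    · have h1 : (p : ℤ) ^ K = 1 + E := by rw [hE]; ring
      rw [pow_mul, pow_mul, h1, hw, hy]
      have h2 : Y ^ 2 = (l : ℤ) ^ (q - 1) * R * (b * (1 + N * w)) * Y := by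
        rw [sq]
        nth_rw 1 [hYe]
      rw [h2]
      nth_rw 1 [hYe]
      ring
    · refine ⟨b * c - s * v + b * w * i + b * (1 + N * w) * d * y, ?_⟩
      rw [hd]
      linear_combination (b : ℤ) * hc + s * huv

end Pool.Agent.H503.MU
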