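import Pool.Agent.H503.MU.Wild

/-!
# Assembly
-/

set_option autoImplicit false
set_option linter.unusedSectionVars false

open Complex UpperHalfPlane MatrixGroups CongruenceSubgroup Filter Topology ModularForm

namespace Pool.Agent.H503.MU

open Pool.Agent.H503.TA

variable {N : ℕ} [NeZero N]
variable (f : CuspForm (Gamma0 N : Subgroup (GL (Fin 2) ℝ)) 2)

/-- the cusps `a / M`, `M` prime to `N`, are equivalent to `0` -/
lemma PsiC_period {M : ℕ} (hMN : IsCoprime (M : ℤ) (N : ℤ)) {a : ℤ} (ha : IsCoprime a (M : ℤ)) :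
    ∃ c, IsPer f c ∧ PsiC f ((a : ℚ), (M : ℚ)) = PsiC f (0, 1) + c := by
  have h1 : IsCoprime (a * N) (M : ℤ) := IsCoprime.mul_left ha hMN.symm
  obtain ⟨u, v, huv⟩ := h1
  let γ : SL(2, ℤ) := ⟨!![v, a; -(u * N), M], by
    rw [Matrix.det_fin_two_of]
    linear_combination huv⟩
  have hγ : γ ∈ Gamma0 N := by
    rw [Gamma0_mem, ZMod.intCast_zmod_eq_zero_iff_dvd]
    exact ⟨-u, by change -(u * N) = _; ring⟩
  obtain ⟨c, hc⟩ := prim_smul f hγ
  refine ⟨c, ⟨γ, hγ, hc⟩, ?_⟩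
  have h2 := PsiC_inv f hc (x := 0) (y := 1) (by simp)
  rw [← h2]
  have e01 : γ 0 1 = a := rfl
  have e11 : γ 1 1 = M := rfl
  rw [e01, e11]
  congr 2
  · ring
  · push_cast
    ring

lemma PsiC_zmod {M : ℕ} [NeZero M] (a : ℤ) :
    PsiC f ((((a : ZMod M).val : ℕ) : ℚ), (M : ℚ)) = PsiC f ((a : ℚ), (M : ℚ)) := by
  have h1 : (((a : ZMod M).val : ℕ) : ℤ) = a % M := by
    rw [ZMod.val_intCast]
  have h2 : a = a % M + M * (a / M) := (Int.emod_add_mul_ediv a M).symm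
  have h3 := PsiC_T f ((((a : ZMod M).val : ℕ) : ℚ)) (M : ℚ) (a / M)
  rw [← h3]
  congr 2
  have h4 : ((((a : ZMod M).val : ℕ) : ℤ) : ℚ) + ((a / M : ℤ) : ℚ) * M = a := by
    rw [h1]
    exact_mod_cast congrArg (fun n : ℤ => (n : ℚ)) (by linarith : a % M + (a / M) * M = a)
  push_cast at h4 ⊢
  exact h4

/-- the integral functions on the units attached to `f` -/
theorem exists_kB {M : ℕ} [NeZero M] (hMN : IsCoprime (M : ℤ) (N : ℤ)) (hM : 2 < M)
    (hreal : ∀ n, (coef f n).im = 0) {s : ℂ}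
    (hs : s = 1 ∨ s = -1) {Ω : ℂ} (hΩ0 : Ω ≠ 0)
    (hΩ : ∀ w : ℂ, (∃ c, IsPer f c ∧ w = c + s * (starRingEnd ℂ) c) ↔ ∃ k : ℤ, w = k * Ω) :
    ∃ k : (ZMod M)ˣ → ℤ,
      (∀ u : (ZMod M)ˣ, PhiC f s (((u : ZMod M).val : ℚ), (M : ℚ)) - PhiC f s (0, 1) =
        k u * Ω) ∧
      (∀ u, (k (-u) : ℂ) = s * k u) ∧
      ∀ χ : DirichletCharacter ℂ M, χ ≠ 1 → χ (-1) = s → SchiB f χ = Ω * Lh k χ := by
  have hss : s * s = 1 := by rcases hs with rfl | rfl <;> norm_num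
  have hcop : ∀ a : (ZMod M)ˣ, IsCoprime (((a : ZMod M).val : ℕ) : ℤ) (M : ℤ) := by
    intro a
    rw [Nat.isCoprime_iff_coprime, ← ZMod.isUnit_iff_coprime, ZMod.natCast_zmod_val]
    exact a.isUnit
  -- the periods
  set P : (ZMod M)ˣ → ℂ := fun u => PsiC f (((u : ZMod M).val : ℚ), (M : ℚ)) - PsiC f (0, 1)
    with hP
  have hper : ∀ u, IsPer f (P u) := by
    intro u
    obtain ⟨c, hc, h1⟩ := PsiC_period f hMN (hcop u)
    have : P u = c := by
      rw [hP]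
      push_cast at h1
      simp only [h1]
      ring
    rw [this]
    exact hc
  have hzero : (starRingEnd ℂ) (PsiC f (0, 1)) = PsiC f (0, 1) := by
    have := PsiC_conj f hreal 0 1
    rw [neg_zero] at this
    exact this.symm
  have hPneg : ∀ u, P (-u) = (starRingEnd ℂ) (P u) := by
    intro u
    rw [hP]
    simp only
    rw [map_sub, hzero, ← PsiC_conj f hreal, ← Int.cast_natCast (R := ℚ) (u : ZMod M).val,
      ← Int.cast_neg, ← PsiC_zmod f (M := M) (-(((u : ZMod M).val : ℕ) : ℤ))]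
    congr 4
    push_cast
    rw [ZMod.natCast_zmod_val]
  have hk0 : ∀ u, ∃ k : ℤ, P u + s * (starRingEnd ℂ) (P u) = k * Ω := fun u =>
    (hΩ _).1 ⟨_, hper u, rfl⟩
  choose k hk using hk0
  have hk2 : ∀ u, (k (-u) : ℂ) = s * k u := by
    intro u
    apply mul_right_cancel₀ hΩ0
    rw [← hk, hPneg, Complex.conj_conj, mul_assoc, ← hk]
    linear_combination (-(starRingEnd ℂ) (P u)) * hss
  refine ⟨k, ?_, hk2, ?_⟩
  · intro u
    rw [← hk, hP]
    unfold PhiC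
    simp only [map_sub]
    ring
  · intro χ hχ1 hχ
    have hinv : χ⁻¹ (-1) = s := chi_inv_neg hs hχ
    have hsum0 : ∑ u : (ZMod M)ˣ, χ⁻¹ (u : ZMod M) = 0 := by
      have h1 := MulChar.sum_eq_zero_of_ne_one (χ := χ⁻¹) (inv_ne_one.2 hχ1)
      rw [← Finset.sum_filter_of_ne (p := fun a : ZMod M => IsUnit a)] at h1
      · rw [← h1]
        refine Finset.sum_bij (fun a _ => (a : ZMod M)) ?_ ?_ ?_ ?_
        · intro a _
          simp
        · intro a _ b _ hab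
          exact Units.ext hab
        · intro b hb
          rw [Finset.mem_filter] at hb
          obtain ⟨u, hu⟩ := hb.2
          exact ⟨u, Finset.mem_univ _, hu⟩
        · intro a _
          rfl
      · intro a _ hne
        by_contra hna
        apply hne
        rw [MulChar.map_nonunit _ hna]
    have hS : SchiB f χ = ∑ u : (ZMod M)ˣ, χ⁻¹ (u : ZMod M) * P u := by
      unfold SchiB
      rw [hP]
      simp only [mul_sub]
      rw [Finset.sum_sub_distrib, ← Finset.sum_mul, hsum0, zero_mul, sub_zero]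
    have h2 : ∑ u : (ZMod M)ˣ, χ⁻¹ (u : ZMod M) * (starRingEnd ℂ) (P u) = s * SchiB f χ := by
      rw [hS, ← Equiv.sum_comp (Equiv.neg (ZMod M)ˣ), Finset.mul_sum]
      refine Finset.sum_congr rfl fun u _ => ?_
      rw [Equiv.neg_apply, hPneg, Complex.conj_conj, Units.val_neg, ← neg_one_mul (u : ZMod M),
        map_mul, hinv]
      ring
    have h3 := two_Lh hM hs hk2 hχ
    have h4 : ∑ u : (ZMod M)ˣ, χ⁻¹ (u : ZMod M) * (P u + s * (starRingEnd ℂ) (P u)) =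
        Ω * ∑ u : (ZMod M)ˣ, χ⁻¹ (u : ZMod M) * k u := by
      rw [Finset.mul_sum]
      refine Finset.sum_congr rfl fun u _ => ?_
      rw [hk]
      ring
    have h5 : ∑ u : (ZMod M)ˣ, χ⁻¹ (u : ZMod M) * (P u + s * (starRingEnd ℂ) (P u)) =
        SchiB f χ + s * (s * SchiB f χ) := by
      rw [← h2, hS, Finset.mul_sum, ← Finset.sum_add_distrib]
      refine Finset.sum_congr rfl fun u _ => ?_
      ring
    rw [h3, h5] at h4
    linear_combination (1 / 2 : ℂ) * h4 - (1 / 2 : ℂ) * SchiB f χ * hss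

/-- if `p` divides all differences of `k`, then the symbol is constant modulo `p` -/
theorem const_of_k {p e w : ℕ} (h : GoodW p e w) (t : ℕ) {s Ω : ℂ} (hΩ0 : Ω ≠ 0)
    {K : ℚ × ℚ → ℤ} {D : ℤ} (hKs : IsIntSym N D K) (hK : ∀ z, ((D : ℤ) : ℂ) * PhiC f s z = K z * Ω)
    {k : (ZMod (p ^ (t + 1 + e)))ˣ → ℤ}
    (hk : ∀ u : (ZMod (p ^ (t + 1 + e)))ˣ, PhiC f s (((u : ZMod (p ^ (t + 1 + e))).val : ℚ), ((p ^ (t + 1 + e) : ℕ) : ℚ)) -
      PhiC f s (0, 1) = k u * Ω)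
    (hall : ∀ b : (ZMod (p ^ (t + 1 + e)))ˣ, (p : ℤ) ∣ k (b * gW h (t + 1) ^ (p ^ t)) - k b) :
    Const p K (t + e) := by
  have hM0 : NeZero (p ^ (t + 1 + e)) := ⟨pow_ne_zero _ h.prime.ne_zero⟩
  have hte : t + e + 1 = t + 1 + e := by ring
  have hDk : ∀ u : (ZMod (p ^ (t + 1 + e)))ˣ, D * k u =
      K (((u : ZMod (p ^ (t + 1 + e))).val : ℚ), (p : ℚ) ^ (t + e + 1)) - K (0, 1) := by
    intro u
    have h1 : ((D * k u : ℤ) : ℂ) * Ω =
        ((K (((u : ZMod (p ^ (t + 1 + e))).val : ℚ), (p : ℚ) ^ (t + e + 1)) - K (0, 1) : ℤ) : ℂ) * Ω := by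
      push_cast
      rw [sub_mul, ← hK, ← hK, mul_assoc, ← hk u, hte]
      push_cast
      ring
    exact_mod_cast mul_right_cancel₀ hΩ0 h1
  -- the value at an integer
  have hval : ∀ a : ℤ, ¬ (p : ℤ) ∣ a → ∃ u : (ZMod (p ^ (t + 1 + e)))ˣ,
      (((p : ℤ) ^ (t + 1 + e)) ∣ ((u : ZMod (p ^ (t + 1 + e))).val : ℤ) - a) ∧
      K ((a : ℚ), (p : ℚ) ^ (t + e + 1)) =
        K (((u : ZMod (p ^ (t + 1 + e))).val : ℚ), (p : ℚ) ^ (t + e + 1)) := by
    intro a ha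
    have hu : IsUnit ((a : ℤ) : ZMod (p ^ (t + 1 + e))) := by
      rw [ZMod.coe_int_isUnit_iff_isCoprime]
      push_cast
      exact ((Nat.prime_iff_prime_int.1 h.prime).coprime_iff_not_dvd.2 ha).pow_left
    obtain ⟨u, hu⟩ := hu
    have hd : ((p : ℤ) ^ (t + 1 + e)) ∣ ((u : ZMod (p ^ (t + 1 + e))).val : ℤ) - a := by
      have h1 : ((((u : ZMod (p ^ (t + 1 + e))).val : ℤ) - a : ℤ) : ZMod (p ^ (t + 1 + e))) = 0 := by
        push_cast
        rw [ZMod.natCast_zmod_val, hu, sub_self]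
      rw [ZMod.intCast_zmod_eq_zero_iff_dvd] at h1
      push_cast at h1
      exact h1
    refine ⟨u, hd, ?_⟩
    have h2 := K_congr hKs (p := p) (n := t + e + 1) (a := a)
      (a' := ((u : ZMod (p ^ (t + 1 + e))).val : ℤ)) (by rw [hte]; exact hd)
    push_cast at h2
    exact h2.symm
  intro a a' ha ha' haa
  obtain ⟨u, hu, hKu⟩ := hval a ha
  obtain ⟨v, hv, hKv⟩ := hval a' ha'
  have hdd : ((p : ℤ) ^ (t + e)) ∣ ((v : ZMod (p ^ (t + 1 + e))).val : ℤ) -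
      ((u : ZMod (p ^ (t + 1 + e))).val : ℤ) := by
    have h1 : (p : ℤ) ^ (t + e) ∣ (p : ℤ) ^ (t + 1 + e) := pow_dvd_pow _ (by omega)
    have h2 := dvd_add (dvd_sub (h1.trans hv) (h1.trans hu)) haa
    have h3 : ((v : ZMod (p ^ (t + 1 + e))).val : ℤ) - ((u : ZMod (p ^ (t + 1 + e))).val : ℤ) =
        ((v : ZMod (p ^ (t + 1 + e))).val : ℤ) - a' - (((u : ZMod (p ^ (t + 1 + e))).val : ℤ) - a) +
        (a' - a) := by ring
    rw [h3]
    exact h2
  obtain ⟨j, hj⟩ := wild_kernel h t hdd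
  have h3 := wild_iter h t hall u j
  rw [← hj] at h3
  rw [hKu, hKv]
  have h4 : K (((v : ZMod (p ^ (t + 1 + e))).val : ℚ), (p : ℚ) ^ (t + e + 1)) -
      K (((u : ZMod (p ^ (t + 1 + e))).val : ℚ), (p : ℚ) ^ (t + e + 1)) = D * (k v - k u) := by
    have h5 := hDk u
    have h6 := hDk v
    linear_combination h5 - h6
  rw [h4]
  exact h3.mul_left _

end Pool.Agent.H503.MU
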