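import Pool.Agent.H503.MU.Cusp

/-!
# Hecke operators and the values at the cusps
-/

set_option autoImplicit false
set_option linter.unusedSectionVars false

open Complex UpperHalfPlane MatrixGroups CongruenceSubgroup Filter Topology ModularForm

namespace Pool.Agent.H503.MU

open Pool.Agent.H503.TA

variable {N : ℕ} [NeZero N]
variable (f : CuspForm (Gamma0 N : Subgroup (GL (Fin 2) ℝ)) 2)

/-- the Hecke relation at `l` -/
def HeckeAt {N : ℕ} (f : CuspForm (Gamma0 N : Subgroup (GL (Fin 2) ℝ)) 2) (l : ℕ) (a : ℂ) : Prop :=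
  ∀ m : ℕ, coef f (l * m) + (if l ∣ m then (l : ℂ) * coef f (m / l) else 0) = a * coef f m

lemma hasSum_prim {w : ℂ} (hw : 0 < w.im) :
    HasSum (fun n : ℕ => coef f n / n * Complex.exp (2 * Real.pi * Complex.I * n * w)) (prim f w) := by
  have h : Summable fun n : ℕ => coef f n / n * Complex.exp (2 * Real.pi * Complex.I * n * w) :=
    Summable.of_norm_bounded (summable_coef f (half_pos hw)) fun n => term_le f n (half_lt_self hw)
  exact h.hasSum

lemma sum_roots {l : ℕ} (hl : 0 < l) (n : ℕ) :
    ∑ i ∈ Finset.range l, Complex.exp (2 * Real.pi * Complex.I * n * (i / l)) =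
      if l ∣ n then (l : ℂ) else 0 := by
  have hlc : (l : ℂ) ≠ 0 := by exact_mod_cast hl.ne'
  set ζ : ℂ := Complex.exp (2 * Real.pi * Complex.I * n / l) with hζ
  have h1 : ∀ i : ℕ, Complex.exp (2 * Real.pi * Complex.I * n * (i / l)) = ζ ^ i := by
    intro i
    rw [hζ, ← Complex.exp_nat_mul]
    congr 1
    ring
  have h2 : ζ ^ l = 1 := by
    rw [← h1]
    have : (2 * Real.pi * Complex.I * n * (l / l) : ℂ) = n * (2 * Real.pi * Complex.I) := by
      field_simp
    rw [this, Complex.exp_nat_mul_two_pi_mul_I]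
  simp only [h1]
  split_ifs with hd
  · obtain ⟨m, rfl⟩ := hd
    have h3 : ζ = 1 := by
      rw [hζ]
      have : (2 * Real.pi * Complex.I * ((l * m : ℕ) : ℂ) / l : ℂ) = m * (2 * Real.pi * Complex.I) := by
        push_cast
        field_simp
      rw [this, Complex.exp_nat_mul_two_pi_mul_I]
    simp [h3]
  · have h3 : ζ ≠ 1 := by
      intro h
      rw [hζ, Complex.exp_eq_one_iff] at h
      obtain ⟨k, hk⟩ := h
      have h2pi : (2 * Real.pi * Complex.I : ℂ) ≠ 0 := Complex.two_pi_I_ne_zero
      have h4 : (n : ℂ) = k * l := by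
        have : (2 * Real.pi * Complex.I : ℂ) * n = (2 * Real.pi * Complex.I) * (k * l) := by
          field_simp at hk
          linear_combination (2 * Real.pi * Complex.I) * hk
        exact mul_left_cancel₀ h2pi this
      have h5 : (n : ℤ) = k * l := by exact_mod_cast h4
      apply hd
      have h6 : (l : ℤ) ∣ n := ⟨k, by rw [h5]; ring⟩
      exact_mod_cast h6
    rw [geom_sum_eq h3, h2, sub_self, zero_div]

theorem prim_hecke {l : ℕ} (hl : 0 < l) {a : ℂ} (hH : HeckeAt f l a) {w : ℂ} (hw : 0 < w.im) :
    prim f (l * w) + ∑ i ∈ Finset.range l, prim f ((w + i) / l) = a * prim f w := by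
  have hlc : (l : ℂ) ≠ 0 := by exact_mod_cast hl.ne'
  have hlr : (0 : ℝ) < l := by exact_mod_cast hl
  have hinj : Function.Injective (fun n : ℕ => l * n) := fun a b h => Nat.eq_of_mul_eq_mul_left hl h
  -- the first sum
  have hw1 : 0 < (l * w : ℂ).im := by
    have : (l * w : ℂ).im = l * w.im := by simp
    rw [this]
    positivity
  have h1 : HasSum (fun m : ℕ => if l ∣ m then (l * coef f (m / l)) / m *
      Complex.exp (2 * Real.pi * Complex.I * m * w) else 0) (prim f (l * w)) := by
    rw [← hinj.hasSum_iff]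
    · refine (hasSum_prim f hw1).congr_fun fun n => ?_
      simp only [Function.comp_apply]
      rw [if_pos (dvd_mul_right l n), Nat.mul_div_cancel_left n hl]
      have h2 : (l * coef f n) / ((l * n : ℕ) : ℂ) = coef f n / n := by
        push_cast
        rw [mul_div_mul_left _ _ hlc]
      rw [h2]
      congr 2
      push_cast
      ring
    · intro x hx
      rw [if_neg]
      intro hd
      obtain ⟨n, rfl⟩ := hd
      exact hx ⟨n, rfl⟩
  -- the second sum
  have hw2 : ∀ i : ℕ, 0 < ((w + i) / l : ℂ).im := by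
    intro i
    have : ((w + i) / l : ℂ).im = w.im / l := by
      rw [show ((w + i) / l : ℂ) = (w + i) / ((l : ℝ) : ℂ) by push_cast; rfl,
        Complex.div_ofReal_im]
      simp
    rw [this]
    positivity
  have h2 : HasSum (fun n : ℕ => ∑ i ∈ Finset.range l, coef f n / n *
      Complex.exp (2 * Real.pi * Complex.I * n * ((w + i) / l)))
      (∑ i ∈ Finset.range l, prim f ((w + i) / l)) :=
    hasSum_sum fun i _ => hasSum_prim f (hw2 i)
  have h3 : HasSum (fun m : ℕ => coef f (l * m) / m *
      Complex.exp (2 * Real.pi * Complex.I * m * w)) (∑ i ∈ Finset.range l, prim f ((w + i) / l)) := by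
    have h4 : ∀ n : ℕ, (∑ i ∈ Finset.range l, coef f n / n *
        Complex.exp (2 * Real.pi * Complex.I * n * ((w + i) / l))) =
        coef f n / n * Complex.exp (2 * Real.pi * Complex.I * n * (w / l)) *
          (if l ∣ n then (l : ℂ) else 0) := by
      intro n
      rw [← sum_roots hl n, Finset.mul_sum]
      refine Finset.sum_congr rfl fun i _ => ?_
      have h7 : (2 * Real.pi * Complex.I * n * ((w + i) / l) : ℂ) =
          2 * Real.pi * Complex.I * n * (w / l) + 2 * Real.pi * Complex.I * n * (i / l) := by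
        ring
      rw [h7, Complex.exp_add]
      ring
    simp only [h4] at h2
    rw [← hinj.hasSum_iff] at h2
    · refine h2.congr_fun fun n => ?_
      simp only [Function.comp_apply]
      rw [if_pos (dvd_mul_right l n)]
      have h5 : (2 * Real.pi * Complex.I * ((l * n : ℕ) : ℂ) * (w / l) : ℂ) =
          2 * Real.pi * Complex.I * n * w := by
        push_cast
        field_simp
      rw [h5]
      rcases Nat.eq_zero_or_pos n with rfl | hn
      · simp
      · have hnc : (n : ℂ) ≠ 0 := by exact_mod_cast hn.ne'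
        push_cast
        field_simp
    · intro x hx
      rw [if_neg, mul_zero]
      intro hd
      obtain ⟨n, rfl⟩ := hd
      exact hx ⟨n, rfl⟩
  have h5 := h1.add h3
  refine h5.unique (((hasSum_prim f hw).mul_left a).congr_fun fun m => ?_)
  have h6 := hH m
  split_ifs at h6 ⊢ with hd
  · rw [← mul_assoc, mul_div_assoc', ← h6]
    ring
  · rw [← mul_assoc, mul_div_assoc', ← h6]
    ring

/-- the Hecke relation for the symbol -/
theorem PsiC_hecke {l : ℕ} (hl : 0 < l) {a : ℂ} (hH : HeckeAt f l a) (x y : ℚ) :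
    PsiC f (l * x, y) + ∑ i ∈ Finset.range l, PsiC f (x + i * y, l * y) = a * PsiC f (x, y) := by
  have hlc : (l : ℂ) ≠ 0 := by exact_mod_cast hl.ne'
  have hlr : (0 : ℝ) < l := by exact_mod_cast hl
  have hlq : (l : ℚ) ≠ 0 := by exact_mod_cast hl.ne'
  by_cases hy : y = 0
  · subst hy
    simp only [mul_zero, add_zero, PsiC_inf, Finset.sum_const_zero]
  · have hly : (l : ℚ) * y ≠ 0 := mul_ne_zero hlq hy
    have h0 := (PsiC_vert f x hy).const_mul a
    refine tendsto_nhds_unique ?_ h0
    have hsc : Tendsto (fun ε : ℝ => (l : ℝ) * ε) (𝓝[>] 0) (𝓝[>] 0) := by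
      rw [tendsto_nhdsWithin_iff]
      constructor
      · have : Tendsto (fun ε : ℝ => (l : ℝ) * ε) (𝓝 0) (𝓝 ((l : ℝ) * 0)) :=
          (continuous_const.mul continuous_id).tendsto 0
        rw [mul_zero] at this
        exact this.mono_left nhdsWithin_le_nhds
      · filter_upwards [self_mem_nhdsWithin] with ε hε
        exact mul_pos hlr hε
    have hsc' : Tendsto (fun ε : ℝ => ε / (l : ℝ)) (𝓝[>] 0) (𝓝[>] 0) := by
      rw [tendsto_nhdsWithin_iff]
      constructor
      · have : Tendsto (fun ε : ℝ => ε / (l : ℝ)) (𝓝 0) (𝓝 (0 / (l : ℝ))) :=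
          (continuous_id.div_const _).tendsto 0
        rw [zero_div] at this
        exact this.mono_left nhdsWithin_le_nhds
      · filter_upwards [self_mem_nhdsWithin] with ε hε
        exact div_pos hε hlr
    have h1 := (PsiC_vert f (l * x) hy).comp hsc
    have h2 : ∀ i ∈ Finset.range l, Tendsto (fun ε : ℝ =>
        prim f ((((x + i * y) / (l * y) : ℚ) : ℂ) + ((ε / l : ℝ) : ℂ) * Complex.I)) (𝓝[>] 0)
        (𝓝 (PsiC f (x + i * y, l * y))) := fun i _ =>
      (PsiC_vert f (x + i * y) hly).comp hsc'
    have h3 := h1.add (tendsto_finsetSum _ h2)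
    refine h3.congr' ?_
    filter_upwards [self_mem_nhdsWithin] with ε hε
    have hε0 : (0 : ℝ) < ε := hε
    have hw : 0 < (((x / y : ℚ) : ℂ) + ε * Complex.I).im := by
      simpa using hε0
    rw [← prim_hecke f hl hH hw]
    simp only [Function.comp_apply]
    congr 1
    · congr 1
      push_cast
      ring
    · refine Finset.sum_congr rfl fun i _ => ?_
      congr 1
      have hyc : (y : ℂ) ≠ 0 := by exact_mod_cast hy
      push_cast
      field_simp
      ring

end Pool.Agent.H503.MU
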