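import Pool.Agent.H503.MU.Meas
import Pool.Agent.H503.MU.EL

/-!
# Invariance under `Γ₀(N)[1/p]` and commutators of unipotent matrices
-/

set_option autoImplicit false
set_option linter.unusedSectionVars false

open Matrix MatrixGroups CongruenceSubgroup

namespace Pool.Agent.H503.MU

variable {F : Type*} [Field F]

/-- the scaling property -/
def IsScaled (Ψ : ℚ × ℚ → F) (p : ℕ) (α : F) : Prop :=
  ∀ x y : ℚ, (x, y) ≠ (0 : ℚ × ℚ) → Ψ (p * x, y) = α * Ψ (x, y)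

section
variable {N : ℕ} {Ψ : ℚ × ℚ → F} (hΨ : IsSym N Ψ)
variable {p : ℕ} (hp : p.Prime) (hpN : ¬ p ∣ N) [CharP F p]
variable {α : F}

include hΨ hp hpN in
theorem scaled_of_ord (hα : α ≠ 0) (hT : IsHecke Ψ p α)
    (hm : ∀ (a : ℤ) (n : ℕ), ¬ (p : ℤ) ∣ a → α * Ψ ((a : ℚ), (p : ℚ) ^ (n + 1)) =
    Ψ ((a : ℚ), (p : ℚ) ^ n)) (hα2 : α ^ 2 = 1) : IsScaled Ψ p α := by
  have hpp : Prime (p : ℤ) := Nat.prime_iff_prime_int.1 hp
  have hp0 : (p : ℚ) ≠ 0 := by exact_mod_cast hp.ne_zero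
  intro x y hxy
  by_cases hy : y = 0
  · subst hy
    have hx : x ≠ 0 := by
      rintro rfl
      exact hxy rfl
    have h1 := hΨ.hom (p * x) 1 0 (mul_ne_zero hp0 hx)
    have h2 := hΨ.hom x 1 0 hx
    rw [mul_one, mul_zero, hΨ.inf] at h1 h2
    rw [h1, h2, mul_zero]
  · -- reduction to integers
    set r : ℚ := x / y with hr
    set a : ℤ := r.num with ha
    set c : ℤ := (r.den : ℤ) with hc
    have hc0 : (c : ℚ) ≠ 0 := by
      rw [hc]
      exact_mod_cast r.den_ne_zero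
    have hrac : r = a / c := by
      rw [ha, hc]
      push_cast
      exact (Rat.num_div_den r).symm
    have hcop : IsCoprime a c := by
      rw [Int.isCoprime_iff_gcd_eq_one]
      have := r.reduced
      rw [ha, hc, Int.gcd, Int.natAbs_natCast]
      exact this
    have hyc : y / c ≠ 0 := div_ne_zero hy hc0
    have h1 : Ψ (x, y) = Ψ (a, c) := by
      rw [← hΨ.hom (y / c) a c hyc]
      congr 2
      · have : x = r * y := by rw [hr]; field_simp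
        rw [this, hrac]
        field_simp
      · field_simp
    have h2 : Ψ (p * x, y) = Ψ (p * a, c) := by
      rw [← hΨ.hom (y / c) (p * a) c hyc]
      congr 2
      · have : x = r * y := by rw [hr]; field_simp
        rw [this, hrac]
        field_simp
      · field_simp
    rw [h1, h2]
    by_cases hpc : (p : ℤ) ∣ c
    · have hpa : ¬ (p : ℤ) ∣ a := fun h => hpp.not_isUnit (hcop.isUnit_of_dvd' h hpc)
      have hcz : c ≠ 0 := by exact_mod_cast hc0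
      obtain ⟨i, c', hpc', hc'⟩ := (Int.finiteMultiplicity_iff.2 ⟨(by
        rw [Int.natAbs_natCast]
        exact hp.one_lt.ne'), hcz⟩ : FiniteMultiplicity (p : ℤ) c).exists_eq_pow_mul_and_not_dvd
        |> fun ⟨c', h1, h2⟩ => (⟨multiplicity (p : ℤ) c, c', h2, h1⟩ : ∃ i c', ¬ (p : ℤ) ∣ c' ∧
          c = (p : ℤ) ^ i * c')
      rcases i with _ | i
      · rw [pow_zero, one_mul] at hc'
        rw [hc'] at hpc
        exact absurd hpc hpc'
      · have h3 := ord_B hΨ hp hpN hα hT hm hpa hpc' (i + 1)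
        have h4 := ord_B hΨ hp hpN hα hT hm hpa hpc' i
        have h5 := ord_C hΨ hp hpN hα hT hm ((p : ℤ) ^ i * a) hpc'
        have hcq : (c : ℚ) = (p : ℚ) ^ (i + 1) * c' := by exact_mod_cast congrArg (fun n : ℤ => (n : ℚ)) hc'
        rw [hcq, h3]
        have h6 : Ψ (p * a, (p : ℚ) ^ (i + 1) * c') = Ψ (a, (p : ℚ) ^ i * c') := by
          rw [← hΨ.hom p a _ hp0]
          congr 2
          ring
        rw [h6, h4]
        push_cast at h5
        rw [h5]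
        congr 3
        ring
    · have h3 := ord_C hΨ hp hpN hα hT hm a hpc
      rw [h3, ← mul_assoc, ← sq, hα2, one_mul]

variable (hα2 : α ^ 2 = 1) (hS : IsScaled Ψ p α)

include hΨ hp hpN hα2 hS in
/-- matrices whose determinant is a power of `p` -/
theorem intmat (k : ℕ) : ∀ a b c d : ℤ, a * d - b * c = (p : ℤ) ^ k → (N : ℤ) ∣ c →
    ∃ w : F, ∀ x y : ℚ, (x, y) ≠ (0 : ℚ × ℚ) →
      Ψ (a * x + b * y, c * x + d * y) = α ^ k * Ψ (x, y) + w := by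
  have hpp : Prime (p : ℤ) := Nat.prime_iff_prime_int.1 hp
  have hp0 : (p : ℚ) ≠ 0 := by exact_mod_cast hp.ne_zero
  have hN : ¬ (p : ℤ) ∣ (N : ℤ) := by exact_mod_cast hpN
  have hne : ∀ a b c d : ℤ, ∀ k : ℕ, a * d - b * c = (p : ℤ) ^ k → ∀ x y : ℚ,
      (x, y) ≠ (0 : ℚ × ℚ) → ((a * x + b * y, c * x + d * y) : ℚ × ℚ) ≠ 0 := by
    intro a b c d k hdet x y hxy h
    rw [Prod.mk_eq_zero] at h
    apply hxy
    have h1 : ((a : ℚ) * d - b * c) = (p : ℚ) ^ k := by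
      exact_mod_cast congrArg (fun n : ℤ => (n : ℚ)) hdet
    have h2 : (p : ℚ) ^ k ≠ 0 := pow_ne_zero _ hp0
    have h3 : (p : ℚ) ^ k * x = 0 := by
      rw [← h1]
      linear_combination (d : ℚ) * h.1 - b * h.2
    have h4 : (p : ℚ) ^ k * y = 0 := by
      rw [← h1]
      linear_combination (a : ℚ) * h.2 - c * h.1
    rw [Prod.mk_eq_zero]
    exact ⟨(mul_eq_zero.1 h3).resolve_left h2, (mul_eq_zero.1 h4).resolve_left h2⟩
  induction k with
  | zero =>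
    intro a b c d hdet hc
    rw [pow_zero] at hdet
    obtain ⟨w, hw⟩ := hΨ.inv a b c d hdet hc
    exact ⟨w, fun x y hxy => by rw [hw x y hxy, pow_zero, one_mul]⟩
  | succ k ih =>
    intro a b c d hdet hc
    by_cases hcd : (p : ℤ) ∣ c ∧ (p : ℤ) ∣ d
    · obtain ⟨⟨c', rfl⟩, ⟨d', rfl⟩⟩ := hcd
      have hdet' : a * d' - b * c' = (p : ℤ) ^ k := by
        have h1 : (p : ℤ) * (a * d' - b * c') = p * (p : ℤ) ^ k := by
          rw [← pow_succ', ← hdet]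
          ring
        exact mul_left_cancel₀ hpp.ne_zero h1
      have hc' : (N : ℤ) ∣ c' := by
        have hcop : IsCoprime (N : ℤ) (p : ℤ) := (hpp.coprime_iff_not_dvd.2 hN).symm
        exact hcop.dvd_of_dvd_mul_left hc
      obtain ⟨w, hw⟩ := ih a b c' d' hdet' hc'
      refine ⟨α * w, fun x y hxy => ?_⟩
      have h1 := hw x y hxy
      have h2 := hS _ _ (hne _ _ _ _ _ hdet' x y hxy)
      have h2' : ((p : ℚ) * (a * x + b * y), (p : ℚ) * (c' * x + d' * y)) ≠ (0 : ℚ × ℚ) := by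
        intro h
        rw [Prod.mk_eq_zero] at h
        exact hne _ _ _ _ _ hdet' x y hxy (Prod.mk_eq_zero.2
          ⟨(mul_eq_zero.1 h.1).resolve_left hp0, (mul_eq_zero.1 h.2).resolve_left hp0⟩)
      -- `Ψ (X, Y) = Ψ (p X, p Y) = α Ψ (X, p Y)`
      have h3 : ((a * x + b * y, (p : ℚ) * (c' * x + d' * y)) : ℚ × ℚ) ≠ 0 := by
        intro h
        rw [Prod.mk_eq_zero] at h
        exact hne _ _ _ _ _ hdet' x y hxy (Prod.mk_eq_zero.2
          ⟨h.1, (mul_eq_zero.1 h.2).resolve_left hp0⟩)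
      have h4 := hS _ _ h3
      rw [hΨ.hom p _ _ hp0, h1] at h4
      have h5 : Ψ (a * x + b * y, (p : ℚ) * (c' * x + d' * y)) = α * (α ^ k * Ψ (x, y) + w) := by
        rw [h4, ← mul_assoc, ← sq, hα2, one_mul]
      push_cast
      have h6 : ((p : ℚ) * c' * x + p * d' * y) = p * (c' * x + d' * y) := by ring
      rw [h6, h5]
      ring
    · -- the rows are dependent modulo `p`
      obtain ⟨t, ht1, ht2⟩ : ∃ t : ℤ, (p : ℤ) ∣ a + t * c ∧ (p : ℤ) ∣ b + t * d := by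
        have hpd : (p : ℤ) ∣ a * d - b * c := by
          rw [hdet]
          exact dvd_pow_self _ (Nat.succ_ne_zero k)
        by_cases h1 : (p : ℤ) ∣ c
        · have h2 : ¬ (p : ℤ) ∣ d := fun h => hcd ⟨h1, h⟩
          obtain ⟨u, v, huv⟩ := hpp.coprime_iff_not_dvd.2 h2
          -- `u p + v d = 1`
          refine ⟨-b * v, ?_, ?_⟩
          · have h3 : (p : ℤ) ∣ d * (a + -b * v * c) := by
              have h4 : d * (a + -b * v * c) = (a * d - b * c) + b * c * (u * p) := by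
                linear_combination (b * c) * (-huv)
              rw [h4]
              exact dvd_add hpd ⟨b * c * u, by ring⟩
            exact (hpp.dvd_or_dvd h3).resolve_left h2
          · exact ⟨b * u, by linear_combination (-b) * huv⟩
        · obtain ⟨u, v, huv⟩ := hpp.coprime_iff_not_dvd.2 h1
          refine ⟨-a * v, ?_, ?_⟩
          · exact ⟨a * u, by linear_combination (-a) * huv⟩
          · have h3 : (p : ℤ) ∣ c * (b + -a * v * d) := by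
              have h4 : c * (b + -a * v * d) = -(a * d - b * c) + a * d * (u * p) := by
                linear_combination (a * d) * (-huv)
              rw [h4]
              exact dvd_add ((dvd_neg).2 hpd) ⟨a * d * u, by ring⟩
            exact (hpp.dvd_or_dvd h3).resolve_left h1
      obtain ⟨a', ha'⟩ := ht1
      obtain ⟨b', hb'⟩ := ht2
      have hdet' : a' * d - b' * c = (p : ℤ) ^ k := by
        have h1 : (p : ℤ) * (a' * d - b' * c) = p * (p : ℤ) ^ k := by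
          rw [← pow_succ', ← hdet]
          linear_combination (-d) * ha' + c * hb'
        exact mul_left_cancel₀ hpp.ne_zero h1
      obtain ⟨w, hw⟩ := ih a' b' c d hdet' hc
      refine ⟨α * w, fun x y hxy => ?_⟩
      have h1 := hw x y hxy
      have h2 := hS _ _ (hne _ _ _ _ _ hdet' x y hxy)
      have h3 := sym_T hΨ t (a * x + b * y) (c * x + d * y)
      have ha'q : (a : ℚ) + t * c = p * a' := by exact_mod_cast congrArg (fun n : ℤ => (n : ℚ)) ha'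
      have hb'q : (b : ℚ) + t * d = p * b' := by exact_mod_cast congrArg (fun n : ℤ => (n : ℚ)) hb'
      rw [← h3]
      have h4 : ((a : ℚ) * x + b * y + t * (c * x + d * y)) = p * (a' * x + b' * y) := by
        linear_combination x * ha'q + y * hb'q
      rw [h4, h2, h1]
      ring

/-- quasi-invariance -/
def Qs (Ψ : ℚ × ℚ → F) (M : SL(2, ℚ)) : Prop := ∃ w : F, ∀ z, z ≠ 0 → Ψ (act M z) = Ψ z + w

lemma Z_of_fixed {M : SL(2, ℚ)} (hM : Qs Ψ M) {z : ℚ × ℚ} (hz : z ≠ 0)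
    (hf : Ψ (act M z) = Ψ z) : M ∈ Z Ψ := by
  obtain ⟨w, hw⟩ := hM
  have h1 := hw z hz
  rw [hf] at h1
  have h2 : w = 0 := left_eq_add.1 h1
  intro z' hz'
  rw [hw z' hz', h2, add_zero]

include hΨ hp hpN hα2 hS in
lemma Qs_of {M : SL(2, ℚ)} {m : ℕ} {A B C D : ℤ} (hA : (A : ℚ) = (p : ℚ) ^ m * M 0 0)
    (hB : (B : ℚ) = (p : ℚ) ^ m * M 0 1) (hC : (C : ℚ) = (p : ℚ) ^ m * M 1 0)
    (hD : (D : ℚ) = (p : ℚ) ^ m * M 1 1) (hN : (N : ℤ) ∣ C) : Qs Ψ M := by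
  have hp0 : (p : ℚ) ≠ 0 := by exact_mod_cast hp.ne_zero
  have hdetM : M 0 0 * M 1 1 - M 0 1 * M 1 0 = 1 := by
    have := M.det_coe
    rwa [Matrix.det_fin_two] at this
  have hdet : A * D - B * C = (p : ℤ) ^ (2 * m) := by
    have : ((A : ℚ) * D - B * C) = (p : ℚ) ^ (2 * m) := by
      rw [hA, hB, hC, hD, pow_mul']
      linear_combination ((p : ℚ) ^ m) ^ 2 * hdetM
    exact_mod_cast this
  obtain ⟨w, hw⟩ := intmat hΨ hp hpN hα2 hS (2 * m) A B C D hdet hN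
  refine ⟨w, fun z hz => ?_⟩
  have h1 := hw z.1 z.2 hz
  rw [pow_mul, hα2, one_pow, one_mul] at h1
  rw [← h1, hA, hB, hC, hD]
  have h2 := hΨ.hom ((p : ℚ) ^ m) (act M z).1 (act M z).2 (pow_ne_zero _ hp0)
  rw [← h2]
  congr 2
  · simp only [act]
    ring
  · simp only [act]
    ring

lemma conj_entries (g : SL(2, ℤ)) (x : SL(2, ℚ)) :
    (toQ g * x * (toQ g)⁻¹) 0 0 = ((g 0 0 : ℤ) * x 0 0 + (g 0 1 : ℤ) * x 1 0) * (g 1 1 : ℤ) -
        ((g 0 0 : ℤ) * x 0 1 + (g 0 1 : ℤ) * x 1 1) * (g 1 0 : ℤ) ∧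
    (toQ g * x * (toQ g)⁻¹) 0 1 = -((g 0 0 : ℤ) * x 0 0 + (g 0 1 : ℤ) * x 1 0) * (g 0 1 : ℤ) +
        ((g 0 0 : ℤ) * x 0 1 + (g 0 1 : ℤ) * x 1 1) * (g 0 0 : ℤ) ∧
    (toQ g * x * (toQ g)⁻¹) 1 0 = ((g 1 0 : ℤ) * x 0 0 + (g 1 1 : ℤ) * x 1 0) * (g 1 1 : ℤ) -
        ((g 1 0 : ℤ) * x 0 1 + (g 1 1 : ℤ) * x 1 1) * (g 1 0 : ℤ) ∧
    (toQ g * x * (toQ g)⁻¹) 1 1 = -((g 1 0 : ℤ) * x 0 0 + (g 1 1 : ℤ) * x 1 0) * (g 0 1 : ℤ) +
        ((g 1 0 : ℤ) * x 0 1 + (g 1 1 : ℤ) * x 1 1) * (g 0 0 : ℤ) := by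
  have hmul : ∀ (a b : SL(2, ℚ)) (i j : Fin 2), (a * b) i j = a i 0 * b 0 j + a i 1 * b 1 j := by
    intro a b i j
    rw [Matrix.SpecialLinearGroup.coe_mul, Matrix.mul_apply, Fin.sum_univ_two]
  have hinv : ∀ a : SL(2, ℚ), a⁻¹ 0 0 = a 1 1 ∧ a⁻¹ 0 1 = -a 0 1 ∧ a⁻¹ 1 0 = -a 1 0 ∧
      a⁻¹ 1 1 = a 0 0 := by
    intro a
    rw [Matrix.SpecialLinearGroup.SL2_inv_expl]
    simp
  obtain ⟨h00, h01, h10, h11⟩ := hinv (toQ g)
  have e00 : toQ g 0 0 = ((g 0 0 : ℤ) : ℚ) := rfl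
  have e01 : toQ g 0 1 = ((g 0 1 : ℤ) : ℚ) := rfl
  have e10 : toQ g 1 0 = ((g 1 0 : ℤ) : ℚ) := rfl
  have e11 : toQ g 1 1 = ((g 1 1 : ℤ) : ℚ) := rfl
  simp only [hmul, h00, h01, h10, h11, e00, e01, e10, e11]
  refine ⟨by ring, by ring, by ring, by ring⟩

lemma detZ (g : SL(2, ℤ)) : g 0 0 * g 1 1 - g 0 1 * g 1 0 = 1 := by
  have := g.det_coe
  rwa [Matrix.det_fin_two] at this

lemma col_ne (g : SL(2, ℤ)) : (((g 0 0 : ℤ) : ℚ), ((g 1 0 : ℤ) : ℚ)) ≠ (0 : ℚ × ℚ) := by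
  intro h
  rw [Prod.mk_eq_zero] at h
  have h1 := detZ g
  have h2 : g 0 0 = 0 := by exact_mod_cast h.1
  have h3 : g 1 0 = 0 := by exact_mod_cast h.2
  rw [h2, h3] at h1
  simp at h1

include hΨ hp hpN hα2 hS in
/-- unipotent matrices -/
lemma up_mem {a : ℚ} {m : ℕ} {n : ℤ} (ha : (p : ℚ) ^ m * a = N * n) : up a ∈ Z0 Ψ := by
  intro g
  have hd : ((g 0 0 : ℤ) : ℚ) * (g 1 1 : ℤ) - (g 0 1 : ℤ) * (g 1 0 : ℤ) = 1 := by
    exact_mod_cast congrArg (fun n : ℤ => (n : ℚ)) (detZ g)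
  obtain ⟨e1, e2, e3, e4⟩ := conj_entries g (up a)
  have u00 : up a 0 0 = 1 := rfl
  have u01 : up a 0 1 = a := rfl
  have u10 : up a 1 0 = 0 := rfl
  have u11 : up a 1 1 = 1 := rfl
  rw [u00, u01, u10, u11] at e1 e2 e3 e4
  have hQ : Qs Ψ (toQ g * up a * (toQ g)⁻¹) := by
    refine Qs_of hΨ hp hpN hα2 hS (m := m) (A := (p : ℤ) ^ m - N * n * g 0 0 * g 1 0)
      (B := N * n * g 0 0 ^ 2) (C := -(N * n * g 1 0 ^ 2)) (D := (p : ℤ) ^ m + N * n * g 0 0 * g 1 0)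
      ?_ ?_ ?_ ?_ ⟨-(n * g 1 0 ^ 2), by ring⟩
    · rw [e1]
      push_cast
      rw [← ha]
      linear_combination (-(p : ℚ) ^ m) * hd
    · rw [e2]
      push_cast
      rw [← ha]
      ring
    · rw [e3]
      push_cast
      rw [← ha]
      ring
    · rw [e4]
      push_cast
      rw [← ha]
      linear_combination (-(p : ℚ) ^ m) * hd
  refine Z_of_fixed hQ (col_ne g) ?_
  congr 1
  ext
  · simp only [act]
    rw [e1, e2]
    linear_combination ((g 0 0 : ℤ) : ℚ) * hd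
  · simp only [act]
    rw [e3, e4]
    linear_combination ((g 1 0 : ℤ) : ℚ) * hd

/-- the matrix `S` -/
def Smat : SL(2, ℤ) := ⟨!![0, -1; 1, 0], by simp⟩

lemma act_Smat (z : ℚ × ℚ) : act (toQ Smat) z = (-z.2, z.1) := by
  rw [act_toQ]
  have e00 : Smat 0 0 = 0 := rfl
  have e01 : Smat 0 1 = -1 := rfl
  have e10 : Smat 1 0 = 1 := rfl
  have e11 : Smat 1 1 = 0 := rfl
  rw [e00, e01, e10, e11]
  ext <;> simp

lemma S_conj_up (a : ℚ) : toQ Smat * up a * (toQ Smat)⁻¹ = lo (-a) := by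
  rw [mul_inv_eq_iff_eq_mul]
  apply ext_act
  · rw [act_mul, act_mul, act_up, act_Smat, act_Smat, act_lo]
    ext <;> simp
  · rw [act_mul, act_mul, act_up, act_Smat, act_Smat, act_lo]
    ext <;> simp

lemma S_conj_lo (a : ℚ) : toQ Smat * lo a * (toQ Smat)⁻¹ = up (-a) := by
  rw [mul_inv_eq_iff_eq_mul]
  apply ext_act
  · rw [act_mul, act_mul, act_up, act_Smat, act_Smat, act_lo]
    ext <;> simp
  · rw [act_mul, act_mul, act_up, act_Smat, act_Smat, act_lo]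
    ext <;> simp

include hΨ hp hpN hα2 hS in
lemma lo_mem {a : ℚ} {m : ℕ} {n : ℤ} (ha : (p : ℚ) ^ m * a = N * n) : lo a ∈ Z0 Ψ := by
  have h1 : up (-a) ∈ Z0 Ψ := up_mem hΨ hp hpN hα2 hS (a := -a) (m := m) (n := -n) (by
    push_cast
    linear_combination -ha)
  have h2 := Z0_conj h1 Smat
  rwa [S_conj_up, neg_neg] at h2

include hΨ hp hpN hα2 hS in
lemma dg_mem {k : ℕ} (hk : (N : ℤ) ∣ (p : ℤ) ^ k - 1) (hu : ((p : ℚ) ^ k) ≠ 0) :
    dg ((p : ℚ) ^ k) hu ∈ Z0 Ψ := by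
  intro g
  obtain ⟨n, hn⟩ := hk
  have hnq : (p : ℚ) ^ k - 1 = N * n := by exact_mod_cast congrArg (fun n : ℤ => (n : ℚ)) hn
  have hd : ((g 0 0 : ℤ) : ℚ) * (g 1 1 : ℤ) - (g 0 1 : ℤ) * (g 1 0 : ℤ) = 1 := by
    exact_mod_cast congrArg (fun n : ℤ => (n : ℚ)) (detZ g)
  obtain ⟨e1, e2, e3, e4⟩ := conj_entries g (dg ((p : ℚ) ^ k) hu)
  have u00 : dg ((p : ℚ) ^ k) hu 0 0 = (p : ℚ) ^ k := rfl
  have u01 : dg ((p : ℚ) ^ k) hu 0 1 = 0 := rfl
  have u10 : dg ((p : ℚ) ^ k) hu 1 0 = 0 := rfl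
  have u11 : dg ((p : ℚ) ^ k) hu 1 1 = ((p : ℚ) ^ k)⁻¹ := rfl
  rw [u00, u01, u10, u11] at e1 e2 e3 e4
  have hQ : Qs Ψ (toQ g * dg ((p : ℚ) ^ k) hu * (toQ g)⁻¹) := by
    refine Qs_of hΨ hp hpN hα2 hS (m := k)
      (A := (p : ℤ) ^ k * (p : ℤ) ^ k * g 0 0 * g 1 1 - g 0 1 * g 1 0)
      (B := -((p : ℤ) ^ k * (p : ℤ) ^ k * g 0 0 * g 0 1) + g 0 1 * g 0 0)
      (C := N * (n * ((p : ℤ) ^ k + 1) * g 1 0 * g 1 1))
      (D := -((p : ℤ) ^ k * (p : ℤ) ^ k * g 1 0 * g 0 1) + g 1 1 * g 0 0)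
      ?_ ?_ ?_ ?_ ⟨_, rfl⟩
    · rw [e1]
      push_cast
      field_simp
      ring
    · rw [e2]
      push_cast
      field_simp
      ring
    · rw [e3]
      push_cast
      field_simp
      linear_combination (-((p : ℚ) ^ k + 1) * (g 1 0 : ℤ) * (g 1 1 : ℤ)) * hnq
    · rw [e4]
      push_cast
      field_simp
      ring
  refine Z_of_fixed hQ (col_ne g) ?_
  have h1 := hΨ.hom ((p : ℚ) ^ k) ((g 0 0 : ℤ) : ℚ) ((g 1 0 : ℤ) : ℚ) hu
  rw [← h1]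
  congr 1
  ext
  · simp only [act]
    rw [e1, e2]
    linear_combination ((p : ℚ) ^ k * ((g 0 0 : ℤ) : ℚ)) * hd
  · simp only [act]
    rw [e3, e4]
    linear_combination ((p : ℚ) ^ k * ((g 1 0 : ℤ) : ℚ)) * hd

include hΨ in
/-- integral matrices congruent to one with a fixed point -/
lemma int_mem {x : SL(2, ℤ)} (h00 : (N : ℤ) ∣ x 0 0 - 1) (h01 : (N : ℤ) ∣ x 0 1)
    (h10 : (N : ℤ) ∣ x 1 0) (h11 : (N : ℤ) ∣ x 1 1 - 1) {z : ℚ × ℚ} (hz : z ≠ 0)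
    (hf : act (toQ x) z = z) : toQ x ∈ Z0 Ψ := by
  intro g
  have hc : (N : ℤ) ∣ (g * x * g⁻¹) 1 0 := by
    have hmul : ∀ (a b : SL(2, ℤ)) (i j : Fin 2), (a * b) i j = a i 0 * b 0 j + a i 1 * b 1 j := by
      intro a b i j
      rw [Matrix.SpecialLinearGroup.coe_mul, Matrix.mul_apply, Fin.sum_univ_two]
    have hinv : g⁻¹ 0 0 = g 1 1 ∧ g⁻¹ 1 0 = -g 1 0 := by
      rw [Matrix.SpecialLinearGroup.SL2_inv_expl]
      simp
    obtain ⟨a, ha⟩ := h00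
    obtain ⟨b, hb⟩ := h01
    obtain ⟨c, hc⟩ := h10
    obtain ⟨d, hd⟩ := h11
    rw [hmul, hmul, hmul, hinv.1, hinv.2, hb, hc, eq_add_of_sub_eq ha, eq_add_of_sub_eq hd]
    exact ⟨(g 1 0 * a + g 1 1 * c) * g 1 1 - (g 1 0 * b + g 1 1 * d) * g 1 0, by ring⟩
  have hdet := detZ (g * x * g⁻¹)
  obtain ⟨w, hw⟩ := hΨ.inv _ _ _ _ hdet hc
  have hQ : Qs Ψ (toQ g * toQ x * (toQ g)⁻¹) := by
    refine ⟨w, fun z hz => ?_⟩
    rw [← hw z.1 z.2 hz, ← map_mul, ← map_inv, ← map_mul, act_toQ]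
  refine Z_of_fixed hQ (act_ne (toQ g) hz) ?_
  rw [act_mul, act_mul, act_inv_act, hf]

end

end Pool.Agent.H503.MU
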