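import Pool.Agent.H503.MU.Sym

/-!
# Symbols whose values at the points `a / p^n` satisfy the distribution relation without correction
-/

set_option autoImplicit false
set_option linter.unusedSectionVars false

open Matrix MatrixGroups CongruenceSubgroup

namespace Pool.Agent.H503.MU

variable {F : Type*} [Field F]

/-- modular symbols for `Γ₀(N)`; `Ψ (x, y)` is the value of the symbol `{∞, x / y}` -/
structure IsSym (N : ℕ) (Ψ : ℚ × ℚ → F) : Prop where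
  hom : ∀ (t x y : ℚ), t ≠ 0 → Ψ (t * x, t * y) = Ψ (x, y)
  inf : Ψ (1, 0) = 0
  inv : ∀ a b c d : ℤ, a * d - b * c = 1 → (N : ℤ) ∣ c → ∃ w, ∀ x y : ℚ, (x, y) ≠ (0 : ℚ × ℚ) →
    Ψ (a * x + b * y, c * x + d * y) = Ψ (x, y) + w

/-- eigenvector of the Hecke operator -/
def IsHecke (Ψ : ℚ × ℚ → F) (l : ℕ) (a : F) : Prop :=
  ∀ x y : ℚ, (x, y) ≠ (0 : ℚ × ℚ) →
    Ψ (l * x, y) + ∑ i ∈ Finset.range l, Ψ (x + i * y, l * y) = a * Ψ (x, y)

section
variable {N : ℕ} {Ψ : ℚ × ℚ → F} (hΨ : IsSym N Ψ)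
include hΨ

lemma sym_inv {a b c d : ℤ} (h : a * d - b * c = 1) (hc : (N : ℤ) ∣ c) {x y : ℚ}
    (hxy : (x, y) ≠ (0 : ℚ × ℚ)) : Ψ (a * x + b * y, c * x + d * y) = Ψ (x, y) + Ψ (a, c) := by
  obtain ⟨w, hw⟩ := hΨ.inv a b c d h hc
  have h1 := hw 1 0 (by simp)
  rw [hΨ.inf, mul_one, mul_one, mul_zero, mul_zero, add_zero, add_zero, zero_add] at h1
  rw [hw x y hxy, h1]

lemma sym_T (n : ℤ) (x y : ℚ) : Ψ (x + n * y, y) = Ψ (x, y) := by
  by_cases hxy : (x, y) = (0 : ℚ × ℚ)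
  · rw [Prod.mk_eq_zero] at hxy
    rw [hxy.1, hxy.2, mul_zero, add_zero]
  · have h1 := sym_inv hΨ (a := 1) (b := n) (c := 0) (d := 1) (by ring) (dvd_zero _) hxy
    push_cast at h1
    rw [hΨ.inf, add_zero, one_mul, zero_mul, zero_add, one_mul] at h1
    exact h1

lemma sym_U (n : ℤ) (x y : ℚ) : Ψ (x, y + N * n * x) = Ψ (x, y) := by
  by_cases hxy : (x, y) = (0 : ℚ × ℚ)
  · rw [Prod.mk_eq_zero] at hxy
    rw [hxy.1, hxy.2, mul_zero, add_zero]
  · have h1 := sym_inv hΨ (a := 1) (b := 0) (c := N * n) (d := 1) (by ring) (dvd_mul_right _ _) hxy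
    have h2 := sym_inv hΨ (a := 1) (b := 0) (c := N * n) (d := 1) (by ring) (dvd_mul_right _ _)
      (x := 0) (y := 1) (by simp)
    push_cast at h1 h2
    have h3 : Ψ ((1 : ℚ), (N : ℚ) * n) = 0 := by
      have h4 : Ψ (1 * 0 + 0 * 1, (N : ℚ) * n * 0 + 1 * 1) = Ψ ((0 : ℚ), (1 : ℚ)) := by
        congr 2 <;> ring
      rw [h4] at h2
      exact (left_eq_add.1 h2)
    rw [h3, add_zero] at h1
    rw [← h1]
    congr 2 <;> ring

/-- the value in terms of the second column -/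
lemma sym_col {a b c d : ℤ} (h : a * d - b * c = 1) (hc : (N : ℤ) ∣ c) :
    Ψ (a, c) = Ψ (b, d) - Ψ (0, 1) := by
  have h1 := sym_inv hΨ h hc (x := 0) (y := 1) (by simp)
  rw [mul_zero, mul_zero, mul_one, mul_one, zero_add, zero_add] at h1
  rw [h1]
  ring

/-- the value at the inverse -/
lemma sym_inverse {a b c d : ℤ} (h : a * d - b * c = 1) (hc : (N : ℤ) ∣ c) :
    Ψ (d, -c) = -Ψ (a, c) := by
  have h1 := sym_inv hΨ h hc (x := d) (y := -c) (by
    rw [Ne, Prod.mk_eq_zero]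
    rintro ⟨h2, h3⟩
    have h2' : d = 0 := by exact_mod_cast h2
    have h3' : c = 0 := by exact_mod_cast neg_eq_zero.1 h3
    rw [h2', h3'] at h
    simp at h)
  have h2 : ((a : ℚ) * d + b * -c) = 1 := by
    have := congrArg (fun n : ℤ => (n : ℚ)) h
    push_cast at this
    linarith
  have h3 : ((c : ℚ) * d + d * -c) = 0 := by ring
  rw [h2, h3, hΨ.inf] at h1
  linear_combination -h1

variable {p : ℕ} (hp : p.Prime) (hpN : ¬ p ∣ N)
include hp hpN

/-- the key relation -/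
lemma sym_key {a c t : ℤ} {j k : ℕ} (hjk : j ≤ k) (ht : (p : ℤ) ^ k - 1 = N * a * c * t)
    (ha : a ≠ 0) : Ψ (a, (p : ℚ) ^ j * c) = Ψ ((p : ℚ) ^ j * a, c) -
      (Ψ (((N * a ^ 2 * t : ℤ) : ℚ), (p : ℚ) ^ (k - j)) - Ψ (0, 1)) := by
  obtain ⟨i, rfl⟩ := Nat.exists_eq_add_of_le hjk
  rw [Nat.add_sub_cancel_left]
  set A : ℤ := (p : ℤ) ^ j * (2 - (p : ℤ) ^ (j + i)) with hA
  set B : ℤ := N * a ^ 2 * t with hB
  set C : ℤ := -(N * c ^ 2 * t) with hC
  set D : ℤ := (p : ℤ) ^ i with hD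
  have hP : (p : ℤ) ^ (j + i) = (p : ℤ) ^ j * (p : ℤ) ^ i := pow_add _ _ _
  have hdet : A * D - B * C = 1 := by
    rw [hA, hB, hC, hD, hP]
    rw [hP] at ht
    linear_combination (-(p : ℤ) ^ j * (p : ℤ) ^ i + 1 - N * a * c * t) * ht
  have hNC : (N : ℤ) ∣ C := ⟨-(c ^ 2 * t), by rw [hC]; ring⟩
  have hne : ((a : ℚ), (p : ℚ) ^ j * c) ≠ (0 : ℚ × ℚ) := by
    rw [Ne, Prod.mk_eq_zero]
    rintro ⟨h1, -⟩
    exact ha (by exact_mod_cast h1)
  have h1 := sym_inv hΨ hdet hNC hne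
  have h2 := sym_col hΨ hdet hNC
  have htq : (p : ℚ) ^ (j + i) - 1 = N * a * c * t := by exact_mod_cast ht
  have hPq : (p : ℚ) ^ (j + i) = (p : ℚ) ^ j * (p : ℚ) ^ i := pow_add _ _ _
  have h3 : (A : ℚ) * a + B * ((p : ℚ) ^ j * c) = (p : ℚ) ^ j * a := by
    rw [hA, hB]
    push_cast
    linear_combination (-(p : ℚ) ^ j * a) * htq
  have h4 : (C : ℚ) * a + D * ((p : ℚ) ^ j * c) = c := by
    rw [hC, hD]
    push_cast
    rw [hPq] at htq
    linear_combination (c : ℚ) * htq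
  rw [h3, h4, h2] at h1
  have h5 : (D : ℚ) = (p : ℚ) ^ i := by rw [hD]; push_cast; rfl
  rw [h5] at h1
  linear_combination -h1

omit hΨ hpN in
lemma exists_k {m : ℤ} (hm : IsCoprime (p : ℤ) m) (j : ℕ) :
    ∃ k, j ≤ k ∧ Even k ∧ 0 < k ∧ m ∣ (p : ℤ) ^ k - 1 := by
  have h1 : Nat.Coprime p m.natAbs := by
    have := Int.isCoprime_iff_gcd_eq_one.1 hm
    rwa [Int.gcd, Int.natAbs_natCast] at this
  have h2 := Nat.ModEq.pow_totient h1
  have h3 : m ∣ (p : ℤ) ^ (m.natAbs.totient) - 1 := by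
    have h4 := (Nat.modEq_iff_dvd.1 h2.symm)
    rw [← abs_dvd]
    push_cast at h4
    exact h4
  have h0 : 0 < m.natAbs.totient := by
    apply Nat.totient_pos.2
    rw [Int.natAbs_pos]
    rintro rfl
    rw [isCoprime_zero_right, Int.isUnit_iff] at hm
    have := hp.two_le
    omega
  refine ⟨m.natAbs.totient * (2 * (j + 1)), ?_, ⟨m.natAbs.totient * (j + 1), by ring⟩, by positivity,
    ?_⟩
  · nlinarith
  · rw [pow_mul]
    exact h3.trans (sub_one_dvd_pow_sub_one _ _)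

/-- the key relation, with `k` even -/
lemma sym_key' {a c : ℤ} (ha : ¬ (p : ℤ) ∣ a) (hc : ¬ (p : ℤ) ∣ c) (j : ℕ) :
    ∃ (b : ℤ) (i : ℕ), ¬ (p : ℤ) ∣ b ∧ Even (i + j) ∧ Ψ (a, (p : ℚ) ^ j * c) =
      Ψ ((p : ℚ) ^ j * a, c) - (Ψ ((b : ℚ), (p : ℚ) ^ i) - Ψ (0, 1)) := by
  have hpp : Prime (p : ℤ) := Nat.prime_iff_prime_int.1 hp
  have hN : ¬ (p : ℤ) ∣ (N : ℤ) := by exact_mod_cast hpN
  have hm : IsCoprime (p : ℤ) (N * a * c) := by
    rw [hpp.coprime_iff_not_dvd]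
    intro h
    rcases hpp.dvd_or_dvd h with h | h
    · rcases hpp.dvd_or_dvd h with h | h
      · exact hN h
      · exact ha h
    · exact hc h
  obtain ⟨k, hjk, hev, hk0, t, ht⟩ := exists_k hp hm j
  refine ⟨N * a ^ 2 * t, k - j, ?_, by rwa [Nat.sub_add_cancel hjk], sym_key hΨ hp hpN hjk ht ?_⟩
  · intro h
    have h1 : (p : ℤ) ∣ (p : ℤ) ^ k - 1 := by
      rcases hpp.dvd_or_dvd h with h | h
      · rcases hpp.dvd_or_dvd h with h | h
        · exact absurd h hN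
        · exact absurd (hpp.dvd_of_dvd_pow h) ha
      · rw [ht]
        exact h.mul_left _
    have h2 : (p : ℤ) ∣ 1 := by
      have := dvd_sub (dvd_pow_self (p : ℤ) hk0.ne') h1
      simpa using this
    exact hpp.not_isUnit (isUnit_of_dvd_one h2)
  · rintro rfl
    exact ha (dvd_zero _)

end

/-- sums over the residues modulo `p` -/
lemma sum_aux {p : ℕ} (hp : p.Prime) [CharP F p] (f : ℕ → F) (C : F)
    (h : ∀ i, 0 < i → i < p → f i = C) : ∑ i ∈ Finset.range p, f i = f 0 - C := by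
  obtain ⟨m, rfl⟩ : ∃ m, p = m + 1 := ⟨p - 1, by have := hp.pos; omega⟩
  rw [Finset.sum_range_succ', Finset.sum_congr rfl (fun i hi => h (i + 1) (by omega)
    (by rw [Finset.mem_range] at hi; omega)), Finset.sum_const, Finset.card_range, nsmul_eq_mul]
  have h1 : ((m + 1 : ℕ) : F) = 0 := CharP.cast_eq_zero F (m + 1)
  push_cast at h1
  linear_combination C * h1

section
variable {N : ℕ} {Ψ : ℚ × ℚ → F} (hΨ : IsSym N Ψ)
variable {p : ℕ} (hp : p.Prime) (hpN : ¬ p ∣ N) [CharP F p]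
include hΨ hp hpN

/-- from the values with `p ∤ c` to all periods -/
lemma all_of_unit (h : ∀ a b c d : ℤ, a * d - b * c = 1 → (N : ℤ) ∣ c → ¬ (p : ℤ) ∣ c →
    Ψ (a, c) = 0) : ∀ a b c d : ℤ, a * d - b * c = 1 → (N : ℤ) ∣ c → Ψ (a, c) = 0 := by
  intro a b c d hdet hc
  have hpp : Prime (p : ℤ) := Nat.prime_iff_prime_int.1 hp
  by_cases hpc : (p : ℤ) ∣ c
  · have h1 : (a + b * N) * d - b * (c + d * N) = 1 := by linear_combination hdet
    have hpd : ¬ (p : ℤ) ∣ d := by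
      intro hd
      have : (p : ℤ) ∣ 1 := by
        rw [← hdet]
        exact dvd_sub (hd.mul_left _) (hpc.mul_left _)
      exact hpp.not_isUnit (isUnit_of_dvd_one this)
    have hN : ¬ (p : ℤ) ∣ (N : ℤ) := by exact_mod_cast hpN
    have h2 : ¬ (p : ℤ) ∣ c + d * N := by
      intro h3
      have h4 : (p : ℤ) ∣ d * N := by
        have := dvd_sub h3 hpc
        simpa using this
      rcases hpp.dvd_or_dvd h4 with h5 | h5
      · exact hpd h5
      · exact hN h5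
    have h3 := h _ _ _ _ h1 (dvd_add hc (dvd_mul_left _ _)) h2
    rw [sym_col hΨ h1 (dvd_add hc (dvd_mul_left _ _))] at h3
    rw [sym_col hΨ hdet hc]
    exact h3
  · exact h a b c d hdet hc hpc

/-- the supersingular case, odd exponents -/
theorem zero_of_odd (hT : IsHecke Ψ p 0)
    (hm : ∀ (a : ℤ) (n : ℕ), ¬ (p : ℤ) ∣ a → Odd n → Ψ ((a : ℚ), (p : ℚ) ^ n) = 0) :
    ∀ a b c d : ℤ, a * d - b * c = 1 → (N : ℤ) ∣ c → Ψ (a, c) = 0 := by
  have hpp : Prime (p : ℤ) := Nat.prime_iff_prime_int.1 hp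
  have hp0 : (p : ℚ) ≠ 0 := by exact_mod_cast hp.ne_zero
  have hchar : (p : F) = 0 := CharP.cast_eq_zero F p
  have hN : ¬ (p : ℤ) ∣ (N : ℤ) := by exact_mod_cast hpN
  -- the relation for odd `j = 1`
  have h1 : ∀ a c : ℤ, ¬ (p : ℤ) ∣ a → ¬ (p : ℤ) ∣ c →
      Ψ (a, (p : ℚ) * c) = Ψ ((p : ℚ) * a, c) + Ψ (0, 1) := by
    intro a c ha hc
    obtain ⟨b, i, hb, hev, h2⟩ := sym_key' hΨ hp hpN ha hc 1
    rw [pow_one] at h2
    rw [h2, hm b i hb ?_]
    · ring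
    · rcases Nat.even_or_odd i with h3 | h3
      · exact absurd hev (Nat.not_even_iff_odd.2 (h3.add_one))
      · exact h3
  have h2 : ∀ a c : ℤ, ¬ (p : ℤ) ∣ c → Ψ (a, c) = Ψ (0, 1) := by
    intro a c hc
    have hc0 : c ≠ 0 := by
      rintro rfl
      exact hc (dvd_zero _)
    have hc0q : (c : ℚ) ≠ 0 := by exact_mod_cast hc0
    have h3 := hT (p * a) c (by
      rw [Ne, Prod.mk_eq_zero]
      rintro ⟨-, h⟩
      exact hc0q h)
    rw [sum_aux hp (fun i => Ψ ((p : ℚ) * a + i * c, (p : ℚ) * c))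
      (Ψ ((p : ℚ) * (p * a), c) + Ψ (0, 1)) ?_] at h3
    · have h4 : Ψ ((p : ℚ) * a + ((0 : ℕ) : ℚ) * c, (p : ℚ) * c) = Ψ (a, c) := by
        rw [Nat.cast_zero, zero_mul, add_zero, hΨ.hom _ _ _ hp0]
      rw [h4] at h3
      linear_combination h3
    · intro i hi hip
      have h5 : ¬ (p : ℤ) ∣ p * a + i * c := by
        intro h
        have h6 : (p : ℤ) ∣ i * c := by
          have := dvd_sub h (dvd_mul_right (p : ℤ) a)
          simpa using this
        rcases hpp.dvd_or_dvd h6 with h7 | h7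
        · have h8 : p ∣ i := by exact_mod_cast h7
          have := Nat.le_of_dvd hi h8
          omega
        · exact hc h7
      have h6 := h1 _ _ h5 hc
      push_cast at h6
      rw [h6]
      congr 1
      have h7 := sym_T hΨ (p * i) ((p : ℚ) * (p * a)) c
      rw [← h7]
      congr 2
      push_cast
      ring
  have h3 : Ψ (0, 1) = 0 := by
    have h4 := h2 1 N hN
    have h5 := sym_U hΨ 1 1 0
    push_cast at h4 h5
    rw [mul_one, mul_one, zero_add, hΨ.inf] at h5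
    rw [← h4, h5]
  refine all_of_unit hΨ hp hpN fun a b c d _ _ hpc => ?_
  rw [h2 a c hpc, h3]

/-- the supersingular case, even exponents -/
theorem zero_of_even (hT : IsHecke Ψ p 0)
    (hm : ∀ (a : ℤ) (n : ℕ), ¬ (p : ℤ) ∣ a → Even n → Ψ ((a : ℚ), (p : ℚ) ^ n) = 0) :
    ∀ a b c d : ℤ, a * d - b * c = 1 → (N : ℤ) ∣ c → Ψ (a, c) = 0 := by
  have hpp : Prime (p : ℤ) := Nat.prime_iff_prime_int.1 hp
  have hp0 : (p : ℚ) ≠ 0 := by exact_mod_cast hp.ne_zero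
  have hchar : (p : F) = 0 := CharP.cast_eq_zero F p
  have hp1 : ¬ (p : ℤ) ∣ 1 := fun h => hpp.not_isUnit (isUnit_of_dvd_one h)
  have hκ : Ψ (0, 1) = 0 := by
    have h1 := hm 1 0 hp1 Even.zero
    have h2 := sym_T hΨ 1 0 1
    push_cast at h1 h2
    rw [pow_zero] at h1
    rw [mul_one, zero_add, h1] at h2
    exact h2.symm
  have h1 : ∀ a c : ℤ, ¬ (p : ℤ) ∣ a → ¬ (p : ℤ) ∣ c →
      Ψ (a, (p : ℚ) ^ 2 * c) = Ψ ((p : ℚ) ^ 2 * a, c) := by
    intro a c ha hc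
    obtain ⟨b, i, hb, hev, h2⟩ := sym_key' hΨ hp hpN ha hc 2
    rw [h2, hm b i hb ?_, hκ]
    · ring
    · rw [Nat.even_add] at hev
      exact hev.2 even_two
  have h2 : ∀ a c : ℤ, ¬ (p : ℤ) ∣ a → ¬ (p : ℤ) ∣ c → Ψ (a, c) = 0 := by
    intro a c ha hc
    have hc0 : c ≠ 0 := by
      rintro rfl
      exact hc (dvd_zero _)
    have hc0q : (c : ℚ) ≠ 0 := by exact_mod_cast hc0
    have h3 := hT a (p * c) (by
      rw [Ne, Prod.mk_eq_zero]
      rintro ⟨-, h⟩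
      exact (mul_ne_zero hp0 hc0q) h)
    rw [Finset.sum_congr rfl (g := fun _ => Ψ ((p : ℚ) ^ 2 * a, c)) ?_, Finset.sum_const,
      Finset.card_range, nsmul_eq_mul, hchar, zero_mul, add_zero, zero_mul, hΨ.hom _ _ _ hp0] at h3
    · exact h3
    · intro i _
      have h5 : ¬ (p : ℤ) ∣ a + i * (p * c) := by
        intro h
        apply ha
        have := dvd_sub h (show (p : ℤ) ∣ i * (p * c) from ⟨i * c, by ring⟩)
        simpa using this
      have h6 := h1 _ _ h5 hc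
      push_cast at h6
      rw [← mul_assoc (p : ℚ) p c, ← sq, h6]
      have h7 := sym_T hΨ (p ^ 3 * i) ((p : ℚ) ^ 2 * a) c
      rw [← h7]
      congr 2
      push_cast
      ring
  refine all_of_unit hΨ hp hpN fun a b c d _ _ hpc => ?_
  by_cases ha : (p : ℤ) ∣ a
  · have h3 : ¬ (p : ℤ) ∣ a + c := fun h => hpc (by
      have := dvd_sub h ha
      simpa using this)
    have h4 := h2 (a + c) c h3 hpc
    have h5 := sym_T hΨ 1 a c
    push_cast at h4 h5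
    rw [one_mul, h4] at h5
    exact h5.symm
  · exact h2 a c ha hpc

variable {α : F} (hα : α ≠ 0) (hT : IsHecke Ψ p α)
  (hm : ∀ (a : ℤ) (n : ℕ), ¬ (p : ℤ) ∣ a → α * Ψ ((a : ℚ), (p : ℚ) ^ (n + 1)) =
    Ψ ((a : ℚ), (p : ℚ) ^ n))
include hα hT hm

omit hpN in
lemma ord_kappa : α * Ψ (0, 1) = Ψ (0, 1) := by
  have hpp : Prime (p : ℤ) := Nat.prime_iff_prime_int.1 hp
  have hp0 : (p : ℚ) ≠ 0 := by exact_mod_cast hp.ne_zero
  have h3 := hT 0 1 (by simp)
  rw [sum_aux hp (fun i => Ψ ((0 : ℚ) + i * 1, (p : ℚ) * 1)) (α⁻¹ * Ψ (0, 1)) ?_] at h3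
  · have h4 : Ψ ((0 : ℚ) + ((0 : ℕ) : ℚ) * 1, (p : ℚ) * 1) = Ψ (0, 1) := by
      have := hΨ.hom p 0 1 hp0
      rw [← this]
      congr 2
      simp
    rw [h4, mul_zero] at h3
    have h5 : (α - 1) ^ 2 * Ψ (0, 1) = 0 := by
      have h6 : α * α⁻¹ = 1 := mul_inv_cancel₀ hα
      linear_combination (-α) * h3 - Ψ (0, 1) * h6
    rcases mul_eq_zero.1 h5 with h7 | h7
    · have h8 : α - 1 = 0 := by simpa using h7
      rw [sub_eq_zero.1 h8, one_mul]
    · rw [h7, mul_zero]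
  · intro i hi hip
    have h5 : ¬ (p : ℤ) ∣ (i : ℤ) := by
      intro h
      have h8 : p ∣ i := by exact_mod_cast h
      have := Nat.le_of_dvd hi h8
      omega
    have h6 := hm i 0 h5
    have h7 := sym_T hΨ i 0 1
    push_cast at h6 h7
    rw [zero_add, mul_one] at h7
    rw [pow_one, pow_zero, h7] at h6
    rw [zero_add, mul_one, mul_one, ← h6, ← mul_assoc, inv_mul_cancel₀ hα, one_mul]

omit hpN in
lemma ord_const (n : ℕ) : ∀ a : ℤ, Ψ ((a : ℚ), (p : ℚ) ^ n) = Ψ (0, 1) := by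
  have hp0 : (p : ℚ) ≠ 0 := by exact_mod_cast hp.ne_zero
  have hκ := ord_kappa hΨ hp hα hT hm
  induction n with
  | zero =>
    intro a
    have h7 := sym_T hΨ a 0 1
    rw [zero_add, mul_one] at h7
    rw [pow_zero, h7]
  | succ n ih =>
    intro a
    by_cases ha : (p : ℤ) ∣ a
    · obtain ⟨b, rfl⟩ := ha
      have h1 := hΨ.hom p b ((p : ℚ) ^ n) hp0
      rw [← ih b, ← h1]
      congr 2
      · push_cast
        ring
      · ring
    · have h1 := hm a n ha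
      rw [ih a, ← hκ] at h1
      exact mul_left_cancel₀ hα h1

/-- the first consequence -/
lemma ord_B {a c : ℤ} (ha : ¬ (p : ℤ) ∣ a) (hc : ¬ (p : ℤ) ∣ c) (j : ℕ) :
    Ψ (a, (p : ℚ) ^ j * c) = Ψ ((p : ℚ) ^ j * a, c) := by
  obtain ⟨b, i, -, -, h2⟩ := sym_key' hΨ hp hpN ha hc j
  rw [h2, ord_const hΨ hp hα hT hm i b]
  ring

/-- the second consequence -/
lemma ord_C (a : ℤ) {c : ℤ} (hc : ¬ (p : ℤ) ∣ c) : Ψ (a, c) = α * Ψ ((p : ℚ) * a, c) := by
  have hpp : Prime (p : ℤ) := Nat.prime_iff_prime_int.1 hp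
  have hp0 : (p : ℚ) ≠ 0 := by exact_mod_cast hp.ne_zero
  have hc0 : c ≠ 0 := by
    rintro rfl
    exact hc (dvd_zero _)
  have hc0q : (c : ℚ) ≠ 0 := by exact_mod_cast hc0
  have h3 := hT (p * a) c (by
    rw [Ne, Prod.mk_eq_zero]
    rintro ⟨-, h⟩
    exact hc0q h)
  rw [sum_aux hp (fun i => Ψ ((p : ℚ) * a + i * c, (p : ℚ) * c))
    (Ψ ((p : ℚ) * (p * a), c)) ?_] at h3
  · have h4 : Ψ ((p : ℚ) * a + ((0 : ℕ) : ℚ) * c, (p : ℚ) * c) = Ψ (a, c) := by
      rw [Nat.cast_zero, zero_mul, add_zero, hΨ.hom _ _ _ hp0]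
    rw [h4] at h3
    linear_combination h3
  · intro i hi hip
    have h5 : ¬ (p : ℤ) ∣ p * a + i * c := by
      intro h
      have h6 : (p : ℤ) ∣ i * c := by
        have := dvd_sub h (dvd_mul_right (p : ℤ) a)
        simpa using this
      rcases hpp.dvd_or_dvd h6 with h7 | h7
      · have h8 : p ∣ i := by exact_mod_cast h7
        have := Nat.le_of_dvd hi h8
        omega
      · exact hc h7
    have h6 := ord_B hΨ hp hpN hα hT hm h5 hc 1
    push_cast at h6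
    rw [pow_one] at h6
    rw [h6]
    have h7 := sym_T hΨ (p * i) ((p : ℚ) * (p * a)) c
    rw [← h7]
    congr 2
    push_cast
    ring

/-- the ordinary case with `α² ≠ 1` -/
theorem zero_of_ord (hα2 : α ^ 2 ≠ 1) :
    ∀ a b c d : ℤ, a * d - b * c = 1 → (N : ℤ) ∣ c → Ψ (a, c) = 0 := by
  have hpp : Prime (p : ℤ) := Nat.prime_iff_prime_int.1 hp
  refine all_of_unit hΨ hp hpN fun a b c d hdet hc hpc => ?_
  have hcop : IsCoprime ((p : ℤ) * a) c := by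
    refine IsCoprime.mul_left (hpp.coprime_iff_not_dvd.2 hpc) ⟨d, -b, by linear_combination hdet⟩
  obtain ⟨u, v, huv⟩ := hcop
  -- `γ' = (p a, -v; c, u)`
  have hdet' : ((p : ℤ) * a) * u - (-v) * c = 1 := by linear_combination huv
  have h1 := sym_inverse hΨ hdet hc
  have h2 := sym_inverse hΨ hdet' hc
  have h3 := ord_C hΨ hp hpN hα hT hm a hpc
  have hpc' : ¬ (p : ℤ) ∣ -c := fun h => hpc ((dvd_neg).1 h)
  have h4 := ord_C hΨ hp hpN hα hT hm u hpc'
  -- `d ≡ p u` modulo `c`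
  have h5 : ∃ n : ℤ, d = p * u + n * -c := by
    refine ⟨-(d * v) - p * u * b, ?_⟩
    linear_combination (-d) * huv - (-(p : ℤ) * u) * hdet
  obtain ⟨n, hn⟩ := h5
  have h6 := sym_T hΨ n ((p : ℚ) * u) (-c)
  have h7 : (d : ℚ) = p * u + n * -c := by exact_mod_cast congrArg (fun n : ℤ => (n : ℚ)) hn
  rw [← h7, h1] at h6
  push_cast at h2 h3 h4 h6
  -- `-v = α⁻¹ Ψ(u, -c) = -α⁻¹ Ψ(p a, c)`
  have h8 : (α ^ 2 - 1) * Ψ (a, c) = 0 := by
    rw [h2] at h4
    rw [← h6] at h4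
    linear_combination α * h4 - h3
  rcases mul_eq_zero.1 h8 with h9 | h9
  · exact absurd (sub_eq_zero.1 h9) hα2
  · exact h9

end

end Pool.Agent.H503.MU
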