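import Pool.Agent.H503.MU.NotConst

/-!
# Mellin transforms along vertical lines to arbitrary cusps, twisted `L`-functions
-/

set_option autoImplicit false
set_option linter.unusedSectionVars false

open Complex UpperHalfPlane MatrixGroups CongruenceSubgroup Filter Topology ModularForm
open MeasureTheory Set Asymptotics

namespace Pool.Agent.H503.MU

open Pool.Agent.H503.TA

variable {N : ℕ} [NeZero N]
variable (f : CuspForm (Gamma0 N : Subgroup (GL (Fin 2) ℝ)) 2)

lemma slash_le (δ : SL(2, ℤ)) : ∃ C B : ℝ, 0 ≤ C ∧ 0 < B ∧ ∀ τ : ℍ, B ≤ τ.im →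
    ‖((f : ℍ → ℂ) ∣[(2 : ℤ)] δ) τ‖ ≤ C * Real.exp (-(2 * Real.pi * τ.im / N)) := by
  have hN : (0 : ℝ) < N := by exact_mod_cast Nat.pos_of_ne_zero (NeZero.ne N)
  have h1 := (zero_slash f δ).exp_decay_atImInfty hN (slash_per f δ) (mdiff_slash f δ)
    (zero_slash f δ).isBoundedAtImInfty
  obtain ⟨C, hC0, hC⟩ := h1.exists_nonneg
  rw [IsBigOWith] at hC
  have h2 : {τ : ℍ | ‖((f : ℍ → ℂ) ∣[(2 : ℤ)] δ) τ‖ ≤ C * ‖Real.exp (-2 * Real.pi * τ.im / N)‖} ∈
      atImInfty := hC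
  rw [atImInfty_mem] at h2
  obtain ⟨B, hB⟩ := h2
  refine ⟨C, max B 1, hC0, lt_max_of_lt_right one_pos, fun τ hτ => ?_⟩
  have h3 := hB τ (le_trans (le_max_left _ _) hτ)
  have h4 : ‖((f : ℍ → ℂ) ∣[(2 : ℤ)] δ) τ‖ ≤ C * ‖Real.exp (-2 * Real.pi * τ.im / N)‖ := h3
  rw [Real.norm_of_nonneg (Real.exp_pos _).le] at h4
  have h5 : -2 * Real.pi * τ.im / N = -(2 * Real.pi * τ.im / N) := by ring
  rwa [h5] at h4

/-- decay of the form near the cusp `a / M` -/
lemma G_botB {γ : SL(2, ℤ)} {M : ℕ} (hM : 0 < M) (hγ : γ 1 0 = (M : ℤ)) (b : ℝ) :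
    G f ((γ 0 0 : ℤ) / M) =O[𝓝[>] 0] fun y : ℝ => y ^ b := by
  obtain ⟨C, B, hC0, hB0, hC⟩ := slash_le f γ
  have hN : (0 : ℝ) < N := by exact_mod_cast Nat.pos_of_ne_zero (NeZero.ne N)
  have hMr : (0 : ℝ) < M := by exact_mod_cast hM
  -- the comparison function
  have hcmp : (fun y : ℝ => Real.exp (-(2 * Real.pi / ((M : ℝ) ^ 2 * N)) * y⁻¹) * y ^ (-2 : ℝ))
      =O[𝓝[>] 0] fun y : ℝ => y ^ b := by
    have h1 : (fun t : ℝ => Real.exp (-(2 * Real.pi / ((M : ℝ) ^ 2 * N)) * t)) =O[atTop]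
        fun t : ℝ => t ^ (-(b + 2)) :=
      (isLittleO_exp_neg_mul_rpow_atTop (by positivity) _).isBigO
    have h2 := h1.comp_tendsto (tendsto_inv_nhdsGT_zero (𝕜 := ℝ))
    have h3 : (fun y : ℝ => Real.exp (-(2 * Real.pi / ((M : ℝ) ^ 2 * N)) * y⁻¹) * y ^ (-2 : ℝ))
      =O[𝓝[>] 0] fun y : ℝ => (y⁻¹) ^ (-(b + 2)) * y ^ (-2 : ℝ) :=
      IsBigO.mul h2 (isBigO_refl _ _)
    refine h3.congr' EventuallyEq.rfl ?_
    filter_upwards [self_mem_nhdsWithin] with y hy
    have hy0 : (0 : ℝ) < y := hy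
    rw [Real.inv_rpow hy0.le, ← Real.rpow_neg hy0.le, ← Real.rpow_add hy0]
    congr 1
    ring
  refine IsBigO.trans ?_ hcmp
  refine IsBigO.of_bound (C / (M : ℝ) ^ 2) ?_
  have hsmall : ∀ᶠ y : ℝ in 𝓝[>] 0, y ≤ 1 / ((M : ℝ) ^ 2 * B) := by
    have : Iic (1 / ((M : ℝ) ^ 2 * B)) ∈ 𝓝 (0 : ℝ) := Iic_mem_nhds (by positivity)
    exact mem_nhdsWithin_of_mem_nhds this
  filter_upwards [hsmall, self_mem_nhdsWithin] with y hy1 hy
  have hy0 : 0 < y := hy
  have hy' : 0 < 1 / ((M : ℝ) ^ 2 * y) := by positivity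
  have hMc : (M : ℂ) ≠ 0 := by exact_mod_cast hM.ne'
  have hyc : (y : ℂ) ≠ 0 := by exact_mod_cast hy0.ne'
  set τ : ℍ := pt (-(γ 1 1 : ℤ) / M) hy' with hτ
  have hden := den_ne γ τ
  have hfs : f (γ • τ) = (((γ 1 0 : ℤ) : ℂ) * τ + (γ 1 1 : ℤ)) ^ 2 *
      ((f : ℍ → ℂ) ∣[(2 : ℤ)] γ) τ := by
    rw [slash_val]
    field_simp
  rw [G_eq f _ hy0, ← smul_pt hM hγ hy0 hy', ← hτ, hfs, hγ]
  have h1 : (((M : ℤ) : ℤ) : ℂ) * (τ : ℂ) + (γ 1 1 : ℤ) = Complex.I / (M * y) := by
    rw [hτ, pt_coe]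
    push_cast
    field_simp
    ring
  rw [h1, norm_mul, norm_pow, norm_div, Complex.norm_I, norm_mul, Complex.norm_natCast,
    Complex.norm_real, Real.norm_of_nonneg hy0.le, Real.norm_of_nonneg (by positivity)]
  have h2 := hC τ (by
    rw [hτ, pt_im, le_div_iff₀ (by positivity)]
    rw [le_div_iff₀ (by positivity)] at hy1
    nlinarith)
  rw [hτ, pt_im, ← hτ] at h2
  have h3 : y ^ (-2 : ℝ) = 1 / y ^ 2 := by
    rw [Real.rpow_neg hy0.le, one_div]
    norm_cast
  have h4 : Real.exp (-(2 * Real.pi * (1 / ((M : ℝ) ^ 2 * y)) / N)) =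
      Real.exp (-(2 * Real.pi / ((M : ℝ) ^ 2 * N)) * y⁻¹) := by
    congr 1
    field_simp
  rw [h3, ← h4]
  calc (1 / ((M : ℝ) * y)) ^ 2 * ‖((f : ℍ → ℂ) ∣[(2 : ℤ)] γ) τ‖
      ≤ (1 / ((M : ℝ) * y)) ^ 2 *
        (C * Real.exp (-(2 * Real.pi * (1 / ((M : ℝ) ^ 2 * y)) / N))) := by
        gcongr
    _ = C / (M : ℝ) ^ 2 * (Real.exp (-(2 * Real.pi * (1 / ((M : ℝ) ^ 2 * y)) / N)) * (1 / y ^ 2)) := by
        field_simp

theorem mellin_convB {γ : SL(2, ℤ)} {M : ℕ} (hM : 0 < M) (hγ : γ 1 0 = (M : ℤ))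
    (s : ℂ) : MellinConvergent (G f ((γ 0 0 : ℤ) / M)) s :=
  mellinConvergent_of_isBigO_rpow_exp (a := 2 * Real.pi) (b := s.re - 1) (by positivity)
    (G_loc f _) (G_top f _) (by simpa using G_botB f hM hγ (-(s.re - 1))) (by linarith)

theorem mellin_entireB {γ : SL(2, ℤ)} {M : ℕ} (hM : 0 < M) (hγ : γ 1 0 = (M : ℤ)) :
    Differentiable ℂ (mellin (G f ((γ 0 0 : ℤ) / M))) := fun s =>
  mellin_differentiableAt_of_isBigO_rpow_exp (a := 2 * Real.pi) (b := s.re - 1) (by positivity)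
    (G_loc f _) (G_top f _) (by simpa using G_botB f hM hγ (-(s.re - 1))) (by linarith)

/-- the value of the Mellin transform at one -/
theorem mellin_oneB {γ : SL(2, ℤ)} {M : ℕ} (hM : 0 < M) (hγ : γ 1 0 = (M : ℤ)) :
    2 * Real.pi * mellin (G f ((γ 0 0 : ℤ) / M)) 1 = PsiC f ((γ 0 0 : ℤ), M) := by
  set x : ℝ := (γ 0 0 : ℤ) / M with hx
  set c : ℂ := PsiC f ((γ 0 0 : ℤ), M) with hc
  have hMq : (M : ℚ) ≠ 0 := by exact_mod_cast hM.ne'
  have hint : IntegrableOn (G f x) (Ioi 0) := by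
    have := mellin_convB f hM hγ 1
    rw [MellinConvergent] at this
    simpa using this
  have hval : mellin (G f x) 1 = ∫ y in Ioi (0 : ℝ), G f x y := by
    rw [mellin]
    simp
  set P : ℝ → ℂ := Function.update (fun y : ℝ => prim f ((x : ℂ) + y * Complex.I)) 0 c with hP
  have hPy : ∀ y : ℝ, y ≠ 0 → P y = prim f ((x : ℂ) + y * Complex.I) := fun y hy => by
    rw [hP, Function.update_of_ne hy]
  have hnear : Tendsto (fun y : ℝ => prim f ((x : ℂ) + y * Complex.I)) (𝓝[>] 0) (𝓝 c) := by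
    have h1 := PsiC_vert f ((γ 0 0 : ℤ) : ℚ) hMq
    have h2 : ((((γ 0 0 : ℤ) : ℚ) / (M : ℚ) : ℚ) : ℂ) = (x : ℂ) := by
      rw [hx]
      push_cast
      rfl
    rw [h2] at h1
    exact h1
  have hcont : ContinuousWithinAt P (Ici 0) 0 := by
    rw [hP, continuousWithinAt_update_same]
    have h1 : Ici (0 : ℝ) \ {0} = Ioi 0 := Ici_sdiff_left
    rw [h1]
    exact hnear
  have hder : ∀ y ∈ Ioi (0 : ℝ), HasDerivAt P (-(2 * Real.pi) * G f x y) y := by
    intro y hy
    refine (hasDerivAt_line f x hy).congr_of_eventuallyEq ?_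
    filter_upwards [isOpen_Ioi.mem_nhds hy] with t ht
    exact hPy t (ne_of_gt ht)
  have htop : Tendsto P atTop (𝓝 0) := by
    obtain ⟨C, hC0, hC⟩ := prim_le f
    rw [tendsto_zero_iff_norm_tendsto_zero]
    have h0 : Tendsto (fun y : ℝ => C * Real.exp (-(2 * Real.pi * y))) atTop (𝓝 0) := by
      have h3 : Tendsto (fun y : ℝ => -(2 * Real.pi * y)) atTop atBot :=
        tendsto_neg_atTop_atBot.comp (tendsto_id.const_mul_atTop (by positivity))
      have h4 := (Real.tendsto_exp_atBot.comp h3).const_mul C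
      simpa using h4
    refine squeeze_zero' (Eventually.of_forall fun y => norm_nonneg _) ?_ h0
    filter_upwards [eventually_ge_atTop (1 : ℝ)] with y hy
    rw [hPy y (by linarith)]
    refine (hC _ ?_).trans ?_
    · simpa using hy
    · simp
  have h1 := integral_Ioi_of_hasDerivAt_of_tendsto hcont hder (hint.const_mul _) htop
  rw [integral_const_mul] at h1
  have h2 : P 0 = c := by rw [hP, Function.update_self]
  rw [h2] at h1
  rw [hval]
  linear_combination -h1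

section
variable {M : ℕ} [NeZero M]

lemma gauss_all {χ : DirichletCharacter ℂ M} (hχ : χ.IsPrimitive) (n : ℕ) :
    ∑ a : ZMod M, χ⁻¹ a * ZMod.stdAddChar (N := M) ((n : ZMod M) * a) = tau χ * χ n := by
  have hχ' : χ⁻¹.IsPrimitive := by
    rw [DirichletCharacter.isPrimitive_def] at hχ ⊢
    rw [DirichletCharacter.conductor_inv]
    exact hχ
  have h1 := gaussSum_mulShift_of_isPrimitive (ZMod.stdAddChar (N := M)) hχ' (n : ZMod M)
  rw [inv_inv] at h1
  have h2 : gaussSum χ⁻¹ ((ZMod.stdAddChar (N := M)).mulShift (n : ZMod M)) =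
      ∑ a : ZMod M, χ⁻¹ a * ZMod.stdAddChar (N := M) ((n : ZMod M) * a) := by
    unfold gaussSum
    refine Finset.sum_congr rfl fun a _ => ?_
    rw [AddChar.mulShift_apply]
  rw [← h2, h1]
  unfold tau
  ring

open scoped ZMod in
lemma tau_ne_zero {χ : DirichletCharacter ℂ M} (hχ : χ.IsPrimitive) : tau χ ≠ 0 := by
  intro h0
  have hχ' : χ⁻¹.IsPrimitive := by
    rw [DirichletCharacter.isPrimitive_def] at hχ ⊢
    rw [DirichletCharacter.conductor_inv]
    exact hχ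
  have h1 : ZMod.dft (fun a => χ⁻¹ a) = 0 := by
    funext k
    have h4 := hχ'.fourierTransform_eq_inv_mul_gaussSum k
    refine h4.trans ?_
    have : gaussSum χ⁻¹ (ZMod.stdAddChar (N := M)) = 0 := h0
    rw [this, mul_zero]
    rfl
  have h2 : (fun a => χ⁻¹ a) = 0 := by
    have := ZMod.dft.injective (h1.trans (map_zero ZMod.dft).symm)
    exact this
  have h3 := congrFun h2 1
  simp only [map_one, Pi.zero_apply] at h3
  exact one_ne_zero h3

theorem hasSum_FchiB {χ : DirichletCharacter ℂ M} (hχ : χ.IsPrimitive)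
    {y : ℝ} (hy : 0 < y) :
    HasSum (fun n : ℕ => (tau χ * (χ n * coef f n)) * (Real.exp (-(2 * Real.pi * n) * y) : ℂ))
      (Fchi f χ y) := by
  have hM0 : 0 < M := Nat.pos_of_ne_zero (NeZero.ne M)
  have hMc : (M : ℂ) ≠ 0 := by exact_mod_cast hM0.ne'
  have h1 : HasSum (fun n : ℕ => ∑ a : ZMod M, χ⁻¹ a * (coef f n *
      Complex.exp (2 * Real.pi * Complex.I * n * ((((a.val : ℝ) / M : ℝ) : ℂ) + y * Complex.I))))
      (Fchi f χ y) :=
    hasSum_sum fun a _ => (hasSum_G f ((a.val : ℝ) / M) hy).mul_left (χ⁻¹ a)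
  refine h1.congr_fun fun n => ?_
  have h2 : ∀ a : ZMod M, Complex.exp (2 * Real.pi * Complex.I * n *
      ((((a.val : ℝ) / M : ℝ) : ℂ) + y * Complex.I)) =
      ZMod.stdAddChar (N := M) ((n : ZMod M) * a) *
        (Real.exp (-(2 * Real.pi * n) * y) : ℂ) := by
    intro a
    have h3 : ((n : ZMod M) * a) = (((n * a.val : ℕ) : ℤ) : ZMod M) := by
      push_cast
      rw [ZMod.natCast_zmod_val]
    rw [h3, ZMod.stdAddChar_coe, Complex.ofReal_exp, ← Complex.exp_add]
    congr 1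
    push_cast
    field_simp
    linear_combination (n * M * y : ℂ) * Complex.I_sq
  rw [← mul_assoc (tau χ), ← gauss_all hχ, Finset.sum_mul, Finset.sum_mul]
  refine Finset.sum_congr rfl fun a _ => ?_
  rw [h2]
  ring

lemma mellin_sumB (χ : DirichletCharacter ℂ M) (s : ℂ) :
    mellin (Fchi f χ) s = ∑ a : ZMod M, χ⁻¹ a * mellin (G f ((a.val : ℝ) / M)) s := by
  have hM0 : 0 < M := Nat.pos_of_ne_zero (NeZero.ne M)
  unfold mellin Fchi
  have h1 : ∀ y : ℝ, ((y : ℂ) ^ (s - 1)) • (∑ a : ZMod M, χ⁻¹ a * G f ((a.val : ℝ) / M) y) =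
      ∑ a : ZMod M, χ⁻¹ a * (((y : ℂ) ^ (s - 1)) • G f ((a.val : ℝ) / M) y) := by
    intro y
    rw [Finset.smul_sum]
    refine Finset.sum_congr rfl fun a _ => ?_
    simp only [smul_eq_mul]
    ring
  simp only [h1]
  rw [integral_finsetSum]
  · refine Finset.sum_congr rfl fun a _ => ?_
    rw [integral_const_mul]
  · intro a _
    by_cases ha : IsUnit a
    · have hcop : IsCoprime ((a.val : ℕ) : ℤ) (M : ℤ) := by
        rw [Nat.isCoprime_iff_coprime]
        rw [← ZMod.isUnit_iff_coprime, ZMod.natCast_zmod_val]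
        exact ha
      obtain ⟨γ, h0, h2⟩ := exists_gamma hcop
      have h3 := mellin_convB f hM0 h2 s
      rw [h0] at h3
      push_cast at h3
      exact Integrable.const_mul h3 _
    · simp [MulChar.map_nonunit _ ha]

lemma mellin_entire_sumB (χ : DirichletCharacter ℂ M) :
    Differentiable ℂ (fun s => ∑ a : ZMod M, χ⁻¹ a * mellin (G f ((a.val : ℝ) / M)) s) := by
  have hM0 : 0 < M := Nat.pos_of_ne_zero (NeZero.ne M)
  refine Differentiable.fun_sum fun a _ => ?_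
  by_cases ha : IsUnit a
  · have hcop : IsCoprime ((a.val : ℕ) : ℤ) (M : ℤ) := by
      rw [Nat.isCoprime_iff_coprime]
      rw [← ZMod.isUnit_iff_coprime, ZMod.natCast_zmod_val]
      exact ha
    obtain ⟨γ, h0, h2⟩ := exists_gamma hcop
    have h3 := mellin_entireB f hM0 h2
    rw [h0] at h3
    push_cast at h3
    exact h3.const_mul _
  · simp [MulChar.map_nonunit _ ha]

/-- the Dirichlet series -/
theorem hasSum_LB {χ : DirichletCharacter ℂ M} (hχ : χ.IsPrimitive)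
    {s : ℂ} (hs : 2 < s.re) :
    HasSum (fun n : ℕ => Complex.Gamma s * (tau χ * (χ n * coef f n)) /
      ((2 * Real.pi * n : ℝ) : ℂ) ^ s) (mellin (Fchi f χ) s) := by
  refine hasSum_mellin (fun n => ?_) (by linarith) (fun t ht => ?_) ?_
  · rcases Nat.eq_zero_or_pos n with rfl | hn
    · left
      simp [coef_zero]
    · right
      positivity
  · exact hasSum_FchiB f hχ ht
  · have h1 : Summable fun n : ℕ => (n : ℝ) ^ (1 - s.re) :=
      Real.summable_nat_rpow.2 (by linarith)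
    have h2 : (fun n : ℕ => ‖tau χ * (χ n * coef f n)‖ / (2 * Real.pi * n) ^ s.re) =O[atTop]
        fun n : ℕ => (n : ℝ) ^ (1 - s.re) := by
      obtain ⟨C, hC⟩ := (coef_O f).bound
      refine IsBigO.of_bound (‖tau χ‖ * C) ?_
      filter_upwards [hC, eventually_gt_atTop 0] with n hn hn0
      have hn1 : (1 : ℝ) ≤ n := by exact_mod_cast hn0
      have hnpos : (0 : ℝ) < n := by linarith
      have hpi := Real.pi_gt_three
      rw [Real.norm_of_nonneg (by positivity), Real.norm_of_nonneg (by positivity)]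
      rw [Real.norm_of_nonneg (by positivity)] at hn
      have h3 : ‖χ n‖ ≤ 1 := DirichletCharacter.norm_le_one χ _
      have h4 : (n : ℝ) ^ s.re ≤ (2 * Real.pi * n) ^ s.re := by
        apply Real.rpow_le_rpow hnpos.le _ (by linarith)
        nlinarith
      have h5 : (0 : ℝ) < (n : ℝ) ^ s.re := by positivity
      rw [Real.rpow_sub hnpos, norm_mul, norm_mul]
      calc ‖tau χ‖ * (‖χ n‖ * ‖coef f n‖) / (2 * Real.pi * n) ^ s.re
          ≤ ‖tau χ‖ * (1 * (C * (n : ℝ) ^ (1 : ℝ))) / (n : ℝ) ^ s.re := by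
            have h6 : 0 ≤ C * (n : ℝ) ^ (1 : ℝ) := (norm_nonneg _).trans hn
            gcongr
        _ = ‖tau χ‖ * C * ((n : ℝ) ^ (1 : ℝ) / (n : ℝ) ^ s.re) := by ring
    exact summable_of_isBigO_nat h1 h2

/-- the character sum of cusp values -/
noncomputable def SchiB {N : ℕ} (f : CuspForm (Gamma0 N : Subgroup (GL (Fin 2) ℝ)) 2)
    (χ : DirichletCharacter ℂ M) : ℂ :=
  ∑ u : (ZMod M)ˣ, χ⁻¹ (u : ZMod M) * PsiC f (((u : ZMod M).val : ℚ), (M : ℚ))

/-- the entire function and its value at one -/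
theorem exists_LB {χ : DirichletCharacter ℂ M} (hχ : χ.IsPrimitive) :
    ∃ L : ℂ → ℂ, Differentiable ℂ L ∧
    (∀ s : ℂ, 2 < s.re → L s = LSeries (fun n => χ n * coef f n) s) ∧
    tau χ * L 1 = SchiB f χ := by
  have htau := tau_ne_zero hχ
  have hM0 : 0 < M := Nat.pos_of_ne_zero (NeZero.ne M)
  have h2pi : (2 * Real.pi : ℂ) ≠ 0 := by
    have := Real.pi_ne_zero
    exact_mod_cast mul_ne_zero two_ne_zero this
  have hval : mellin (Fchi f χ) 1 = SchiB f χ / (2 * Real.pi) := by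
    rw [mellin_sumB f, SchiB, Finset.sum_div]
    rw [← Finset.sum_filter_of_ne (p := fun a : ZMod M => IsUnit a)]
    · symm
      refine Finset.sum_bij (fun a _ => (a : ZMod M)) ?_ ?_ ?_ ?_
      · intro a _
        simp
      · intro a _ b _ hab
        exact Units.ext hab
      · intro b hb
        rw [Finset.mem_filter] at hb
        obtain ⟨u, hu⟩ := hb.2
        exact ⟨u, Finset.mem_univ _, hu⟩
      · intro a _
        have hcop : IsCoprime (((a : ZMod M).val : ℕ) : ℤ) (M : ℤ) := by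
          rw [Nat.isCoprime_iff_coprime]
          rw [← ZMod.isUnit_iff_coprime, ZMod.natCast_zmod_val]
          exact a.isUnit
        obtain ⟨γ, h0, h2⟩ := exists_gamma hcop
        have h3 := mellin_oneB f hM0 h2
        rw [h0] at h3
        push_cast at h3
        rw [← h3]
        field_simp
    · intro a _ hne
      by_contra hna
      apply hne
      rw [MulChar.map_nonunit _ hna, zero_mul]
  refine ⟨fun s => ((2 * Real.pi : ℝ) : ℂ) ^ s * (Complex.Gamma s)⁻¹ * (tau χ)⁻¹ *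
    ∑ a : ZMod M, χ⁻¹ a * mellin (G f ((a.val : ℝ) / M)) s, ?_, ?_, ?_⟩
  · refine Differentiable.mul (Differentiable.mul (Differentiable.mul ?_ ?_) ?_) ?_
    · refine Differentiable.const_cpow differentiable_id (Or.inl ?_)
      push_cast
      exact h2pi
    · exact Complex.differentiable_one_div_Gamma
    · exact differentiable_const _
    · exact mellin_entire_sumB f χ
  · intro s hs
    have hG : Complex.Gamma s ≠ 0 := Complex.Gamma_ne_zero_of_re_pos (by linarith)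
    have h1 := hasSum_LB f hχ hs
    rw [mellin_sumB f] at h1
    have h2 := h1.mul_left (((2 * Real.pi : ℝ) : ℂ) ^ s * (Complex.Gamma s)⁻¹ * (tau χ)⁻¹)
    refine h2.tsum_eq.symm.trans ?_
    rw [LSeries]
    refine tsum_congr fun n => ?_
    rw [LSeries.term_def]
    rcases Nat.eq_zero_or_pos n with rfl | hn
    · simp [coef_zero]
    · rw [if_neg hn.ne']
      have h3 : ((2 * Real.pi * n : ℝ) : ℂ) ^ s = ((2 * Real.pi : ℝ) : ℂ) ^ s * (n : ℂ) ^ s := by
        rw [Complex.ofReal_mul, Complex.mul_cpow_ofReal_nonneg (by positivity) (by positivity)]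
        simp
      have h4 : ((2 * Real.pi : ℝ) : ℂ) ^ s ≠ 0 := by
        rw [Ne, Complex.cpow_eq_zero_iff]
        push_cast
        tauto
      have h5 : (n : ℂ) ^ s ≠ 0 := by
        rw [Ne, Complex.cpow_eq_zero_iff]
        have : (n : ℂ) ≠ 0 := by exact_mod_cast hn.ne'
        tauto
      rw [h3]
      field_simp
  · simp only [Complex.cpow_one, Complex.Gamma_one, inv_one, mul_one]
    rw [← mellin_sumB f, hval]
    push_cast
    field_simp

end

end Pool.Agent.H503.MU
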