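import Mathlib

/-!
# Modular symbols with values in a field: the action of `SL₂(ℚ)` on functions of pairs
-/

set_option autoImplicit false
set_option linter.unusedSectionVars false

open Matrix MatrixGroups CongruenceSubgroup

namespace Pool.Agent.H503.MU

/-- the action on pairs -/
def act (g : SL(2, ℚ)) (z : ℚ × ℚ) : ℚ × ℚ :=
  (g 0 0 * z.1 + g 0 1 * z.2, g 1 0 * z.1 + g 1 1 * z.2)

lemma act_one (z : ℚ × ℚ) : act 1 z = z := by
  simp [act]

lemma act_mul (g h : SL(2, ℚ)) (z : ℚ × ℚ) : act (g * h) z = act g (act h z) := by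
  have h1 : ∀ i j, (g * h) i j = g i 0 * h 0 j + g i 1 * h 1 j := by
    intro i j
    rw [Matrix.SpecialLinearGroup.coe_mul, Matrix.mul_apply, Fin.sum_univ_two]
  unfold act
  simp only [h1]
  ext <;> simp <;> ring

lemma act_inv_act (g : SL(2, ℚ)) (z : ℚ × ℚ) : act g⁻¹ (act g z) = z := by
  rw [← act_mul, inv_mul_cancel, act_one]

lemma act_act_inv (g : SL(2, ℚ)) (z : ℚ × ℚ) : act g (act g⁻¹ z) = z := by
  rw [← act_mul, mul_inv_cancel, act_one]

lemma act_zero (g : SL(2, ℚ)) : act g 0 = 0 := by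
  simp [act]

lemma act_ne (g : SL(2, ℚ)) {z : ℚ × ℚ} (hz : z ≠ 0) : act g z ≠ 0 := by
  intro h
  apply hz
  rw [← act_inv_act g z, h, act_zero]

/-- the embedding -/
abbrev toQ : SL(2, ℤ) →* SL(2, ℚ) := SpecialLinearGroup.map (Int.castRingHom ℚ)

lemma toQ_apply (g : SL(2, ℤ)) (i j : Fin 2) : toQ g i j = ((g i j : ℤ) : ℚ) := rfl

lemma act_toQ (g : SL(2, ℤ)) (z : ℚ × ℚ) :
    act (toQ g) z = ((g 0 0 : ℤ) * z.1 + (g 0 1 : ℤ) * z.2, (g 1 0 : ℤ) * z.1 + (g 1 1 : ℤ) * z.2) :=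
  rfl

/-- upper triangular -/
def up (a : ℚ) : SL(2, ℚ) := ⟨!![1, a; 0, 1], by simp⟩

/-- lower triangular -/
def lo (a : ℚ) : SL(2, ℚ) := ⟨!![1, 0; a, 1], by simp⟩

/-- diagonal -/
def dg (u : ℚ) (hu : u ≠ 0) : SL(2, ℚ) := ⟨!![u, 0; 0, u⁻¹], by simp [Matrix.det_fin_two_of, hu]⟩

lemma act_up (a : ℚ) (z : ℚ × ℚ) : act (up a) z = (z.1 + a * z.2, z.2) := by
  simp [act, up]

lemma act_lo (a : ℚ) (z : ℚ × ℚ) : act (lo a) z = (z.1, a * z.1 + z.2) := by
  simp [act, lo]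

lemma act_dg (u : ℚ) (hu : u ≠ 0) (z : ℚ × ℚ) : act (dg u hu) z = (u * z.1, u⁻¹ * z.2) := by
  simp [act, dg]

/-- extensionality through the action -/
lemma ext_act {g h : SL(2, ℚ)} (h1 : act g (1, 0) = act h (1, 0)) (h2 : act g (0, 1) = act h (0, 1)) :
    g = h := by
  simp only [act, mul_one, mul_zero, add_zero, zero_add, Prod.mk.injEq] at h1 h2
  ext i j
  fin_cases i <;> fin_cases j
  · exact h1.1
  · exact h2.1
  · exact h1.2
  · exact h2.2

lemma up_add (a b : ℚ) : up (a + b) = up a * up b := by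
  apply ext_act
  · simp only [act_mul, act_up]
    ext <;> simp
  · simp only [act_mul, act_up]
    ext
    · simp
      ring
    · simp

lemma lo_add (a b : ℚ) : lo (a + b) = lo a * lo b := by
  apply ext_act
  · simp only [act_mul, act_lo]
    ext
    · simp
    · simp
  · simp only [act_mul, act_lo]
    ext <;> simp

lemma up_zero : up 0 = 1 := by
  apply ext_act <;> simp only [act_up, act_one] <;> ext <;> simp

lemma lo_zero : lo 0 = 1 := by
  apply ext_act <;> simp only [act_lo, act_one] <;> ext <;> simp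

lemma up_neg (a : ℚ) : up (-a) = (up a)⁻¹ := by
  rw [eq_inv_iff_mul_eq_one, ← up_add, neg_add_cancel, up_zero]

lemma lo_neg (a : ℚ) : lo (-a) = (lo a)⁻¹ := by
  rw [eq_inv_iff_mul_eq_one, ← lo_add, neg_add_cancel, lo_zero]

section
variable {F : Type*}

/-- the stabilizer of a function -/
def Z (Ψ : ℚ × ℚ → F) : Subgroup SL(2, ℚ) where
  carrier := {g | ∀ z, z ≠ 0 → Ψ (act g z) = Ψ z}
  one_mem' := fun z _ => by rw [act_one]
  mul_mem' := fun {a b} ha hb z hz => by rw [act_mul, ha _ (act_ne b hz), hb z hz]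
  inv_mem' := fun {a} ha z hz => by
    have := ha _ (act_ne a⁻¹ hz)
    rw [act_act_inv] at this
    exact this.symm

lemma mem_Z {Ψ : ℚ × ℚ → F} {g : SL(2, ℚ)} : g ∈ Z Ψ ↔ ∀ z, z ≠ 0 → Ψ (act g z) = Ψ z := Iff.rfl

/-- the elements all of whose conjugates by `SL₂(ℤ)` are in the stabilizer -/
def Z0 (Ψ : ℚ × ℚ → F) : Subgroup SL(2, ℚ) where
  carrier := {k | ∀ g : SL(2, ℤ), toQ g * k * (toQ g)⁻¹ ∈ Z Ψ}
  one_mem' := fun g => by
    rw [mul_one, mul_inv_cancel]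
    exact one_mem _
  mul_mem' := fun {a b} ha hb g => by
    have := mul_mem (ha g) (hb g)
    convert this using 1
    group
  inv_mem' := fun {a} ha g => by
    have := inv_mem (ha g)
    convert this using 1
    group

lemma mem_Z0 {Ψ : ℚ × ℚ → F} {k : SL(2, ℚ)} :
    k ∈ Z0 Ψ ↔ ∀ g : SL(2, ℤ), toQ g * k * (toQ g)⁻¹ ∈ Z Ψ := Iff.rfl

lemma Z0_le (Ψ : ℚ × ℚ → F) : Z0 Ψ ≤ Z Ψ := fun k hk => by
  have := hk 1
  simpa using this

lemma Z0_conj {Ψ : ℚ × ℚ → F} {k : SL(2, ℚ)} (hk : k ∈ Z0 Ψ) (g : SL(2, ℤ)) :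
    toQ g * k * (toQ g)⁻¹ ∈ Z0 Ψ := fun h => by
  have := hk (h * g)
  rw [map_mul] at this
  convert this using 1
  group

lemma Z0_conj' {Ψ : ℚ × ℚ → F} {k : SL(2, ℚ)} (hk : k ∈ Z0 Ψ) (g : SL(2, ℤ)) :
    (toQ g)⁻¹ * k * toQ g ∈ Z0 Ψ := by
  have := Z0_conj hk g⁻¹
  rwa [map_inv, inv_inv] at this

/-- the relation `x ∈ Z0 y` -/
def Rel (Ψ : ℚ × ℚ → F) (x y : SL(2, ℚ)) : Prop := x * y⁻¹ ∈ Z0 Ψ

lemma Rel.refl (Ψ : ℚ × ℚ → F) (x : SL(2, ℚ)) : Rel Ψ x x := by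
  unfold Rel
  rw [mul_inv_cancel]
  exact one_mem _

lemma Rel.trans {Ψ : ℚ × ℚ → F} {x y z : SL(2, ℚ)} (h1 : Rel Ψ x y) (h2 : Rel Ψ y z) :
    Rel Ψ x z := by
  have := mul_mem h1 h2
  unfold Rel
  convert this using 1
  group

lemma Rel.symm {Ψ : ℚ × ℚ → F} {x y : SL(2, ℚ)} (h1 : Rel Ψ x y) : Rel Ψ y x := by
  have := inv_mem h1
  unfold Rel
  convert this using 1
  group

/-- products -/
lemma Rel.mul {Ψ : ℚ × ℚ → F} {x x' : SL(2, ℚ)} {y y' : SL(2, ℚ)} (h1 : Rel Ψ x y)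
    (h2 : Rel Ψ x' y') (hy : ∃ g : SL(2, ℤ), toQ g = y) : Rel Ψ (x * x') (y * y') := by
  obtain ⟨g, rfl⟩ := hy
  have h3 := mul_mem h1 (Z0_conj h2 g)
  unfold Rel
  convert h3 using 1
  group

lemma Rel.mul_left {Ψ : ℚ × ℚ → F} (g : SL(2, ℤ)) {x' y' : SL(2, ℚ)}
    (h2 : Rel Ψ x' y') : Rel Ψ (toQ g * x') (toQ g * y') :=
  Rel.mul (Rel.refl Ψ _) h2 ⟨g, rfl⟩

lemma Rel.mul_right {Ψ : ℚ × ℚ → F} {x y : SL(2, ℚ)} (h1 : Rel Ψ x y) (w : SL(2, ℚ)) :
    Rel Ψ (x * w) (y * w) := by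
  unfold Rel at h1 ⊢
  convert h1 using 1
  group

/-- values -/
lemma Rel.val {Ψ : ℚ × ℚ → F} {x y : SL(2, ℚ)} (h : Rel Ψ x y) {z : ℚ × ℚ} (hz : z ≠ 0) :
    Ψ (act x z) = Ψ (act y z) := by
  have h1 := Z0_le Ψ h _ (act_ne y hz)
  rwa [← act_mul, inv_mul_cancel_right] at h1

/-- words -/
def letter (b : Bool) (a : ℚ) : SL(2, ℚ) := if b then up a else lo a

lemma letter_add (b : Bool) (x y : ℚ) : letter b (x + y) = letter b x * letter b y := by
  cases b <;> simp [letter, up_add, lo_add]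

lemma letter_neg (b : Bool) (x : ℚ) : letter b (-x) = (letter b x)⁻¹ := by
  cases b <;> simp [letter, up_neg, lo_neg]

/-- the integral letters -/
def letterZ (b : Bool) (a : ℤ) : SL(2, ℤ) :=
  if b then ⟨!![1, a; 0, 1], by simp⟩ else ⟨!![1, 0; a, 1], by simp⟩

lemma toQ_letterZ (b : Bool) (a : ℤ) : toQ (letterZ b a) = letter b a := by
  ext i j
  change ((letterZ b a i j : ℤ) : ℚ) = letter b a i j
  cases b <;> fin_cases i <;> fin_cases j <;> simp [letter, letterZ, up, lo]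

/-- the value of a word -/
def ev (φ : Bool → ℤ → SL(2, ℚ)) (w : List (Bool × ℤ)) : SL(2, ℚ) :=
  (w.map fun l => φ l.1 l.2).prod

lemma ev_cons (φ : Bool → ℤ → SL(2, ℚ)) (l : Bool × ℤ) (w : List (Bool × ℤ)) :
    ev φ (l :: w) = φ l.1 l.2 * ev φ w := by
  simp [ev]

lemma ev_nil (φ : Bool → ℤ → SL(2, ℚ)) : ev φ [] = 1 := by
  simp [ev]

/-- telescoping -/
lemma ev_rel {Ψ : ℚ × ℚ → F} {φ ψ : Bool → ℤ → SL(2, ℚ)}
    (hψ : ∀ b n, ∃ g : SL(2, ℤ), toQ g = ψ b n) (h : ∀ b n, Rel Ψ (φ b n) (ψ b n))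
    (w : List (Bool × ℤ)) : Rel Ψ (ev φ w) (ev ψ w) := by
  induction w with
  | nil => exact Rel.refl Ψ _
  | cons l w ih =>
    rw [ev_cons, ev_cons]
    exact Rel.mul (h _ _) ih (hψ _ _)

/-- words of integral letters are integral -/
lemma ev_int {ψ : Bool → ℤ → SL(2, ℚ)} (hψ : ∀ b n, ∃ g : SL(2, ℤ), toQ g = ψ b n)
    (w : List (Bool × ℤ)) : ∃ g : SL(2, ℤ), toQ g = ev ψ w := by
  induction w with
  | nil => exact ⟨1, by rw [map_one, ev_nil]⟩
  | cons l w ih =>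
    obtain ⟨g, hg⟩ := ih
    obtain ⟨h, hh⟩ := hψ l.1 l.2
    exact ⟨h * g, by rw [map_mul, ev_cons, hg, hh]⟩

/-- conjugation of words -/
lemma ev_conj (x : SL(2, ℚ)) (φ : Bool → ℤ → SL(2, ℚ)) (w : List (Bool × ℤ)) :
    x * ev φ w * x⁻¹ = ev (fun b n => x * φ b n * x⁻¹) w := by
  induction w with
  | nil => simp [ev_nil]
  | cons l w ih =>
    rw [ev_cons, ev_cons, ← ih]
    group

/-- the splitting of words -/
lemma ev_split {Ψ : ℚ × ℚ → F} {φ ψ : Bool → ℤ → SL(2, ℚ)}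
    (hφ : ∀ b n, ∃ g : SL(2, ℤ), toQ g = φ b n) (hψ : ∀ b n, ∃ g : SL(2, ℤ), toQ g = ψ b n)
    (hc : ∀ b n b' n', Rel Ψ (ψ b n * φ b' n' * (ψ b n)⁻¹) (φ b' n'))
    (w : List (Bool × ℤ)) : Rel Ψ (ev (fun b n => φ b n * ψ b n) w) (ev φ w * ev ψ w) := by
  induction w with
  | nil =>
    simp only [ev_nil, mul_one]
    exact Rel.refl Ψ _
  | cons l w ih =>
    rw [ev_cons, ev_cons, ev_cons]
    obtain ⟨g1, h1⟩ := hφ l.1 l.2
    obtain ⟨g2, h2⟩ := hψ l.1 l.2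
    have h3 : Rel Ψ (φ l.1 l.2 * ψ l.1 l.2 * ev (fun b n => φ b n * ψ b n) w)
        (φ l.1 l.2 * ψ l.1 l.2 * (ev φ w * ev ψ w)) := by
      have := Rel.mul_left (g1 * g2) ih
      rwa [map_mul, h1, h2] at this
    refine h3.trans ?_
    have h4 : Rel Ψ (ψ l.1 l.2 * ev φ w * (ψ l.1 l.2)⁻¹) (ev φ w) := by
      rw [ev_conj]
      exact ev_rel hφ (fun b n => hc _ _ _ _) w
    have h5 := Rel.mul_left g1 (h4.mul_right (ψ l.1 l.2 * ev ψ w))
    rw [h1] at h5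
    convert h5 using 1 <;> group

/-- `SL₂(ℤ)` is generated by the elementary matrices -/
lemma exists_word (γ : SL(2, ℤ)) : ∃ w : List (Bool × ℤ), toQ γ = ev (fun b n => letter b n) w := by
  have happ : ∀ w w' : List (Bool × ℤ), ev (fun b n => letter b n) (w ++ w') =
      ev (fun b n => letter b n) w * ev (fun b n => letter b n) w' := by
    intro w w'
    simp [ev]
  have hinv : ∀ w : List (Bool × ℤ), ∃ w', ev (fun b n => letter b n) w' =
      (ev (fun b n => letter b n) w)⁻¹ := by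
    intro w
    induction w with
    | nil => exact ⟨[], by simp [ev_nil]⟩
    | cons l w ih =>
      obtain ⟨w', hw'⟩ := ih
      refine ⟨w' ++ [(l.1, -l.2)], ?_⟩
      rw [happ, hw', ev_cons, ev_nil, mul_one, ev_cons, _root_.mul_inv_rev, ← letter_neg]
      push_cast
      rfl
  let H : Subgroup SL(2, ℤ) :=
    { carrier := {γ | ∃ w : List (Bool × ℤ), toQ γ = ev (fun b n => letter b n) w}
      one_mem' := ⟨[], by rw [map_one, ev_nil]⟩
      mul_mem' := by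
        rintro a b ⟨w, hw⟩ ⟨w', hw'⟩
        exact ⟨w ++ w', by rw [map_mul, hw, hw', happ]⟩
      inv_mem' := by
        rintro a ⟨w, hw⟩
        obtain ⟨w', hw'⟩ := hinv w
        exact ⟨w', by rw [map_inv, hw, hw']⟩ }
  have hle : Subgroup.closure {ModularGroup.S, ModularGroup.T} ≤ H := by
    rw [Subgroup.closure_le]
    rintro x (rfl | rfl)
    · refine ⟨[(true, -1), (false, 1), (true, -1)], ?_⟩
      rw [ev_cons, ev_cons, ev_cons, ev_nil]
      apply ext_act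
      · simp only [act_mul, act_one, letter, if_true, act_up, act_lo, act_toQ, Bool.false_eq_true,
          if_false]
        ext <;> simp [ModularGroup.S]
      · simp only [act_mul, act_one, letter, if_true, act_up, act_lo, act_toQ, Bool.false_eq_true,
          if_false]
        ext <;> simp [ModularGroup.S]
    · refine ⟨[(true, 1)], ?_⟩
      rw [ev_cons, ev_nil]
      apply ext_act
      · simp only [act_mul, act_one, letter, if_true, act_up, act_toQ]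
        ext <;> simp [ModularGroup.T]
      · simp only [act_mul, act_one, letter, if_true, act_up, act_toQ]
        ext <;> simp [ModularGroup.T]
  have h1 : γ ∈ Subgroup.closure {ModularGroup.S, ModularGroup.T} := by
    rw [SpecialLinearGroup.SL2Z_generators]
    exact Subgroup.mem_top γ
  exact hle h1

end

end Pool.Agent.H503.MU
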