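import Pool.Agent.H503.MU.MelB
import Pool.Agent.H503.MU.Cyc

/-!
# Character sums over the units modulo `p^n`
-/

set_option autoImplicit false
set_option linter.unusedSectionVars false

namespace Pool.Agent.H503.MU

open Pool.Agent.H503.TA

/-- the cases `(p, e, w) = (p, 1, (p - 1) / 2)`, `p` odd, and `(2, 2, 1)` -/
structure GoodW (p e w : ℕ) : Prop where
  prime : p.Prime
  e0 : e ≠ 0
  e2 : e + 2 ≤ p * e
  two : 2 < p ^ e
  tot : ∀ n : ℕ, (p ^ (n + e)).totient = 2 * w * p ^ n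
  cop : ¬ p ∣ w

lemma goodW_odd {p : ℕ} (hp : p.Prime) (h2 : p ≠ 2) : GoodW p 1 ((p - 1) / 2) := by
  have h3 : 3 ≤ p := by
    have := hp.two_le
    omega
  have hodd : p % 2 = 1 := by
    rcases hp.eq_two_or_odd with h | h
    · exact absurd h h2
    · exact h
  refine ⟨hp, one_ne_zero, by omega, by rw [pow_one]; omega, fun n => ?_, fun hd => ?_⟩
  · rw [Nat.totient_prime_pow_succ hp]
    have : 2 * ((p - 1) / 2) = p - 1 := by omega
    rw [this, mul_comm]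
  · have := Nat.le_of_dvd (by omega) hd
    omega

lemma goodW_two : GoodW 2 2 1 where
  prime := Nat.prime_two
  e0 := two_ne_zero
  e2 := by norm_num
  two := by norm_num
  tot := fun n => by
    rw [show n + 2 = (n + 1) + 1 by ring, Nat.totient_prime_pow_succ Nat.prime_two]
    ring
  cop := by norm_num

section
variable {p e w : ℕ} (h : GoodW p e w)
include h

lemma ordW (n : ℕ) : orderOf (1 + p ^ e : ZMod (p ^ (n + e))) = p ^ n := by
  have h1 := ZMod.orderOf_one_add_mul_prime_pow h.prime e h.e0 h.e2 1 (by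
    intro hd
    have h8 : p ∣ 1 := by exact_mod_cast hd
    exact h.prime.one_lt.ne' (Nat.dvd_one.1 h8)) n
  simpa using h1

lemma unitW (n : ℕ) : IsUnit (1 + p ^ e : ZMod (p ^ (n + e))) := by
  have : ((1 + p ^ e : ℕ) : ZMod (p ^ (n + e))) = (1 + p ^ e : ZMod (p ^ (n + e))) := by
    push_cast
    rfl
  rw [← this, ZMod.isUnit_iff_coprime]
  apply Nat.Coprime.pow_right
  rw [Nat.coprime_comm, h.prime.coprime_iff_not_dvd]
  intro hd
  have h2 : p ∣ p ^ e := dvd_pow_self p h.e0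
  have h3 : p ∣ 1 := (Nat.dvd_add_left h2).1 hd
  exact h.prime.one_lt.ne' (Nat.dvd_one.1 h3)

/-- the generator of the wild part -/
noncomputable def gW (n : ℕ) : (ZMod (p ^ (n + e)))ˣ := (unitW h n).unit

lemma gW_val (n : ℕ) : ((gW h n : (ZMod (p ^ (n + e)))ˣ) : ZMod (p ^ (n + e))) = 1 + p ^ e :=
  (unitW h n).unit_spec

lemma gW_ord (n : ℕ) : orderOf (gW h n) = p ^ n := by
  rw [← orderOf_units, gW_val, ordW h]

lemma gW_pow (n : ℕ) : (gW h n) ^ (p ^ n) = 1 := by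
  rw [← gW_ord h n, pow_orderOf_eq_one]

end

section
variable {M : ℕ} [NeZero M]

lemma inv0 (k : (ZMod M)ˣ → ℤ) (b : (ZMod M)ˣ) :
    ∑ χ : DirichletCharacter ℂ M, χ (b : ZMod M) * ∑ u : (ZMod M)ˣ,
      χ⁻¹ (u : ZMod M) * k u = (M.totient : ℂ) * k b := by
  simp only [Finset.mul_sum]
  rw [Finset.sum_comm, Finset.sum_eq_single b]
  · have h2 := sum_chi b b
    rw [if_pos rfl] at h2
    rw [← h2, Finset.sum_mul]
    refine Finset.sum_congr rfl fun χ _ => ?_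
    ring
  · intro u _ hu
    have h2 := sum_chi b u
    rw [if_neg hu] at h2
    have h3 : ∑ χ : DirichletCharacter ℂ M, χ (b : ZMod M) * (χ⁻¹ (u : ZMod M) * k u) =
        (∑ χ : DirichletCharacter ℂ M, χ (b : ZMod M) * χ⁻¹ (u : ZMod M)) * k u := by
      rw [Finset.sum_mul]
      refine Finset.sum_congr rfl fun χ _ => ?_
      ring
    rw [h3, h2, zero_mul]
  · intro h
    exact absurd (Finset.mem_univ b) h

end

section
variable {p e w : ℕ} (h : GoodW p e w)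
include h

/-- the wild part of the character sums -/
theorem wild_sum (n : ℕ) [NeZero (p ^ (n + e))] {s : ℂ} (hs : s = 1 ∨ s = -1)
    {k : (ZMod (p ^ (n + e)))ˣ → ℤ} (hk : ∀ u, (k (-u) : ℂ) = s * k u) {ζ : ℂ}
    (hζ : ζ ^ (p ^ n) = 1) (b : (ZMod (p ^ (n + e)))ˣ) :
    (w : ℂ) * ∑ i ∈ Finset.range (p ^ n), ζ ^ i * k (b * gW h n ^ i) =
      ∑ χ ∈ Finset.univ.filter (fun χ : DirichletCharacter ℂ (p ^ (n + e)) =>
        χ (gW h n : ZMod (p ^ (n + e))) * ζ = 1 ∧ χ (-1) = s), χ (b : ZMod (p ^ (n + e))) * Lh k χ := by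
  have hp0 : (p : ℂ) ^ n ≠ 0 := pow_ne_zero _ (by exact_mod_cast h.prime.ne_zero)
  have hM : 2 < p ^ (n + e) :=
    lt_of_lt_of_le h.two (Nat.pow_le_pow_right h.prime.pos (Nat.le_add_left e n))
  set g := gW h n with hg
  -- the sums over powers
  have hgeom : ∀ χ : DirichletCharacter ℂ (p ^ (n + e)),
      ∑ i ∈ Finset.range (p ^ n), (χ (g : ZMod (p ^ (n + e))) * ζ) ^ i =
        if χ (g : ZMod (p ^ (n + e))) * ζ = 1 then (p : ℂ) ^ n else 0 := by
    intro χ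
    split_ifs with h1
    · rw [h1]
      simp
    · rw [geom_sum_eq h1]
      have h2 : (χ (g : ZMod (p ^ (n + e))) * ζ) ^ (p ^ n) = 1 := by
        rw [mul_pow, hζ, mul_one, ← map_pow, ← Units.val_pow_eq_pow_val, hg, gW_pow, Units.val_one,
          map_one]
      rw [h2, sub_self, zero_div]
  have h1 : ∑ i ∈ Finset.range (p ^ n), ζ ^ i * (((p ^ (n + e)).totient : ℂ) * k (b * g ^ i)) =
      ∑ χ : DirichletCharacter ℂ (p ^ (n + e)),
        (if χ (g : ZMod (p ^ (n + e))) * ζ = 1 then (p : ℂ) ^ n else 0) *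
        (χ (b : ZMod (p ^ (n + e))) * ∑ u : (ZMod (p ^ (n + e)))ˣ,
          χ⁻¹ (u : ZMod (p ^ (n + e))) * k u) := by
    simp only [← inv0, ← hgeom]
    simp only [Finset.mul_sum, Finset.sum_mul]
    rw [Finset.sum_comm]
    refine Finset.sum_congr rfl fun χ _ => ?_
    conv_rhs => rw [Finset.sum_comm]
    refine Finset.sum_congr rfl fun i _ => ?_
    refine Finset.sum_congr rfl fun u _ => ?_
    rw [Units.val_mul, Units.val_pow_eq_pow_val, map_mul, map_pow, mul_pow]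
    ring
  have h2 : ∀ χ : DirichletCharacter ℂ (p ^ (n + e)),
      ∑ u : (ZMod (p ^ (n + e)))ˣ, χ⁻¹ (u : ZMod (p ^ (n + e))) * k u =
        if χ (-1) = s then 2 * Lh k χ else 0 := by
    intro χ
    split_ifs with hχ
    · exact two_Lh hM hs hk hχ
    · exact sum_other hs hk hχ
  simp only [h2] at h1
  rw [Finset.sum_filter]
  have h3 : (2 * (p : ℂ) ^ n) * ((w : ℂ) * ∑ i ∈ Finset.range (p ^ n), ζ ^ i * k (b * g ^ i)) =
      (2 * (p : ℂ) ^ n) * ∑ χ : DirichletCharacter ℂ (p ^ (n + e)),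
        (if χ (g : ZMod (p ^ (n + e))) * ζ = 1 ∧ χ (-1) = s then
          χ (b : ZMod (p ^ (n + e))) * Lh k χ else 0) := by
    have h4 : (2 * (p : ℂ) ^ n) * ((w : ℂ) * ∑ i ∈ Finset.range (p ^ n), ζ ^ i * k (b * g ^ i)) =
        ∑ i ∈ Finset.range (p ^ n), ζ ^ i * (((p ^ (n + e)).totient : ℂ) * k (b * g ^ i)) := by
      rw [h.tot, Finset.mul_sum, Finset.mul_sum]
      refine Finset.sum_congr rfl fun i _ => ?_
      push_cast
      ring
    rw [h4, h1, Finset.mul_sum]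
    refine Finset.sum_congr rfl fun χ _ => ?_
    by_cases hA : χ (g : ZMod (p ^ (n + e))) * ζ = 1
    · by_cases hB : χ (-1) = s
      · rw [if_pos hA, if_pos hB, if_pos ⟨hA, hB⟩]
        ring
      · simp [hB]
    · simp [hA]
  exact mul_left_cancel₀ (mul_ne_zero two_ne_zero hp0) h3

/-- if all half sums with the same wild part are divisible by `p`, then `k` is constant modulo `p` -/
theorem wild_dvd (t : ℕ) [NeZero (p ^ (t + 1 + e))] {s : ℂ} (hs : s = 1 ∨ s = -1)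
    {k : (ZMod (p ^ (t + 1 + e)))ˣ → ℤ} (hk : ∀ u, (k (-u) : ℂ) = s * k u) {ζ : ℂ}
    (hζ : IsPrimitiveRoot ζ (p ^ (t + 1)))
    (hall : ∀ χ : DirichletCharacter ℂ (p ^ (t + 1 + e)),
      χ (gW h (t + 1) : ZMod (p ^ (t + 1 + e))) * ζ = 1 → χ (-1) = s →
      ∃ y : ℂ, IsIntegral ℤ y ∧ Lh k χ = p * y) (b : (ZMod (p ^ (t + 1 + e)))ˣ) :
    (p : ℤ) ∣ k (b * gW h (t + 1) ^ (p ^ t)) - k b := by
  have hpf : Fact p.Prime := ⟨h.prime⟩
  set g := gW h (t + 1) with hg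
  have hsum := wild_sum h (t + 1) hs hk hζ.pow_eq_one b
  rw [← hg] at hsum
  -- the right hand side is divisible
  obtain ⟨y, hy, hy'⟩ : ∃ y : ℂ, IsIntegral ℤ y ∧
      ∑ χ ∈ Finset.univ.filter (fun χ : DirichletCharacter ℂ (p ^ (t + 1 + e)) =>
        χ (g : ZMod (p ^ (t + 1 + e))) * ζ = 1 ∧ χ (-1) = s),
        χ (b : ZMod (p ^ (t + 1 + e))) * Lh k χ = p * y := by
    choose! Y hY1 hY2 using hall
    refine ⟨∑ χ ∈ Finset.univ.filter (fun χ : DirichletCharacter ℂ (p ^ (t + 1 + e)) =>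
        χ (g : ZMod (p ^ (t + 1 + e))) * ζ = 1 ∧ χ (-1) = s),
        χ (b : ZMod (p ^ (t + 1 + e))) * Y χ, ?_, ?_⟩
    · refine IsIntegral.sum _ fun χ hχ => ?_
      rw [Finset.mem_filter] at hχ
      exact (chi_integral χ b).mul (hY1 χ hχ.2.1 hχ.2.2)
    · rw [Finset.mul_sum]
      refine Finset.sum_congr rfl fun χ hχ => ?_
      rw [Finset.mem_filter] at hχ
      rw [hY2 χ hχ.2.1 hχ.2.2]
      ring
  rw [hy'] at hsum
  -- Bezout
  have hζint : IsIntegral ℤ ζ := hζ.isIntegral (pow_pos h.prime.pos _)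
  have hFint : IsIntegral ℤ (∑ i ∈ Finset.range (p ^ (t + 1)), ζ ^ i * (k (b * g ^ i) : ℂ)) := by
    refine IsIntegral.sum _ fun i _ => ?_
    exact (hζint.pow i).mul (isIntegral_algebraMap (x := k (b * g ^ i)))
  have hcop : IsCoprime (w : ℤ) (p : ℤ) := by
    rw [Nat.isCoprime_iff_coprime, Nat.coprime_comm, h.prime.coprime_iff_not_dvd]
    exact h.cop
  obtain ⟨a, c, hac⟩ := hcop
  have hacc : (a : ℂ) * w + c * p = 1 := by exact_mod_cast congrArg (fun n : ℤ => (n : ℂ)) hac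
  have hF : ∑ i ∈ Finset.range (p ^ (t + 1)), ζ ^ i * (k (b * g ^ i) : ℂ) =
      p * (a * y + c * ∑ i ∈ Finset.range (p ^ (t + 1)), ζ ^ i * (k (b * g ^ i) : ℂ)) := by
    linear_combination (-(∑ i ∈ Finset.range (p ^ (t + 1)), ζ ^ i * (k (b * g ^ i) : ℂ))) * hacc +
      (a : ℂ) * hsum
  have hint : IsIntegral ℤ (a * y + c * ∑ i ∈ Finset.range (p ^ (t + 1)), ζ ^ i *
      (k (b * g ^ i) : ℂ)) :=
    ((isIntegral_algebraMap (x := a)).mul hy).add ((isIntegral_algebraMap (x := c)).mul hFint)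
  have hper : ∀ i, (fun i : ℕ => k (b * g ^ i)) (i + p ^ (t + 1)) = (fun i : ℕ => k (b * g ^ i)) i := by
    intro i
    have h1 : g ^ (i + p ^ (t + 1)) = g ^ i := by
      rw [pow_add g i (p ^ (t + 1)), hg, gW_pow, mul_one]
    simp only [h1]
  have := coeff_dvd t hζ (fun i => k (b * g ^ i)) hper hint hF 0
  simpa using this

/-- the kernel of the reduction is generated by `g^(p^t)` -/
theorem wild_kernel (t : ℕ) {u v : (ZMod (p ^ (t + 1 + e)))ˣ}
    (huv : ((p : ℤ) ^ (t + e)) ∣ ((v : ZMod (p ^ (t + 1 + e))).val : ℤ) -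
      ((u : ZMod (p ^ (t + 1 + e))).val : ℤ)) :
    ∃ j : ℕ, v = u * (gW h (t + 1) ^ (p ^ t)) ^ j := by
  have hM0 : NeZero (p ^ (t + 1 + e)) := ⟨pow_ne_zero _ h.prime.ne_zero⟩
  have hpp : Prime (p : ℤ) := Nat.prime_iff_prime_int.1 h.prime
  have hd : p ^ (t + e) ∣ p ^ (t + 1 + e) := pow_dvd_pow p (by omega)
  set g := gW h (t + 1) with hg
  -- `g^(p^t) = 1 + p^(t+e) c`
  obtain ⟨c, hc⟩ : ∃ c : ℤ, ((g ^ (p ^ t) : (ZMod (p ^ (t + 1 + e)))ˣ) : ZMod (p ^ (t + 1 + e))) =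
      ((1 + (p : ℤ) ^ (t + e) * c : ℤ) : ZMod (p ^ (t + 1 + e))) := by
    set G : ZMod (p ^ (t + 1 + e)) := ((g ^ (p ^ t) : (ZMod (p ^ (t + 1 + e)))ˣ) :
      ZMod (p ^ (t + 1 + e))) with hG
    have h1 : ZMod.castHom hd (ZMod (p ^ (t + e))) G = 1 := by
      rw [hG, Units.val_pow_eq_pow_val, map_pow, hg, gW_val, map_add, map_one, map_pow, map_natCast,
        ← ordW h t, pow_orderOf_eq_one]
    have h2 : (((G.val : ℤ) - 1 : ℤ) : ZMod (p ^ (t + e))) = 0 := by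
      push_cast
      have h3 : ZMod.castHom hd (ZMod (p ^ (t + e))) ((G.val : ZMod (p ^ (t + 1 + e)))) =
          ((G.val : ℕ) : ZMod (p ^ (t + e))) := map_natCast _ _
      rw [ZMod.natCast_zmod_val] at h3
      rw [← h3, h1, sub_self]
    rw [ZMod.intCast_zmod_eq_zero_iff_dvd] at h2
    obtain ⟨c, hc⟩ := h2
    refine ⟨c, ?_⟩
    push_cast at hc
    have h4 : 1 + (p : ℤ) ^ (t + e) * c = G.val := by linarith
    rw [h4, Int.cast_natCast, ZMod.natCast_zmod_val]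
  have hpc : ¬ (p : ℤ) ∣ c := by
    rintro ⟨c', rfl⟩
    have h1 : g ^ (p ^ t) = 1 := by
      apply Units.ext
      rw [hc, Units.val_one]
      have h2 : (1 + (p : ℤ) ^ (t + e) * (p * c')) = 1 + ((p ^ (t + 1 + e) : ℕ) : ℤ) * c' := by
        push_cast
        ring
      rw [h2]
      push_cast
      have h3 : ((p : ZMod (p ^ (t + 1 + e))) ^ (t + 1 + e)) = 0 := by
        rw [← Nat.cast_pow, ZMod.natCast_self]
      rw [h3]
      ring
    have h2 := orderOf_dvd_of_pow_eq_one h1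
    rw [hg, gW_ord] at h2
    have h3 := (Nat.pow_dvd_pow_iff_le_right h.prime.one_lt).1 h2
    omega
  -- powers
  have hpow : ∀ j : ℕ, (((g ^ (p ^ t)) ^ j : (ZMod (p ^ (t + 1 + e)))ˣ) : ZMod (p ^ (t + 1 + e))) =
      ((1 + (p : ℤ) ^ (t + e) * (j * c) : ℤ) : ZMod (p ^ (t + 1 + e))) := by
    intro j
    induction j with
    | zero => simp
    | succ j ih =>
      rw [pow_succ, Units.val_mul, ih, hc, ← Int.cast_mul]
      have hsq : ((((p : ℤ) ^ (t + e)) ^ 2 : ℤ) : ZMod (p ^ (t + 1 + e))) = 0 := by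
        rw [ZMod.intCast_zmod_eq_zero_iff_dvd, ← pow_mul]
        push_cast
        refine pow_dvd_pow (p : ℤ) ?_
        have := h.e0
        omega
      have h5 : (1 + (p : ℤ) ^ (t + e) * (j * c)) * (1 + (p : ℤ) ^ (t + e) * c) =
          (1 + (p : ℤ) ^ (t + e) * (((j + 1 : ℕ) : ℤ) * c)) + ((p : ℤ) ^ (t + e)) ^ 2 * (j * c * c) := by
        push_cast
        ring
      rw [h5, Int.cast_add, Int.cast_mul, hsq, zero_mul, add_zero]
  obtain ⟨y, hy⟩ := huv
  set a : ℤ := ((u : ZMod (p ^ (t + 1 + e))).val : ℤ) with ha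
  have hpa : ¬ (p : ℤ) ∣ a := by
    intro hd
    rw [ha] at hd
    have h1 : p ∣ (u : ZMod (p ^ (t + 1 + e))).val := by exact_mod_cast hd
    have h2 : (u : ZMod (p ^ (t + 1 + e))).val.Coprime (p ^ (t + 1 + e)) := by
      rw [← ZMod.isUnit_iff_coprime, ZMod.natCast_zmod_val]
      exact u.isUnit
    have h3 : p ∣ p ^ (t + 1 + e) := dvd_pow_self p (by omega)
    have h4 := Nat.dvd_gcd h1 h3
    rw [h2] at h4
    exact h.prime.one_lt.ne' (Nat.dvd_one.1 h4)
  -- solve `j c a ≡ y`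
  have hcop : IsCoprime (p : ℤ) (c * a) := by
    rw [hpp.coprime_iff_not_dvd]
    intro hd
    rcases hpp.dvd_or_dvd hd with h1 | h1
    · exact hpc h1
    · exact hpa h1
  obtain ⟨r, z, hrz⟩ := hcop
  obtain ⟨j, hj⟩ : ∃ j : ℕ, (p : ℤ) ∣ (j : ℤ) - z * y := by
    refine ⟨((z * y) % p).toNat, ?_⟩
    rw [Int.toNat_of_nonneg (Int.emod_nonneg _ hpp.ne_zero)]
    have : (z * y) % p - z * y = -(p * (z * y / p)) := by
      have := Int.emod_add_mul_ediv (z * y) p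
      linarith
    rw [this]
    exact (dvd_neg).2 (dvd_mul_right _ _)
  refine ⟨j, ?_⟩
  apply Units.ext
  rw [Units.val_mul, hpow]
  have hu : (u : ZMod (p ^ (t + 1 + e))) = ((a : ℤ) : ZMod (p ^ (t + 1 + e))) := by
    rw [ha, Int.cast_natCast, ZMod.natCast_zmod_val]
  have hv : (v : ZMod (p ^ (t + 1 + e))) = ((a + (p : ℤ) ^ (t + e) * y : ℤ) :
      ZMod (p ^ (t + 1 + e))) := by
    have : a + (p : ℤ) ^ (t + e) * y = ((v : ZMod (p ^ (t + 1 + e))).val : ℤ) := by linarith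
    rw [this, Int.cast_natCast, ZMod.natCast_zmod_val]
  rw [hu, hv, ← Int.cast_mul, ← sub_eq_zero, ← Int.cast_sub, ZMod.intCast_zmod_eq_zero_iff_dvd]
  obtain ⟨m, hm⟩ := hj
  refine ⟨y * r - m * c * a, ?_⟩
  push_cast
  have hm' : (j : ℤ) = z * y + p * m := by linarith
  rw [hm']
  have hps : (p : ℤ) ^ (t + 1 + e) = (p : ℤ) ^ (t + e) * p := by
    rw [← pow_succ]
    congr 1
    ring
  rw [hps]
  linear_combination (-(p : ℤ) ^ (t + e) * y) * hrz

/-- powers -/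
theorem wild_iter (t : ℕ) {k : (ZMod (p ^ (t + 1 + e)))ˣ → ℤ}
    (hall : ∀ b : (ZMod (p ^ (t + 1 + e)))ˣ, (p : ℤ) ∣ k (b * gW h (t + 1) ^ (p ^ t)) - k b)
    (b : (ZMod (p ^ (t + 1 + e)))ˣ) (j : ℕ) :
    (p : ℤ) ∣ k (b * (gW h (t + 1) ^ (p ^ t)) ^ j) - k b := by
  induction j with
  | zero => simp
  | succ j ih =>
    have h1 := hall (b * (gW h (t + 1) ^ (p ^ t)) ^ j)
    rw [mul_assoc, ← pow_succ] at h1
    have h2 := dvd_add h1 ih
    rwa [sub_add_sub_cancel] at h2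

/-- a character whose wild part is primitive is primitive -/
theorem primitive_of_wild (t : ℕ) {ζ : ℂ} (hζ : IsPrimitiveRoot ζ (p ^ (t + 1)))
    {χ : DirichletCharacter ℂ (p ^ (t + 1 + e))}
    (hχ : χ (gW h (t + 1) : ZMod (p ^ (t + 1 + e))) * ζ = 1) : χ.IsPrimitive := by
  have hM0 : NeZero (p ^ (t + 1 + e)) := ⟨pow_ne_zero _ h.prime.ne_zero⟩
  by_contra hnp
  have he := h.e0
  have h1 := factors_of_not_primitive h.prime (m := t + 1 + e) (by omega) χ hnp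
  have hm : t + 1 + e - 1 = t + e := by omega
  rw [hm] at h1
  have hd : p ^ (t + e) ∣ p ^ (t + 1 + e) := pow_dvd_pow p (by omega)
  rw [DirichletCharacter.factorsThrough_iff_ker_unitsMap hd] at h1
  have h2 : gW h (t + 1) ^ (p ^ t) ∈ (ZMod.unitsMap hd).ker := by
    rw [MonoidHom.mem_ker]
    apply Units.ext
    have hcast : ∀ x : ZMod (p ^ (t + 1 + e)), (x.cast : ZMod (p ^ (t + e))) =
      ZMod.castHom hd (ZMod (p ^ (t + e))) x := fun x => rfl
    rw [ZMod.unitsMap_val, hcast, Units.val_pow_eq_pow_val, map_pow, gW_val, map_add, map_one,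
      map_pow, map_natCast, ← ordW h t, pow_orderOf_eq_one, Units.val_one]
  have h3 := h1 h2
  rw [MonoidHom.mem_ker] at h3
  have h4 : χ (gW h (t + 1) : ZMod (p ^ (t + 1 + e))) ^ (p ^ t) = 1 := by
    have h5 := congrArg (fun u : ℂˣ => (u : ℂ)) h3
    simp only [MulChar.coe_toUnitHom, Units.val_pow_eq_pow_val, map_pow, Units.val_one] at h5
    exact h5
  have h5 : ζ ^ (p ^ t) = 1 := by
    have h6 := congrArg (fun z : ℂ => z ^ (p ^ t)) hχ
    simp only [mul_pow, one_pow] at h6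
    rw [h4, one_mul] at h6
    exact h6
  have h6 := hζ.dvd_of_pow_eq_one _ h5
  have h7 := (Nat.pow_dvd_pow_iff_le_right h.prime.one_lt).1 h6
  omega

end

end Pool.Agent.H503.MU
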